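import Pool.Agent.W184.Final

set_option autoImplicit false

/-! Numerical constants. -/

namespace Pool.Agent.W184

open MeasureTheory Filter Topology Pool.Agent.H306R2

/-- Taylor bounds for `exp(-u)`, `u ≥ 0` -/
lemma exp_neg_taylor (n : ℕ) : ∀ u : ℝ, 0 ≤ u →
    0 ≤ (-1 : ℝ) ^ (n + 1) * (Real.exp (-u) - ∑ k ∈ Finset.range (n + 1), (-u) ^ k / (k.factorial : ℝ)) := by
  induction n with
  | zero =>
    intro u hu
    have : Real.exp (-u) ≤ 1 := Real.exp_le_one_iff.mpr (by linarith)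
    simp
    linarith
  | succ n ih =>
    set f : ℝ → ℝ := fun u => (-1 : ℝ) ^ (n + 1 + 1) *
      (Real.exp (-u) - ∑ k ∈ Finset.range (n + 1 + 1), (-u) ^ k / (k.factorial : ℝ)) with hf
    have hd : ∀ u, HasDerivAt f ((-1 : ℝ) ^ (n + 1) *
        (Real.exp (-u) - ∑ k ∈ Finset.range (n + 1), (-u) ^ k / (k.factorial : ℝ))) u := by
      intro u
      have h1 : HasDerivAt (fun u : ℝ => Real.exp (-u)) (-Real.exp (-u)) u := by
        have := (Real.hasDerivAt_exp (-u)).comp u (hasDerivAt_neg u)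
        simpa [Function.comp_def] using this
      have h2 : HasDerivAt (fun u : ℝ => ∑ k ∈ Finset.range (n + 1 + 1), (-u) ^ k / (k.factorial : ℝ))
          (∑ k ∈ Finset.range (n + 1 + 1), ((k:ℝ) * (-u) ^ (k - 1) * (-1)) / (k.factorial : ℝ)) u := by
        refine HasDerivAt.fun_sum fun k _ => ?_
        refine HasDerivAt.div_const ?_ _
        have := (hasDerivAt_pow k (-u)).comp u (hasDerivAt_neg u)
        simpa [Function.comp_def] using this
      have h3 : (∑ k ∈ Finset.range (n + 1 + 1), ((k:ℝ) * (-u) ^ (k - 1) * (-1)) / (k.factorial : ℝ)) =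
          -∑ k ∈ Finset.range (n + 1), (-u) ^ k / (k.factorial : ℝ) := by
        rw [Finset.sum_range_succ', ← Finset.sum_neg_distrib]
        simp only [Nat.cast_zero, zero_mul, zero_div, add_zero]
        refine Finset.sum_congr rfl fun k _ => ?_
        rw [Nat.add_sub_cancel, Nat.factorial_succ]
        push_cast
        have : (k:ℝ) + 1 ≠ 0 := by positivity
        have : (k.factorial : ℝ) ≠ 0 := by positivity
        field_simp
      rw [h3] at h2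
      have h4 := (h1.sub h2).const_mul ((-1 : ℝ) ^ (n + 1 + 1))
      refine h4.congr_deriv ?_
      rw [pow_succ ((-1:ℝ)) (n + 1)]
      ring
    have hmono : MonotoneOn f (Set.Ici 0) := by
      refine monotoneOn_of_deriv_nonneg (convex_Ici 0)
        (fun u _ => (hd u).continuousAt.continuousWithinAt)
        (fun u _ => (hd u).differentiableAt.differentiableWithinAt) ?_
      intro u hu
      rw [interior_Ici] at hu
      rw [(hd u).deriv]
      exact ih u (le_of_lt hu)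
    intro u hu
    have h0 : f 0 = 0 := by
      simp only [hf]
      rw [Finset.sum_range_succ']
      simp
    have := hmono (Set.mem_Ici.mpr le_rfl) (Set.mem_Ici.mpr hu) hu
    rw [h0] at this
    exact this

/-- `κ² ∫_0^1 x^{κ²-1} e^{-2δx} dx` -/
noncomputable def hI (s a : ℝ) : ℝ := ∫ x in (0:ℝ)..1, s * x ^ (s - 1) * Real.exp (-(a * x))

lemma gI_eq {κ : ℝ} (hκ : 0 < κ) (δ : ℝ) : gI κ δ = hI (κ ^ 2) (2 * δ) / Real.Gamma (κ ^ 2 + 1) := by
  have hG : 0 < Real.Gamma (κ ^ 2) := Real.Gamma_pos_of_pos (by positivity)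
  have hκ2 : κ ^ 2 ≠ 0 := by positivity
  unfold gI hI
  rw [Real.Gamma_add_one hκ2, ← intervalIntegral.integral_div]
  refine intervalIntegral.integral_congr fun x _ => ?_
  field_simp

lemma rpow_ii {s : ℝ} (hs : 0 < s) (a b : ℝ) : IntervalIntegrable (fun x : ℝ => s * x ^ (s - 1)) volume a b :=
  (intervalIntegral.intervalIntegrable_rpow' (by linarith)).const_mul s

lemma int_mono {s : ℝ} (hs : 0 < s) (k : ℕ) : ∫ x in (0:ℝ)..1, s * x ^ (s - 1) * x ^ k = s / (s + k) := by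
  have h1 : ∫ x in (0:ℝ)..1, s * x ^ (s - 1) * x ^ k = ∫ x in (0:ℝ)..1, s * x ^ (s - 1 + k) := by
    rw [intervalIntegral.integral_of_le zero_le_one, intervalIntegral.integral_of_le zero_le_one]
    refine setIntegral_congr_fun measurableSet_Ioc fun x hx => ?_
    rw [mul_assoc, ← Real.rpow_natCast x k, ← Real.rpow_add hx.1]
  rw [h1, intervalIntegral.integral_const_mul, integral_rpow (Or.inl (by
    have : (0:ℝ) ≤ k := Nat.cast_nonneg k
    linarith))]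
  have h2 : s - 1 + k + 1 = s + k := by ring
  have h3 : s + k ≠ 0 := by positivity
  rw [h2, Real.one_rpow, Real.zero_rpow h3]
  field_simp
  ring

/-- Taylor bounds for `hI` -/
lemma hI_taylor {s a : ℝ} (hs : 0 < s) (ha : 0 ≤ a) (n : ℕ) :
    0 ≤ (-1 : ℝ) ^ (n + 1) * (hI s a - ∑ k ∈ Finset.range (n + 1),
      (-a) ^ k / (k.factorial : ℝ) * (s / (s + k))) := by
  have e1 : ∑ k ∈ Finset.range (n + 1), (-a) ^ k / (k.factorial : ℝ) * (s / (s + k)) =
      ∫ x in (0:ℝ)..1, s * x ^ (s - 1) *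
        ∑ k ∈ Finset.range (n + 1), (-(a * x)) ^ k / (k.factorial : ℝ) := by
    have e2 : ∀ x : ℝ, s * x ^ (s - 1) * ∑ k ∈ Finset.range (n + 1), (-(a * x)) ^ k / (k.factorial : ℝ) =
        ∑ k ∈ Finset.range (n + 1), (-a) ^ k / (k.factorial : ℝ) * (s * x ^ (s - 1) * x ^ k) := by
      intro x
      rw [Finset.mul_sum]
      refine Finset.sum_congr rfl fun k _ => ?_
      rw [show -(a * x) = (-a) * x by ring, mul_pow]
      ring
    simp_rw [e2]
    rw [intervalIntegral.integral_finsetSum fun k _ => ?_]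
    · refine Finset.sum_congr rfl fun k _ => ?_
      rw [intervalIntegral.integral_const_mul, int_mono hs]
    · exact ((rpow_ii hs 0 1).mul_continuousOn (by fun_prop)).const_mul _
  have i1 : IntervalIntegrable (fun x : ℝ => s * x ^ (s - 1) * Real.exp (-(a * x))) volume 0 1 :=
    (rpow_ii hs 0 1).mul_continuousOn (by fun_prop)
  have i2 : IntervalIntegrable (fun x : ℝ => s * x ^ (s - 1) *
        ∑ k ∈ Finset.range (n + 1), (-(a * x)) ^ k / (k.factorial : ℝ)) volume 0 1 :=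
    (rpow_ii hs 0 1).mul_continuousOn (by fun_prop)
  unfold hI
  rw [e1, ← intervalIntegral.integral_sub i1 i2, ← intervalIntegral.integral_const_mul]
  refine intervalIntegral.integral_nonneg zero_le_one fun x hx => ?_
  have h1 := exp_neg_taylor n (a * x) (mul_nonneg ha hx.1)
  have h2 : 0 ≤ s * x ^ (s - 1) := mul_nonneg hs.le (Real.rpow_nonneg hx.1 _)
  calc 0 ≤ s * x ^ (s - 1) * ((-1 : ℝ) ^ (n + 1) * (Real.exp (-(a * x)) -
        ∑ k ∈ Finset.range (n + 1), (-(a * x)) ^ k / (k.factorial : ℝ))) := mul_nonneg h2 h1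
    _ = _ := by ring

lemma hI_zero {s : ℝ} (hs : 0 < s) : hI s 0 = 1 := by
  have h1 := hI_taylor hs (le_refl (0:ℝ)) 0
  have h2 := hI_taylor hs (le_refl (0:ℝ)) 1
  simp [Finset.sum_range_succ, div_self hs.ne'] at h1 h2
  linarith

lemma hI_le_one {s a : ℝ} (hs : 0 < s) (ha : 0 ≤ a) : hI s a ≤ 1 := by
  have h1 := hI_taylor hs ha 0
  simp [div_self hs.ne'] at h1
  linarith

/-- the constants relative to the natural normalisation -/
theorem upper' {v : ℕ} (hv : 2 ≤ v) {δ C : ℝ} (hδ : 0 < δ)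
    (hC : (Real.exp (δ / v) * hI ((1 / (v:ℝ)) ^ 2) (2 * δ) + Real.exp (-(δ / v))) < C * (1 - Real.exp (-(δ / v)))) :
    ∀ᶠ T : ℝ in atTop, ∫ t in (0:ℝ)..T, zn (1 / 2) t ^ (2 / (v:ℝ)) ≤
      C * aF (1 / (v:ℝ)) / Real.Gamma ((1 / (v:ℝ)) ^ 2 + 1) * MM v T := by
  have hv0 : (0:ℝ) < v := by exact_mod_cast (by omega : 0 < v)
  have hκ : 0 < 1 / (v:ℝ) := by positivity
  have hA := aF_pos hκ
  have hG : 0 < Real.Gamma ((1 / (v:ℝ)) ^ 2 + 1) := Real.Gamma_pos_of_pos (by positivity)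
  refine upper hv hδ ?_
  rw [gI_eq hκ, gI_eq hκ, mul_zero, hI_zero (by positivity)]
  have h1 : 0 < 1 - Real.exp (-(δ / v)) := by
    have : Real.exp (-(δ / v)) < 1 := by
      rw [Real.exp_lt_one_iff]
      have : 0 < δ / v := by positivity
      linarith
    linarith
  rw [div_lt_iff₀ h1]
  have h2 : 0 < aF (1 / (v:ℝ)) / Real.Gamma ((1 / (v:ℝ)) ^ 2 + 1) := by positivity
  calc aF (1 / (v:ℝ)) * (Real.exp (δ / v) * (hI ((1 / (v:ℝ)) ^ 2) (2 * δ) / Real.Gamma ((1 / (v:ℝ)) ^ 2 + 1)) +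
        Real.exp (-(δ / v)) * (1 / Real.Gamma ((1 / (v:ℝ)) ^ 2 + 1))) =
      (aF (1 / (v:ℝ)) / Real.Gamma ((1 / (v:ℝ)) ^ 2 + 1)) *
        (Real.exp (δ / v) * hI ((1 / (v:ℝ)) ^ 2) (2 * δ) + Real.exp (-(δ / v))) := by ring
    _ < (aF (1 / (v:ℝ)) / Real.Gamma ((1 / (v:ℝ)) ^ 2 + 1)) * (C * (1 - Real.exp (-(δ / v)))) :=
        mul_lt_mul_of_pos_left hC h2
    _ = _ := by ring

theorem lower' {v : ℕ} (hv : 2 ≤ v) {δ c : ℝ} (hδ : 0 < δ)
    (hc : c * (1 + Real.exp (-(2 * δ / v))) < hI ((1 / (v:ℝ)) ^ 2) (2 * δ) - Real.exp (-(2 * δ / v))) :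
    ∀ᶠ T : ℝ in atTop, c * aF (1 / (v:ℝ)) / Real.Gamma ((1 / (v:ℝ)) ^ 2 + 1) * MM v T ≤
      ∫ t in (0:ℝ)..T, zn (1 / 2) t ^ (2 / (v:ℝ)) := by
  have hv0 : (0:ℝ) < v := by exact_mod_cast (by omega : 0 < v)
  have hκ : 0 < 1 / (v:ℝ) := by positivity
  have hA := aF_pos hκ
  have hG : 0 < Real.Gamma ((1 / (v:ℝ)) ^ 2 + 1) := Real.Gamma_pos_of_pos (by positivity)
  refine lower hv hδ ?_
  rw [gI_eq hκ, gI_eq hκ, mul_zero, hI_zero (by positivity)]
  have h1 : 0 < 1 + Real.exp (-(2 * δ / v)) := by positivity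
  rw [lt_div_iff₀ h1]
  have h2 : 0 < aF (1 / (v:ℝ)) / Real.Gamma ((1 / (v:ℝ)) ^ 2 + 1) := by positivity
  calc c * aF (1 / (v:ℝ)) / Real.Gamma ((1 / (v:ℝ)) ^ 2 + 1) * (1 + Real.exp (-(2 * δ / v))) =
      (aF (1 / (v:ℝ)) / Real.Gamma ((1 / (v:ℝ)) ^ 2 + 1)) * (c * (1 + Real.exp (-(2 * δ / v)))) := by ring
    _ < (aF (1 / (v:ℝ)) / Real.Gamma ((1 / (v:ℝ)) ^ 2 + 1)) *
        (hI ((1 / (v:ℝ)) ^ 2) (2 * δ) - Real.exp (-(2 * δ / v))) := mul_lt_mul_of_pos_left hc h2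
    _ = _ := by ring

lemma exp_up {u : ℝ} (hu : 0 ≤ u) (n : ℕ) (hn : Even n) :
    Real.exp (-u) ≤ ∑ k ∈ Finset.range (n + 1), (-u) ^ k / (k.factorial : ℝ) := by
  have h := exp_neg_taylor n u hu
  rw [pow_succ, hn.neg_one_pow] at h
  linarith

lemma exp_lo {u : ℝ} (hu : 0 ≤ u) (n : ℕ) (hn : Odd n) :
    ∑ k ∈ Finset.range (n + 1), (-u) ^ k / (k.factorial : ℝ) ≤ Real.exp (-u) := by
  have h := exp_neg_taylor n u hu
  rw [pow_succ, hn.neg_one_pow] at h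
  linarith

lemma hI_up {s a : ℝ} (hs : 0 < s) (ha : 0 ≤ a) (n : ℕ) (hn : Even n) :
    hI s a ≤ ∑ k ∈ Finset.range (n + 1), (-a) ^ k / (k.factorial : ℝ) * (s / (s + k)) := by
  have h := hI_taylor hs ha n
  rw [pow_succ, hn.neg_one_pow] at h
  linarith

lemma hI_lo {s a : ℝ} (hs : 0 < s) (ha : 0 ≤ a) (n : ℕ) (hn : Odd n) :
    ∑ k ∈ Finset.range (n + 1), (-a) ^ k / (k.factorial : ℝ) * (s / (s + k)) ≤ hI s a := by
  have h := hI_taylor hs ha n
  rw [pow_succ, hn.neg_one_pow] at h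
  linarith

/-- the first moment, upper bound -/
theorem first_upper : ∀ᶠ T : ℝ in atTop, ∫ t in (0:ℝ)..T, zn (1 / 2) t ^ (2 / ((2:ℕ):ℝ)) ≤
      (663 / 200) * aF (1 / ((2:ℕ):ℝ)) / Real.Gamma ((1 / ((2:ℕ):ℝ)) ^ 2 + 1) * MM 2 T := by
  refine upper' (δ := 109 / 50) le_rfl (by norm_num) ?_
  have h1 := hI_up (s := (1 / ((2:ℕ):ℝ)) ^ 2) (a := 2 * (109 / 50)) (by norm_num) (by norm_num) 16 (by decide)
  have h2 := exp_up (u := 109 / 50 / ((2:ℕ):ℝ)) (by norm_num) 8 (by decide)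
  have h3 := exp_lo (u := 109 / 50 / ((2:ℕ):ℝ)) (by norm_num) 9 (by decide)
  simp only [Finset.sum_range_succ, Finset.sum_range_zero, Nat.factorial] at h1 h2 h3
  have h4 : Real.exp (109 / 50 / ((2:ℕ):ℝ)) = (Real.exp (-(109 / 50 / ((2:ℕ):ℝ))))⁻¹ := by
    rw [Real.exp_neg, inv_inv]
  rw [h4]
  set q := Real.exp (-(109 / 50 / ((2:ℕ):ℝ))) with hq
  set H := hI ((1 / ((2:ℕ):ℝ)) ^ 2) (2 * (109 / 50)) with hH
  have hq0 : 0 < q := Real.exp_pos _
  have h5 := mul_nonneg hq0.le (sub_nonneg.mpr h2)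
  have key : H + q ^ 2 < 663 / 200 * (q - q ^ 2) := by
    norm_num at h1 h2 h3 h5
    nlinarith
  have e1 : q⁻¹ * H + q = (H + q ^ 2) / q := by field_simp
  rw [e1, div_lt_iff₀ hq0]
  calc H + q ^ 2 < 663 / 200 * (q - q ^ 2) := key
    _ = _ := by ring

/-- the first moment, lower bound -/
theorem first_lower : ∀ᶠ T : ℝ in atTop,
    (64 / 125) * aF (1 / ((2:ℕ):ℝ)) / Real.Gamma ((1 / ((2:ℕ):ℝ)) ^ 2 + 1) * MM 2 T ≤
      ∫ t in (0:ℝ)..T, zn (1 / 2) t ^ (2 / ((2:ℕ):ℝ)) := by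
  refine lower' (δ := 371 / 100) le_rfl (by norm_num) ?_
  have h1 := hI_lo (s := (1 / ((2:ℕ):ℝ)) ^ 2) (a := 2 * (371 / 100)) (by norm_num) (by norm_num) 27 (by decide)
  have h2 := exp_up (u := 2 * (371 / 100) / ((2:ℕ):ℝ)) (by norm_num) 16 (by decide)
  simp only [Finset.sum_range_succ, Finset.sum_range_zero, Nat.factorial] at h1 h2
  norm_num at h1 h2 ⊢
  linarith

end Pool.Agent.W184
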