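import Pool.Agent.W184.HalfI

set_option autoImplicit false

/-! Asymptotic forms of the inequalities. -/

namespace Pool.Agent.W184

open MeasureTheory Filter Topology Pool.Agent.H306R2

lemma delta_tendsto (δ : ℝ) : Tendsto (fun T : ℝ => δ / Real.log T) atTop (𝓝 0) :=
  tendsto_const_nhds.div_atTop Real.tendsto_log_atTop

lemma F_tendsto (p δ : ℝ) : Tendsto (fun T : ℝ => Real.exp (p * (δ / Real.log T) ^ 2) *
    (2 * T) ^ (p * (δ / Real.log T) / 2)) atTop (𝓝 (Real.exp (p * δ / 2))) := by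
  have h1 : Tendsto (fun T : ℝ => Real.exp (p * (δ / Real.log T) ^ 2)) atTop (𝓝 1) := by
    have := (Real.continuous_exp.tendsto (p * 0 ^ 2)).comp (((delta_tendsto δ).pow 2).const_mul p)
    simpa [Function.comp_def] using this
  have h2 : Tendsto (fun T : ℝ => (2 * T) ^ (p * (δ / Real.log T) / 2)) atTop
      (𝓝 (Real.exp (p * δ / 2))) := by
    have h3 : Tendsto (fun T : ℝ => p * δ / 2 * (Real.log 2 / Real.log T + 1)) atTop
        (𝓝 (p * δ / 2 * (0 + 1))) := by
      refine Tendsto.const_mul _ (Tendsto.add_const _ ?_)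
      exact tendsto_const_nhds.div_atTop Real.tendsto_log_atTop
    have h4 := (Real.continuous_exp.tendsto _).comp h3
    rw [show p * δ / 2 * (0 + 1) = p * δ / 2 by ring] at h4
    refine h4.congr' ?_
    filter_upwards [eventually_gt_atTop 1] with T hT
    have hL := Real.log_pos hT
    simp only [Function.comp]
    rw [Real.rpow_def_of_pos (by linarith), Real.log_mul (by norm_num) (by linarith)]
    congr 1
    field_simp
  have := h1.mul h2
  simpa using this

theorem refl_ev {v : ℕ} (hv : 2 ≤ v) {δ : ℝ} (hδ : 0 < δ) {η : ℝ} (hη : 0 < η) :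
    ∀ᶠ T : ℝ in atTop, ∫ t in (0:ℝ)..T, zn (1 / 2) t ^ (2 / (v:ℝ)) ≤
      (Real.exp (2 / (v:ℝ) * δ / 2) + η) *
        ((∫ t in (0:ℝ)..T, zn (1 / 2 + δ / Real.log T) t ^ (2 / (v:ℝ))) + η * MM v T) := by
  have hv0 : (0:ℝ) < v := by exact_mod_cast (by omega : 0 < v)
  have hv2 : (2:ℝ) ≤ v := by exact_mod_cast hv
  set p : ℝ := 2 / (v:ℝ) with hp
  have hp0 : 0 < p := by positivity
  have hp1 : p ≤ 1 := by rw [hp, div_le_one hv0]; exact hv2
  set A : ℝ := Real.exp p * (Nat.factorial 16) / p ^ 16 with hA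
  have hA0 : 0 ≤ A := by positivity
  have hF := (F_tendsto p δ).eventually_lt_const (show Real.exp (p * δ / 2) < Real.exp (p * δ / 2) + η by linarith)
  have hΔ1 : ∀ᶠ T : ℝ in atTop, δ / Real.log T ≤ 1 / 8 :=
    ((delta_tendsto δ).eventually (gt_mem_nhds (show (0:ℝ) < 1/8 by norm_num))).mono fun _ h => h.le
  have hCT := CT_le (v := v) (by omega) 6073 hη
  have hsm := small_pow (3 - 29 / 4) 1 (96 * (2 * Real.pi * (Real.exp p * A / δ))) (by norm_num)
  filter_upwards [hF, hΔ1, hCT, hsm, eventually_gt_atTop (Real.exp 1)] with T h1 h2 h3 h4 h5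
  have hT1 : 1 < T := lt_trans (by
    have := Real.add_one_lt_exp (show (1:ℝ) ≠ 0 by norm_num)
    linarith) h5
  have hT0 : 0 < T := by linarith
  have hL : 0 < Real.log T := Real.log_pos hT1
  have hΔ0 : 0 < δ / Real.log T := by positivity
  have hmain := refl_fix (T := T) hp0 hp1 hΔ0 h2 hT1.le hA0 (gauss_poly hp0)
  set Δ := δ / Real.log T with hΔ
  set Fc : ℝ := Real.exp (p * Δ ^ 2) * (2 * T) ^ (p * Δ / 2) with hFc
  have hF1 : 1 ≤ Fc := by
    have a1 : 1 ≤ Real.exp (p * Δ ^ 2) := Real.one_le_exp (by positivity)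
    have a2 : 1 ≤ (2 * T) ^ (p * Δ / 2) := Real.one_le_rpow (by linarith) (by positivity)
    nlinarith
  have htail : T * (48 * T * (1 + T)) * (2 * Real.pi * (Real.exp (p * Δ ^ 2) * A / Δ) *
        (T ^ ((1:ℝ)/4)) ^ (-(29:ℝ))) ≤ T := by
    have b1 : Real.exp (p * Δ ^ 2) ≤ Real.exp p := by
      refine Real.exp_le_exp.mpr ?_
      have : Δ ^ 2 ≤ 1 := by nlinarith
      nlinarith
    have b2 : (T ^ ((1:ℝ)/4)) ^ (-(29:ℝ)) = T ^ (-(29/4:ℝ)) := by
      rw [← Real.rpow_mul hT0.le]; norm_num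
    have b3 : T * (48 * T * (1 + T)) ≤ 96 * T ^ (3:ℝ) := by
      have : T ^ (3:ℝ) = T ^ 3 := by exact_mod_cast Real.rpow_natCast T 3
      rw [this]
      have c1 : 1 + T ≤ 2 * T := by linarith
      have c2 : 0 ≤ T * (48 * T) := by positivity
      nlinarith
    have b4 : T ^ (3:ℝ) * T ^ (-(29/4:ℝ)) = T ^ (3 - 29 / 4 : ℝ) := by
      rw [← Real.rpow_add hT0]; congr 1
    rw [b2]
    calc T * (48 * T * (1 + T)) * (2 * Real.pi * (Real.exp (p * Δ ^ 2) * A / Δ) * T ^ (-(29/4:ℝ))) ≤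
        (96 * T ^ (3:ℝ)) * (2 * Real.pi * (Real.exp p * A / Δ) * T ^ (-(29/4:ℝ))) := by
          have hpi := Real.pi_pos
          gcongr
      _ = 96 * (2 * Real.pi * (Real.exp p * A / δ)) * (T ^ (3 - 29 / 4 : ℝ) * Real.log T ^ (1:ℝ)) := by
          rw [← b4, hΔ, Real.rpow_one]
          field_simp
      _ ≤ 1 := h4
      _ ≤ T := hT1.le
  have hZ : 0 ≤ ∫ t in (0:ℝ)..T, zn (1 / 2 + Δ) t ^ p :=
    intervalIntegral.integral_nonneg hT0.le fun x _ => Real.rpow_nonneg (zn_nonneg _ _) _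
  have hM := MM_pos (v := v) hT1
  calc ∫ t in (0:ℝ)..T, zn (1 / 2) t ^ p ≤
      Fc * ((∫ t in (0:ℝ)..T, zn (1 / 2 + Δ) t ^ p) + 6072 * T) + T :=
        hmain.trans (add_le_add_right htail _)
    _ ≤ Fc * ((∫ t in (0:ℝ)..T, zn (1 / 2 + Δ) t ^ p) + 6073 * T) := by nlinarith
    _ ≤ Fc * ((∫ t in (0:ℝ)..T, zn (1 / 2 + Δ) t ^ p) + η * MM v T) := by
        refine mul_le_mul_of_nonneg_left (by linarith) (by linarith)
    _ ≤ _ := mul_le_mul_of_nonneg_right h1.le (by positivity)

lemma logN_tendsto : Tendsto (fun T : ℝ => Real.log (NT T) / Real.log T) atTop (𝓝 1) := by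
  have h1 : Tendsto (fun T : ℝ => 1 - Real.log 2 / Real.log T - Real.log (1 + Real.log T) / Real.log T)
      atTop (𝓝 (1 - 0 - 0)) :=
    (tendsto_const_nhds.sub (tendsto_const_nhds.div_atTop Real.tendsto_log_atTop)).sub log_quot_tendsto
  rw [sub_zero, sub_zero] at h1
  have hbig : ∀ᶠ T : ℝ in atTop, 2 * (1 + Real.log T) ≤ T := by
    have h2 := small_pow (-1) 1 4 (by norm_num)
    filter_upwards [h2, eventually_ge_atTop 4] with T hT hT4
    have hT0 : 0 < T := by linarith
    rw [Real.rpow_neg_one, Real.rpow_one, inv_mul_eq_div, mul_div_assoc', div_le_one hT0] at hT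
    linarith
  refine tendsto_of_tendsto_of_tendsto_of_le_of_le' h1 tendsto_const_nhds ?_ ?_
  · filter_upwards [hbig, eventually_gt_atTop 1] with T hT hT1
    have hL := Real.log_pos hT1
    have hT0 : 0 < T := by linarith
    have h2 : T / (2 * (1 + Real.log T)) ≤ NT T := by
      have h3 := Nat.lt_floor_add_one (T / (1 + Real.log T))
      have h4 : (2:ℝ) ≤ T / (1 + Real.log T) := by rw [le_div_iff₀ (by linarith)]; linarith
      have h5 : T / (2 * (1 + Real.log T)) = T / (1 + Real.log T) / 2 := by field_simp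
      rw [h5]
      unfold NT
      linarith
    have h6 : Real.log T - Real.log 2 - Real.log (1 + Real.log T) ≤ Real.log (NT T) := by
      have h7 := Real.log_le_log (by positivity) h2
      rw [Real.log_div hT0.ne' (by positivity), Real.log_mul (by norm_num) (by linarith)] at h7
      linarith
    rw [le_div_iff₀ hL]
    have : (1 - Real.log 2 / Real.log T - Real.log (1 + Real.log T) / Real.log T) * Real.log T =
        Real.log T - Real.log 2 - Real.log (1 + Real.log T) := by field_simp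
    rw [this]
    exact h6
  · filter_upwards [hbig, eventually_gt_atTop 1] with T hT hT1
    have hL := Real.log_pos hT1
    have hT0 : 0 < T := by linarith
    rw [div_le_one hL]
    have h2 : (NT T : ℝ) ≤ T := by
      have h3 : (NT T : ℝ) ≤ T / (1 + Real.log T) := Nat.floor_le (by positivity)
      exact h3.trans (div_le_self hT0.le (by linarith))
    have h4 : 0 < (NT T : ℝ) := by
      have : 1 ≤ NT T := by
        apply Nat.le_floor
        rw [le_div_iff₀ (by linarith)]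
        push_cast
        linarith
      exact_mod_cast this
    exact Real.log_le_log h4 h2

lemma NT_ev : ∀ᶠ T : ℝ in atTop, 1 ≤ NT T ∧ (NT T : ℝ) * (1 + Real.log (NT T)) ≤ T ∧ (NT T : ℝ) ≤ T := by
  have h2 := small_pow (-1) 1 4 (by norm_num)
  filter_upwards [h2, eventually_ge_atTop 4] with T hT hT4
  have hT0 : 0 < T := by linarith
  have hT1 : 1 < T := by linarith
  have hL := Real.log_pos hT1
  rw [Real.rpow_neg_one, Real.rpow_one, inv_mul_eq_div, mul_div_assoc', div_le_one hT0] at hT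
  have h1 : 1 ≤ NT T := by
    apply Nat.le_floor
    rw [le_div_iff₀ (by linarith)]
    push_cast
    linarith
  have h3 : (NT T : ℝ) ≤ T / (1 + Real.log T) := Nat.floor_le (by positivity)
  have h4 : (NT T : ℝ) ≤ T := h3.trans (div_le_self hT0.le (by linarith))
  refine ⟨h1, ?_, h4⟩
  have h0 : (0:ℝ) < NT T := by exact_mod_cast h1
  have h5 : Real.log (NT T) ≤ Real.log T := Real.log_le_log h0 h4
  calc (NT T : ℝ) * (1 + Real.log (NT T)) ≤ (T / (1 + Real.log T)) * (1 + Real.log T) :=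
        mul_le_mul h3 (by linarith) (by
          have := Real.log_natCast_nonneg (NT T)
          linarith) (by positivity)
    _ = T := by field_simp

lemma fac_tendsto (p δ : ℝ) (M : ℕ) (hp : 0 < p) (f : ℝ → ℝ) (c : ℝ)
    (hf0 : ∀ᶠ T in atTop, 0 < f T)
    (hf : Tendsto (fun T => Real.log (f T) / Real.log T) atTop (𝓝 c)) :
    Tendsto (fun T : ℝ => ((1 - 8 * (δ / Real.log T)) * (f T) ^ (δ / Real.log T) /
      (1 + δ / Real.log T) ^ (2 * M)) ^ p) atTop (𝓝 (Real.exp (p * (δ * c)))) := by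
  have h1 : Tendsto (fun T : ℝ => 1 - 8 * (δ / Real.log T)) atTop (𝓝 (1 - 8 * 0)) :=
    ((delta_tendsto δ).const_mul 8).const_sub 1
  have h2 : Tendsto (fun T : ℝ => (1 + δ / Real.log T) ^ (2 * M)) atTop (𝓝 ((1 + 0) ^ (2 * M))) :=
    ((delta_tendsto δ).const_add 1).pow _
  have h3 : Tendsto (fun T : ℝ => (f T) ^ (δ / Real.log T)) atTop (𝓝 (Real.exp (δ * c))) := by
    have h4 := (Real.continuous_exp.tendsto _).comp (hf.const_mul δ)
    refine h4.congr' ?_
    filter_upwards [hf0] with T hT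
    simp only [Function.comp]
    rw [Real.rpow_def_of_pos hT]
    congr 1
    ring
  have h5 := ((h1.mul h3).div h2 (by norm_num)).rpow_const (p := p) (Or.inr hp.le)
  refine h5.trans (le_of_eq ?_)
  congr 1
  rw [mul_zero, sub_zero, one_mul, add_zero, one_pow, div_one, ← Real.exp_mul]
  congr 1; ring

/-- turning `fac * D ≤ D0 + E` around -/
lemma turn {F D0 D1 : ℝ → ℝ} {c η : ℝ} {v : ℕ} (hc : 0 < c) (hη : 0 < η) (hF : Tendsto F atTop (𝓝 c))
    (h : ∀ᶠ T in atTop, F T * D1 T ≤ D0 T + η * MM v T) (hD0 : ∀ᶠ T in atTop, 0 ≤ D0 T) :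
    ∀ᶠ T in atTop, D1 T ≤ (c⁻¹ + η) * (D0 T + η * MM v T) := by
  have h1 := (hF.inv₀ hc.ne').eventually_lt_const (show c⁻¹ < c⁻¹ + η by linarith)
  filter_upwards [h, h1, hF.eventually_const_lt hc, hD0, eventually_gt_atTop 1] with T h2 h3 h4 h5 h6
  have h7 : 0 ≤ D0 T + η * MM v T := by
    have := MM_pos (v := v) h6
    positivity
  calc D1 T = (F T)⁻¹ * (F T * D1 T) := by field_simp
    _ ≤ (F T)⁻¹ * (D0 T + η * MM v T) := mul_le_mul_of_nonneg_left h2 (by positivity)
    _ ≤ _ := mul_le_mul_of_nonneg_right h3.le h7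

end Pool.Agent.W184
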