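import Pool.Agent.W184.Strip

set_option autoImplicit false

/-! Averages of convolution inequalities over `[0, T]`. -/

namespace Pool.Agent.W184

open MeasureTheory Set

theorem avg_le {K G H : ℝ → ℝ} {T U B : ℝ} (hT : 0 ≤ T) (hU : 0 ≤ U) (hB : 0 ≤ B)
    (hKc : Continuous K) (hK0 : ∀ w, 0 ≤ K w) (hKi : Integrable fun w => K w * (1 + |w|))
    (hKi0 : Integrable K)
    (hGc : Continuous G) (hG0 : ∀ x, 0 ≤ G x) (hGB : ∀ x, G x ≤ B * (1 + |x|))
    (hHc : Continuous H) (hH : ∀ t ∈ Icc 0 T, H t ≤ ∫ w, K w * G (t + w)) :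
    ∫ t in (0:ℝ)..T, H t ≤ (∫ w, K w) * (∫ t in (-U)..(T + U), G t) +
      T * (B * (1 + T)) * ∫ w in {w : ℝ | U < |w|}, K w * (1 + |w|) := by
  have hcont : Continuous fun q : ℝ × ℝ => K q.2 * G (q.1 + q.2) := by fun_prop
  have hbd : ∀ t ∈ Ioc 0 T, ∀ w, K w * G (t + w) ≤ B * (1 + T) * (K w * (1 + |w|)) := by
    intro t ht w
    have h1 : G (t + w) ≤ B * ((1 + T) * (1 + |w|)) := by
      refine (hGB _).trans ?_
      refine mul_le_mul_of_nonneg_left ?_ hB
      have h2 := abs_add_le t w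
      rw [abs_of_pos ht.1] at h2
      nlinarith [ht.2, abs_nonneg w, mul_nonneg hT (abs_nonneg w)]
    calc K w * G (t + w) ≤ K w * (B * ((1 + T) * (1 + |w|))) :=
          mul_le_mul_of_nonneg_left h1 (hK0 w)
      _ = _ := by ring
  have hint : Integrable (fun q : ℝ × ℝ => K q.2 * G (q.1 + q.2))
      ((volume.restrict (Ioc 0 T)).prod volume) := by
    have h1 : Integrable (fun q : ℝ × ℝ => (1:ℝ) * (B * (1 + T) * (K q.2 * (1 + |q.2|))))
        ((volume.restrict (Ioc 0 T)).prod volume) :=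
      Integrable.mul_prod (integrable_const (1:ℝ)) (hKi.const_mul _)
    refine h1.mono' hcont.aestronglyMeasurable ?_
    have h2 : ((volume.restrict (Ioc 0 T)).prod (volume : Measure ℝ)) =
        (volume.prod volume).restrict (Ioc (0:ℝ) T ×ˢ univ) := by
      rw [← Measure.prod_restrict, Measure.restrict_univ]
    rw [h2]
    refine (ae_restrict_mem (measurableSet_Ioc.prod MeasurableSet.univ)).mono fun q hq => ?_
    rw [Real.norm_of_nonneg (mul_nonneg (hK0 _) (hG0 _)), one_mul]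
    exact hbd q.1 hq.1 q.2
  have s1 : ∫ t in (0:ℝ)..T, H t ≤ ∫ t in Ioc 0 T, ∫ w, K w * G (t + w) := by
    rw [intervalIntegral.integral_of_le hT]
    refine setIntegral_mono_on ?_ ?_ measurableSet_Ioc ?_
    · exact (hHc.integrableOn_Icc (a := 0) (b := T)).mono_set Ioc_subset_Icc_self
    · exact hint.integral_prod_left
    · intro t ht
      exact hH t (Ioc_subset_Icc_self ht)
  have s2 : ∫ t in Ioc 0 T, ∫ w, K w * G (t + w) = ∫ w, ∫ t in Ioc 0 T, K w * G (t + w) :=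
    integral_integral_swap hint
  rw [s2] at s1
  refine s1.trans ?_
  have hms : MeasurableSet {w : ℝ | U < |w|} := measurableSet_lt measurable_const measurable_abs
  set E : ℝ := ∫ t in (-U)..(T + U), G t with hE
  have hE0 : 0 ≤ E := intervalIntegral.integral_nonneg (by linarith) fun x _ => hG0 x
  have hgi : Integrable fun w => K w * E + ({w : ℝ | U < |w|}).indicator
      (fun w => T * (B * (1 + T)) * (K w * (1 + |w|))) w :=
    (hKi0.mul_const E).add ((hKi.const_mul _).indicator hms)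
  have s3 : ∫ w, ∫ t in Ioc 0 T, K w * G (t + w) ≤ ∫ w, (K w * E + ({w : ℝ | U < |w|}).indicator
      (fun w => T * (B * (1 + T)) * (K w * (1 + |w|))) w) := by
    refine integral_mono_of_nonneg (Filter.Eventually.of_forall fun w => ?_) hgi
      (Filter.Eventually.of_forall fun w => ?_)
    · exact integral_nonneg fun t => mul_nonneg (hK0 w) (hG0 _)
    · simp only
      have hcw : Continuous fun t => K w * G (t + w) := by fun_prop
      by_cases hw : U < |w|
      · rw [indicator_of_mem (show w ∈ {w : ℝ | U < |w|} from hw)]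
        have h4 : ∫ t in Ioc 0 T, K w * G (t + w) ≤ ∫ t in Ioc 0 T, B * (1 + T) * (K w * (1 + |w|)) := by
          refine setIntegral_mono_on ?_ ?_ measurableSet_Ioc fun t ht => hbd t ht w
          · exact (hcw.integrableOn_Icc (a := 0) (b := T)).mono_set Ioc_subset_Icc_self
          · exact integrableOn_const (by simp)
        rw [setIntegral_const, Measure.real, Real.volume_Ioc, sub_zero,
          ENNReal.toReal_ofReal hT, smul_eq_mul] at h4
        have h5 := mul_nonneg (hK0 w) hE0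
        calc ∫ t in Ioc 0 T, K w * G (t + w) ≤ T * (B * (1 + T) * (K w * (1 + |w|))) := h4
          _ = T * (B * (1 + T)) * (K w * (1 + |w|)) := by ring
          _ ≤ _ := by linarith
      · rw [indicator_of_notMem (show w ∉ {w : ℝ | U < |w|} from hw), add_zero, integral_const_mul]
        refine mul_le_mul_of_nonneg_left ?_ (hK0 w)
        push Not at hw
        have hw' := abs_le.mp hw
        rw [← intervalIntegral.integral_of_le hT, intervalIntegral.integral_comp_add_right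
          (fun x => G x), hE]
        refine intervalIntegral.integral_mono_interval (by linarith) (by linarith) (by linarith)
          (Filter.Eventually.of_forall fun x => hG0 x) (hGc.intervalIntegrable _ _)
  refine s3.trans (le_of_eq ?_)
  rw [integral_add (hKi0.mul_const E) ((hKi.const_mul _).indicator hms), integral_mul_const,
    integral_indicator hms, integral_const_mul]

lemma one_add_abs_le (w : ℝ) : 1 + |w| ≤ 2 * (1 + w ^ 2) := by
  nlinarith [sq_abs w, sq_nonneg (|w| - 1), abs_nonneg w]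

lemma tail_int {K : ℝ → ℝ} {A U : ℝ} (hA : 0 ≤ A) (hU : 1 ≤ U) (hKc : Continuous K) (hK0 : ∀ w, 0 ≤ K w)
    (hK : ∀ w, K w ≤ A * (1 + w ^ 2) ^ (-(16:ℝ))) :
    Integrable K ∧ (Integrable fun w => K w * (1 + |w|)) ∧
    ∫ w in {w : ℝ | U < |w|}, K w * (1 + |w|) ≤ 2 * Real.pi * A * U ^ (-(29:ℝ)) := by
  have hi := integrable_inv_one_add_sq
  have hp : ∀ w : ℝ, (1 + w ^ 2) ^ (-(16:ℝ)) = ((1 + w ^ 2)⁻¹) ^ 16 := by
    intro w
    have h0 : 0 < 1 + w ^ 2 := by positivity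
    rw [Real.rpow_neg h0.le, inv_pow]
    norm_num
  have h1 : ∀ w : ℝ, 0 < (1 + w ^ 2)⁻¹ ∧ (1 + w ^ 2)⁻¹ ≤ 1 := by
    intro w
    have h0 : 0 < 1 + w ^ 2 := by positivity
    refine ⟨by positivity, ?_⟩
    rw [inv_le_one_iff₀]; right; nlinarith [sq_nonneg w]
  have i1 : Integrable K := by
    refine (hi.const_mul A).mono' hKc.aestronglyMeasurable (Filter.Eventually.of_forall fun w => ?_)
    rw [Real.norm_of_nonneg (hK0 w)]
    refine (hK w).trans (mul_le_mul_of_nonneg_left ?_ hA)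
    rw [hp]
    calc ((1 + w ^ 2)⁻¹) ^ 16 ≤ ((1 + w ^ 2)⁻¹) ^ 1 :=
          pow_le_pow_of_le_one (h1 w).1.le (h1 w).2 (by norm_num)
      _ = _ := pow_one _
  have i2 : Integrable fun w => K w * (1 + |w|) := by
    refine (hi.const_mul (2 * A)).mono' (by fun_prop) (Filter.Eventually.of_forall fun w => ?_)
    have h2 : 0 ≤ 1 + |w| := by positivity
    rw [Real.norm_of_nonneg (mul_nonneg (hK0 w) h2)]
    have h0 : 0 < 1 + w ^ 2 := by positivity
    calc K w * (1 + |w|) ≤ (A * (1 + w ^ 2) ^ (-(16:ℝ))) * (2 * (1 + w ^ 2)) :=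
          mul_le_mul (hK w) (one_add_abs_le w) h2 (by positivity)
      _ = 2 * A * (((1 + w ^ 2)⁻¹) ^ 15 * ((1 + w ^ 2)⁻¹ * (1 + w ^ 2))) := by rw [hp]; ring
      _ = 2 * A * ((1 + w ^ 2)⁻¹) ^ 15 := by rw [inv_mul_cancel₀ h0.ne', mul_one]
      _ ≤ 2 * A * (1 + w ^ 2)⁻¹ := by
          refine mul_le_mul_of_nonneg_left ?_ (by positivity)
          calc ((1 + w ^ 2)⁻¹) ^ 15 ≤ ((1 + w ^ 2)⁻¹) ^ 1 :=
                pow_le_pow_of_le_one (h1 w).1.le (h1 w).2 (by norm_num)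
            _ = _ := pow_one _
  refine ⟨i1, i2, ?_⟩
  have hms : MeasurableSet {w : ℝ | U < |w|} := measurableSet_lt measurable_const measurable_abs
  have hU0 : 0 < U := by linarith
  have b1 : ∫ w in {w : ℝ | U < |w|}, K w * (1 + |w|) ≤
      ∫ w in {w : ℝ | U < |w|}, 2 * A * U ^ (-(29:ℝ)) * (1 + w ^ 2)⁻¹ := by
    refine setIntegral_mono_on i2.integrableOn (hi.const_mul _).integrableOn hms fun w hw => ?_
    have hw' : U < |w| := hw
    have hw0 : 0 < |w| := by linarith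
    have h0 : 0 < 1 + w ^ 2 := by positivity
    have h2 : 0 ≤ 1 + |w| := by positivity
    have h3 : 1 + |w| ≤ 2 * |w| := by linarith
    have h4 : (1 + w ^ 2)⁻¹ ≤ (|w| ^ 2)⁻¹ := by
      rw [sq_abs]
      have : 0 < w ^ 2 := by rw [← sq_abs]; positivity
      exact inv_anti₀ this (by linarith)
    have h5 : (|w| ^ 2)⁻¹ ^ 15 * |w| = (|w| ^ 29)⁻¹ := by
      field_simp
    have h6 : (|w| ^ 29)⁻¹ ≤ U ^ (-(29:ℝ)) := by
      have : U ^ (-(29:ℝ)) = (U ^ 29)⁻¹ := by
        rw [Real.rpow_neg hU0.le]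
        congr 1
        exact_mod_cast Real.rpow_natCast U 29
      rw [this]
      exact inv_anti₀ (by positivity) (pow_le_pow_left₀ hU0.le hw'.le 29)
    calc K w * (1 + |w|) ≤ (A * (1 + w ^ 2) ^ (-(16:ℝ))) * (2 * |w|) :=
          mul_le_mul (hK w) h3 h2 (by positivity)
      _ = 2 * A * (((1 + w ^ 2)⁻¹) ^ 15 * |w|) * (1 + w ^ 2)⁻¹ := by rw [hp]; ring
      _ ≤ 2 * A * ((|w| ^ 2)⁻¹ ^ 15 * |w|) * (1 + w ^ 2)⁻¹ := by gcongr
      _ = 2 * A * (|w| ^ 29)⁻¹ * (1 + w ^ 2)⁻¹ := by rw [h5]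
      _ ≤ 2 * A * U ^ (-(29:ℝ)) * (1 + w ^ 2)⁻¹ := by gcongr
  refine b1.trans ?_
  rw [integral_const_mul]
  have b2 : ∫ w in {w : ℝ | U < |w|}, (1 + w ^ 2)⁻¹ ≤ Real.pi := by
    rw [← integral_univ_inv_one_add_sq]
    refine setIntegral_le_integral hi (Filter.Eventually.of_forall fun w => ?_)
    exact (h1 w).1.le
  have b3 : 0 ≤ 2 * A * U ^ (-(29:ℝ)) := by positivity
  calc 2 * A * U ^ (-(29:ℝ)) * ∫ w in {w : ℝ | U < |w|}, (1 + w ^ 2)⁻¹ ≤
      2 * A * U ^ (-(29:ℝ)) * Real.pi := mul_le_mul_of_nonneg_left b2 b3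
    _ = _ := by ring

lemma KP_cont {Δ : ℝ} (h : 0 < Δ) : Continuous (KP Δ) := by
  unfold KP
  refine Continuous.div (by fun_prop) (by fun_prop) fun w => ?_
  positivity

lemma KP_nonneg {Δ : ℝ} (h : 0 < Δ) (w : ℝ) : 0 ≤ KP Δ w := by
  unfold KP; have := Real.pi_pos; positivity

lemma KP_le {Δ : ℝ} (h : 0 < Δ) (w : ℝ) : KP Δ w ≤ 1 / Δ := by
  unfold KP
  have hpi := Real.pi_gt_three
  rw [div_div, div_le_div_iff₀ (by positivity) h]
  nlinarith [sq_nonneg w, mul_pos h h, mul_nonneg (sub_nonneg.mpr hpi.le) (mul_pos h h).le,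
    mul_nonneg Real.pi_pos.le (sq_nonneg w)]

lemma KP_int {Δ : ℝ} (h : 0 < Δ) : Integrable (KP Δ) ∧ ∫ w, KP Δ w = 1 := by
  have e1 : ∀ y : ℝ, KP Δ (Δ * y) = Real.pi⁻¹ * Δ⁻¹ * (1 + y ^ 2)⁻¹ := by
    intro y
    unfold KP
    rw [show (Δ * y) ^ 2 + Δ ^ 2 = Δ ^ 2 * (1 + y ^ 2) by ring]
    have := Real.pi_pos
    field_simp
  have i1 : Integrable fun y : ℝ => KP Δ (Δ * y) := by
    simp_rw [e1]
    exact integrable_inv_one_add_sq.const_mul _
  have i2 : Integrable (KP Δ) := (integrable_comp_mul_left_iff (KP Δ) h.ne').mp i1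
  refine ⟨i2, ?_⟩
  have h1 := Measure.integral_comp_mul_left (KP Δ) Δ
  simp_rw [e1] at h1
  rw [integral_const_mul, integral_univ_inv_one_add_sq, abs_of_pos (inv_pos.mpr h), smul_eq_mul] at h1
  have hpi := Real.pi_pos
  have h2 : Real.pi⁻¹ * Δ⁻¹ * Real.pi = Δ⁻¹ := by field_simp
  rw [h2] at h1
  have h3 : Δ⁻¹ ≠ 0 := inv_ne_zero h.ne'
  have h4 : Δ⁻¹ * (∫ w, KP Δ w) = Δ⁻¹ * 1 := by rw [mul_one]; exact h1.symm
  exact mul_left_cancel₀ h3 h4

lemma KS_cont {Δ : ℝ} (h : 0 < Δ) : Continuous (KS Δ) := by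
  unfold KS
  refine Continuous.div (by fun_prop) (by fun_prop) fun w => ?_
  have := Real.cosh_pos (Real.pi * w / (2 * Δ))
  positivity

lemma KS_nonneg {Δ : ℝ} (h : 0 < Δ) (w : ℝ) : 0 ≤ KS Δ w := by
  unfold KS
  have := Real.cosh_pos (Real.pi * w / (2 * Δ))
  positivity

lemma KS_le {Δ : ℝ} (h : 0 < Δ) (w : ℝ) : KS Δ w ≤ 1 / Δ := by
  unfold KS
  have := Real.one_le_cosh (Real.pi * w / (2 * Δ))
  refine one_div_le_one_div_of_le h ?_
  nlinarith

lemma KS_integral {Δ : ℝ} (h : 0 < Δ) : ∫ w, KS Δ w = 1 / 2 := by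
  have h1 := cov_strip (fun _ => 1) h
  have h2 := cov_exp (fun _ => 1)
  simp only [mul_one] at h1 h2
  rw [← h1, ← h2]
  have h3 : ∫ y in Ioi (0:ℝ), Real.pi⁻¹ / (1 + y ^ 2) = Real.pi⁻¹ * ∫ y in Ioi (0:ℝ), (1 + y ^ 2)⁻¹ := by
    rw [← integral_const_mul]
    refine setIntegral_congr_fun measurableSet_Ioi fun y _ => ?_
    simp only [div_eq_mul_inv]
  rw [h3, integral_Ioi_inv_one_add_sq, Real.arctan_zero, sub_zero]
  have := Real.pi_pos
  field_simp

lemma KS_integrable {Δ : ℝ} (h : 0 < Δ) : Integrable (KS Δ) := by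
  by_contra hc
  have h1 := integral_undef hc
  rw [KS_integral h] at h1
  norm_num at h1

end Pool.Agent.W184
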