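import Pool.Agent.W184.Kar
import Pool.Agent.W184.Half
import Pool.Agent.W184.Avg

set_option autoImplicit false

/-! Auxiliary bounds for the closure argument. -/

namespace Pool.Agent.W184

open MeasureTheory Filter Topology Pool.Agent.H306R2

lemma gauss_poly {p : ℝ} (hp : 0 < p) (w : ℝ) :
    Real.exp (-(p * w ^ 2)) ≤ Real.exp p * (Nat.factorial 16) / p ^ 16 * (1 + w ^ 2) ^ (-(16:ℝ)) := by
  have h0 : 0 < 1 + w ^ 2 := by positivity
  have h1 := Real.pow_div_factorial_le_exp (p * (1 + w ^ 2)) (by positivity) 16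
  have h2 : (1 + w ^ 2) ^ (-(16:ℝ)) = ((1 + w ^ 2) ^ 16)⁻¹ := by
    rw [Real.rpow_neg h0.le]
    norm_num
  have h3 : Real.exp (-(p * w ^ 2)) = Real.exp p * (Real.exp (p * (1 + w ^ 2)))⁻¹ := by
    rw [← Real.exp_neg, ← Real.exp_add]; congr 1; ring
  rw [h3, h2]
  have h4 : (Real.exp (p * (1 + w ^ 2)))⁻¹ ≤ (((p * (1 + w ^ 2)) ^ 16 / (Nat.factorial 16)))⁻¹ :=
    inv_anti₀ (by positivity) h1
  calc Real.exp p * (Real.exp (p * (1 + w ^ 2)))⁻¹ ≤
      Real.exp p * (((p * (1 + w ^ 2)) ^ 16 / (Nat.factorial 16)))⁻¹ := by gcongr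
    _ = _ := by
      rw [mul_pow, inv_div]
      field_simp

lemma conv_int {K G : ℝ → ℝ} {B : ℝ} (hB : 0 ≤ B) (hKc : Continuous K) (hK0 : ∀ w, 0 ≤ K w)
    (hKi : Integrable fun w => K w * (1 + |w|)) (hGc : Continuous G) (hG0 : ∀ x, 0 ≤ G x)
    (hGB : ∀ x, G x ≤ B * (1 + |x|)) (t : ℝ) : Integrable fun w => K w * G (t + w) := by
  refine (hKi.const_mul (B * (1 + |t|))).mono' (by fun_prop) (Eventually.of_forall fun w => ?_)
  rw [Real.norm_of_nonneg (mul_nonneg (hK0 w) (hG0 _))]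
  have h1 : G (t + w) ≤ B * ((1 + |t|) * (1 + |w|)) := by
    refine (hGB _).trans (mul_le_mul_of_nonneg_left ?_ hB)
    have h2 := abs_add_le t w
    nlinarith [abs_nonneg t, abs_nonneg w, mul_nonneg (abs_nonneg t) (abs_nonneg w)]
  calc K w * G (t + w) ≤ K w * (B * ((1 + |t|) * (1 + |w|))) := mul_le_mul_of_nonneg_left h1 (hK0 w)
    _ = _ := by ring

lemma rpow_le_self_of_one_le' {x p : ℝ} (hx : 1 ≤ x) (hp : p ≤ 1) : x ^ p ≤ x := by
  calc x ^ p ≤ x ^ (1:ℝ) := Real.rpow_le_rpow_of_exponent_le hx hp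
    _ = x := Real.rpow_one x

/-- splitting `∫_{-U}^{T+U}` -/
lemma split_edges {G : ℝ → ℝ} (hG : Continuous G) (T U : ℝ) :
    ∫ t in (-U)..(T + U), G t = (∫ t in (0:ℝ)..T, G t) + ((∫ t in (-U)..0, G t) + ∫ t in T..(T + U), G t) := by
  have h1 := intervalIntegral.integral_add_adjacent_intervals (hG.intervalIntegrable (-U) 0)
    (hG.intervalIntegrable 0 T) (μ := volume)
  have h2 := intervalIntegral.integral_add_adjacent_intervals (hG.intervalIntegrable (-U) T)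
    (hG.intervalIntegrable T (T + U)) (μ := volume)
  linarith

/-- the target size -/
noncomputable def MM (v : ℕ) (T : ℝ) : ℝ := T * Real.log T ^ ((1 / (v:ℝ)) ^ 2)

lemma CT_le {v : ℕ} (hv : 1 ≤ v) (C : ℝ) {η : ℝ} (hη : 0 < η) : ∀ᶠ T : ℝ in atTop, C * T ≤ η * MM v T := by
  have hv0 : (0:ℝ) < v := by exact_mod_cast hv
  have h1 : Tendsto (fun T : ℝ => Real.log T ^ ((1 / (v:ℝ)) ^ 2)) atTop atTop :=
    (tendsto_rpow_atTop (by positivity)).comp Real.tendsto_log_atTop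
  filter_upwards [h1.eventually_ge_atTop (C / η), eventually_gt_atTop 0] with T hT hT0
  unfold MM
  rw [div_le_iff₀ hη] at hT
  nlinarith

lemma MM_pos {v : ℕ} {T : ℝ} (hT : 1 < T) : 0 < MM v T := by
  unfold MM
  have := Real.log_pos hT
  positivity

/-- products of powers of `T` and `log T` that are eventually at most one -/
lemma small_pow (a b C : ℝ) (ha : a < 0) :
    ∀ᶠ T : ℝ in atTop, C * (T ^ a * Real.log T ^ b) ≤ 1 := by
  have h1 : Tendsto (fun T : ℝ => Real.log T ^ b / T ^ (-a)) atTop (𝓝 0) :=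
    (isLittleO_log_rpow_rpow_atTop b (by linarith : 0 < -a)).tendsto_div_nhds_zero
  have h2 := h1.const_mul C
  rw [mul_zero] at h2
  filter_upwards [h2.eventually (gt_mem_nhds one_pos), eventually_gt_atTop 0] with T hT hT0
  rw [Real.rpow_neg hT0.le, div_inv_eq_mul] at hT
  rw [mul_comm (T ^ a)]
  exact hT.le

end Pool.Agent.W184
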