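import Pool.Agent.W184.Asym

set_option autoImplicit false

/-! The closure argument for the exponents `2/v`. -/

namespace Pool.Agent.W184

open MeasureTheory Filter Topology Pool.Agent.H306R2

/-- truncation of `ζ^{1/v}` -/
noncomputable def SS (v : ℕ) (T : ℝ) (s : ℂ) : ℂ := DS (dv (1 / (v:ℝ))) (NT T) s

/-- its `v`-th power -/
noncomputable def QQ (v : ℕ) (T : ℝ) (s : ℂ) : ℂ := SS v T s ^ v

/-- `|S(σ+it)|^2` -/
noncomputable def sn (v : ℕ) (T σ t : ℝ) : ℝ := ‖SS v T ((σ : ℂ) + t * Complex.I)‖ ^ 2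

section

variable {v : ℕ}

lemma kv (hv : 2 ≤ v) : 0 < 1 / (v:ℝ) ∧ 1 / (v:ℝ) ≤ 1 ∧ 0 < 2 / (v:ℝ) ∧ 2 / (v:ℝ) ≤ 1 := by
  have hv0 : (0:ℝ) < v := by exact_mod_cast (by omega : 0 < v)
  have hv2 : (2:ℝ) ≤ v := by exact_mod_cast hv
  refine ⟨by positivity, ?_, by positivity, ?_⟩
  · rw [div_le_one hv0]; linarith
  · rw [div_le_one hv0]; exact hv2

lemma SS_diff (T : ℝ) : Differentiable ℂ (SS v T) := DS_differentiable _ _

lemma QQ_diff (T : ℝ) : Differentiable ℂ (QQ v T) := (SS_diff T).pow v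

lemma SS_le (hv : 2 ≤ v) (T : ℝ) {s : ℂ} (hs : 0 ≤ s.re) : ‖SS v T s‖ ≤ NT T := by
  obtain ⟨h1, h2, -, -⟩ := kv hv
  exact DS_norm_le (fun n => dv_nonneg h1.le n) (fun n => dv_le_one h1.le h2 n) _ hs

lemma QQ_pow (hv : 2 ≤ v) (T : ℝ) (s : ℂ) : ‖QQ v T s‖ ^ (2 / (v:ℝ)) = ‖SS v T s‖ ^ 2 := by
  have hv0 : (0:ℝ) < v := by exact_mod_cast (by omega : 0 < v)
  unfold QQ
  rw [norm_pow, ← Real.rpow_natCast, ← Real.rpow_mul (norm_nonneg _),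
    show (v:ℝ) * (2 / v) = 2 by field_simp]
  exact_mod_cast Real.rpow_natCast _ 2

lemma sn_cont (T σ : ℝ) : Continuous (sn v T σ) := by
  unfold sn
  have h1 : Continuous fun t : ℝ => (σ : ℂ) + t * Complex.I := by fun_prop
  exact (((SS_diff T).continuous.comp h1).norm).pow 2

lemma tri1 (hv : 2 ≤ v) (T σ t : ℝ) : zn σ t ^ (2 / (v:ℝ)) ≤ sn v T σ t + qn (QQ v T) (2 / (v:ℝ)) σ t := by
  obtain ⟨-, -, h3, h4⟩ := kv hv
  unfold sn qn
  rw [← QQ_pow hv]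
  set z : ℂ := (σ : ℂ) + t * Complex.I
  have h5 : zn σ t ≤ ‖QQ v T z‖ + ‖riemannZeta z - QQ v T z‖ := by
    have := norm_add_le (QQ v T z) (riemannZeta z - QQ v T z)
    rwa [add_sub_cancel] at this
  exact (Real.rpow_le_rpow (zn_nonneg _ _) h5 h3.le).trans
    (add_rpow_le' (norm_nonneg _) (norm_nonneg _) h3.le h4)

lemma tri2 (hv : 2 ≤ v) (T σ t : ℝ) : qn (QQ v T) (2 / (v:ℝ)) σ t ≤ zn σ t ^ (2 / (v:ℝ)) + sn v T σ t := by
  obtain ⟨-, -, h3, h4⟩ := kv hv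
  unfold sn qn
  rw [← QQ_pow hv]
  set z : ℂ := (σ : ℂ) + t * Complex.I
  have h5 : ‖riemannZeta z - QQ v T z‖ ≤ zn σ t + ‖QQ v T z‖ := norm_sub_le _ _
  exact (Real.rpow_le_rpow (norm_nonneg _) h5 h3.le).trans
    (add_rpow_le' (zn_nonneg _ _) (norm_nonneg _) h3.le h4)

lemma tri3 (hv : 2 ≤ v) (T σ t : ℝ) : sn v T σ t ≤ zn σ t ^ (2 / (v:ℝ)) + qn (QQ v T) (2 / (v:ℝ)) σ t := by
  obtain ⟨-, -, h3, h4⟩ := kv hv
  unfold sn qn
  rw [← QQ_pow hv]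
  set z : ℂ := (σ : ℂ) + t * Complex.I
  have h5 : ‖QQ v T z‖ ≤ zn σ t + ‖riemannZeta z - QQ v T z‖ := by
    have := norm_sub_le (riemannZeta z) (riemannZeta z - QQ v T z)
    rwa [sub_sub_cancel] at this
  exact (Real.rpow_le_rpow (norm_nonneg _) h5 h3.le).trans
    (add_rpow_le' (zn_nonneg _ _) (norm_nonneg _) h3.le h4)

lemma int_add_le {f g h : ℝ → ℝ} (hf : Continuous f) (hg : Continuous g) (hh : Continuous h)
    {a b : ℝ} (hab : a ≤ b) (H : ∀ x, f x ≤ g x + h x) :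
    ∫ t in a..b, f t ≤ (∫ t in a..b, g t) + ∫ t in a..b, h t := by
  rw [← intervalIntegral.integral_add (hg.intervalIntegrable _ _) (hh.intervalIntegrable _ _)]
  exact intervalIntegral.integral_mono hab (hf.intervalIntegrable _ _)
    ((hg.add hh).intervalIntegrable _ _) H

lemma sn_mv (hv : 2 ≤ v) (T : ℝ) {σ : ℝ} (hσ : 1 / 2 ≤ σ) (A B : ℝ) :
    |(∫ t in A..B, sn v T σ t) - (B - A) * ∑ n ∈ Finset.Icc 1 (NT T), dv (1 / (v:ℝ)) n ^ 2 *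
      (n : ℝ) ^ (-(2 * σ))| ≤ 6 * ((NT T : ℝ) * (1 + Real.log (NT T))) := by
  obtain ⟨h1, h2, -, -⟩ := kv hv
  have := mv_DS (g := dv (1 / (v:ℝ))) (fun n => dv_nonneg h1.le n) (fun n => dv_le_one h1.le h2 n) hσ
    (NT T) A B
  rw [show 6 * ((NT T : ℝ) * (1 + Real.log (NT T))) = 6 * (NT T : ℝ) * (1 + Real.log (NT T)) by ring]
  exact this

lemma S_ev (hv : 2 ≤ v) {δ : ℝ} (hδ : 0 ≤ δ) {η : ℝ} (hη : 0 < η) :
    ∀ᶠ T : ℝ in atTop, (∫ t in (0:ℝ)..T, sn v T (1 / 2 + δ / Real.log T) t) ≤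
        (aF (1 / (v:ℝ)) * gI (1 / (v:ℝ)) δ + η) * MM v T ∧
      (aF (1 / (v:ℝ)) * gI (1 / (v:ℝ)) δ - η) * MM v T ≤
        (∫ t in (0:ℝ)..T, sn v T (1 / 2 + δ / Real.log T) t) := by
  obtain ⟨h1, h2, -, -⟩ := kv hv
  have hc := coef_tendsto (κ := 1 / (v:ℝ)) (δ := δ) h1
  have e1 := hc.eventually_lt_const (show aF (1 / (v:ℝ)) * gI (1 / (v:ℝ)) δ <
    aF (1 / (v:ℝ)) * gI (1 / (v:ℝ)) δ + η / 2 by linarith)
  have e2 := hc.eventually_const_lt (show aF (1 / (v:ℝ)) * gI (1 / (v:ℝ)) δ - η / 2 <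
    aF (1 / (v:ℝ)) * gI (1 / (v:ℝ)) δ by linarith)
  have e3 := CT_le (v := v) (by omega) 6 (show 0 < η / 2 by linarith)
  filter_upwards [e1, e2, e3, NT_ev, eventually_gt_atTop 1] with T a1 a2 a3 a4 a5
  have hL := Real.log_pos a5
  have hLp : 0 < Real.log T ^ ((1 / (v:ℝ)) ^ 2) := by positivity
  rw [div_lt_iff₀ hLp] at a1
  rw [lt_div_iff₀ hLp] at a2
  have hm := sn_mv hv T (σ := 1 / 2 + δ / Real.log T) (by
    have : 0 ≤ δ / Real.log T := by positivity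
    linarith) 0 T
  rw [sub_zero] at hm
  have hm' := abs_le.mp hm
  have hT0 : 0 < T := by linarith
  set W := ∑ n ∈ Finset.Icc 1 (NT T), dv (1 / (v:ℝ)) n ^ 2 * (n : ℝ) ^ (-(2 * (1 / 2 + δ / Real.log T)))
  unfold MM at a3 ⊢
  constructor
  · nlinarith [hm'.1, hm'.2, mul_lt_mul_of_pos_left a1 hT0]
  · nlinarith [hm'.1, hm'.2, mul_lt_mul_of_pos_left a2 hT0]

lemma edges_sn (hv : 2 ≤ v) : ∀ᶠ T : ℝ in atTop,
    (∫ t in (-(T ^ ((1:ℝ)/4)))..0, sn v T (1 / 2) t) + ∫ t in T..(T + T ^ ((1:ℝ)/4)), sn v T (1 / 2) t ≤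
      14 * T := by
  obtain ⟨h1, h2, -, -⟩ := kv hv
  have h4 := small_pow (1 / 4 - 1) 1 2 (by norm_num)
  filter_upwards [NT_ev, h4, eventually_gt_atTop (Real.exp 1)] with T a1 a2 a3
  have hT1 : 1 < T := lt_trans (by
    have := Real.add_one_lt_exp (show (1:ℝ) ≠ 0 by norm_num)
    linarith) a3
  have hT0 : 0 < T := by linarith
  have hlog : 1 ≤ Real.log T := by
    rw [Real.le_log_iff_exp_le hT0]; exact a3.le
  have hN0 : (0:ℝ) < NT T := by exact_mod_cast a1.1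
  have hs : ∑ n ∈ Finset.Icc 1 (NT T), dv (1 / (v:ℝ)) n ^ 2 * (n : ℝ) ^ (-(2 * (1 / 2 : ℝ))) ≤
      1 + Real.log (NT T) := by
    refine le_trans (Finset.sum_le_sum fun n hn => ?_) (harm_le (NT T))
    rw [Finset.mem_Icc] at hn
    rw [show -(2 * (1 / 2 : ℝ)) = -1 by norm_num, Real.rpow_neg_one]
    have h5 : dv (1 / (v:ℝ)) n ^ 2 ≤ 1 := pow_le_one₀ (dv_nonneg h1.le n) (dv_le_one h1.le h2 n)
    have h6 : (0:ℝ) ≤ (n:ℝ)⁻¹ := by positivity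
    calc dv (1 / (v:ℝ)) n ^ 2 * (n:ℝ)⁻¹ ≤ 1 * (n:ℝ)⁻¹ := mul_le_mul_of_nonneg_right h5 h6
      _ = 1 / (n:ℝ) := by rw [one_mul, one_div]
  have hU : T ^ ((1:ℝ)/4) * (1 + Real.log (NT T)) ≤ T := by
    have h6 : Real.log (NT T) ≤ Real.log T := Real.log_le_log hN0 a1.2.2
    have h7 : T ^ ((1:ℝ)/4) * (2 * Real.log T) ≤ T := by
      have h8 : T ^ ((1:ℝ)/4) = T ^ ((1:ℝ)/4 - 1) * T := by
        rw [← Real.rpow_add_one hT0.ne']; congr 1; ring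
      rw [Real.rpow_one] at a2
      rw [h8]
      calc T ^ ((1:ℝ)/4 - 1) * T * (2 * Real.log T) = (2 * (T ^ ((1:ℝ)/4 - 1) * Real.log T)) * T := by ring
        _ ≤ 1 * T := mul_le_mul_of_nonneg_right a2 hT0.le
        _ = T := one_mul T
    refine le_trans (mul_le_mul_of_nonneg_left ?_ (by positivity)) h7
    linarith
  have hU0 : 0 < T ^ ((1:ℝ)/4) := Real.rpow_pos_of_pos hT0 _
  have m1 := (abs_le.mp (sn_mv hv T (σ := 1 / 2) le_rfl (-(T ^ ((1:ℝ)/4))) 0)).2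
  have m2 := (abs_le.mp (sn_mv hv T (σ := 1 / 2) le_rfl T (T + T ^ ((1:ℝ)/4)))).2
  rw [show 0 - -(T ^ ((1:ℝ)/4)) = T ^ ((1:ℝ)/4) by ring] at m1
  rw [show T + T ^ ((1:ℝ)/4) - T = T ^ ((1:ℝ)/4) by ring] at m2
  have h9 := mul_le_mul_of_nonneg_left hs hU0.le
  linarith [a1.2.1]

theorem half_ev_S (hv : 2 ≤ v) {δ : ℝ} (hδ : 0 < δ) {η : ℝ} (hη : 0 < η) :
    ∀ᶠ T : ℝ in atTop, ∫ t in (0:ℝ)..T, qn (QQ v T) (2 / (v:ℝ)) (1 / 2 + δ / Real.log T) t ≤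
      (Real.exp (-(2 / (v:ℝ) * δ)) + η) *
        ((∫ t in (0:ℝ)..T, qn (QQ v T) (2 / (v:ℝ)) (1 / 2) t) + η * MM v T) := by
  obtain ⟨h1, h2, h3, h4⟩ := kv hv
  have hv0 : (0:ℝ) < v := by exact_mod_cast (by omega : 0 < v)
  have hf0 : ∀ᶠ T : ℝ in atTop, (0:ℝ) < NT T := by
    filter_upwards [NT_ev] with T hT
    exact_mod_cast hT.1
  have hF := fac_tendsto (2 / (v:ℝ)) δ (8 * v) h3 (fun T => (NT T : ℝ)) 1 hf0 logN_tendsto
  rw [mul_one] at hF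
  have hΔ1 : ∀ᶠ T : ℝ in atTop, δ / Real.log T ≤ 1 / 8 :=
    ((delta_tendsto δ).eventually (gt_mem_nhds (show (0:ℝ) < 1/8 by norm_num))).mono fun _ h => h.le
  have hCT := CT_le (v := v) (by omega) 87 hη
  have hsm := small_pow (4 - 29 / 4) 1 (26 * (2 * Real.pi * (1 / δ))) (by norm_num)
  have hev : ∀ᶠ T : ℝ in atTop, ((1 - 8 * (δ / Real.log T)) * (NT T : ℝ) ^ (δ / Real.log T) /
      (1 + δ / Real.log T) ^ (2 * (8 * v))) ^ (2 / (v:ℝ)) *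
        (∫ t in (0:ℝ)..T, qn (QQ v T) (2 / (v:ℝ)) (1 / 2 + δ / Real.log T) t) ≤
      (∫ t in (0:ℝ)..T, qn (QQ v T) (2 / (v:ℝ)) (1 / 2) t) + η * MM v T := by
    filter_upwards [hΔ1, hCT, hsm, edges_sn hv, NT_ev, eventually_gt_atTop 1] with T a1 a2 a3 a4 a5 a6
    have hT0 : 0 < T := by linarith
    have hL := Real.log_pos a6
    have hΔ0 : 0 < δ / Real.log T := by positivity
    have hN1 : (1:ℝ) ≤ NT T := by exact_mod_cast a5.1
    have hU0 : 0 < T ^ ((1:ℝ)/4) := Real.rpow_pos_of_pos hT0 _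
    have hcz := zp_cont (σ := 1 / 2) (p := 2 / (v:ℝ)) (by norm_num) h3
    have hcs := sn_cont (v := v) T (1 / 2)
    have hcq := qn_cont (QQ_diff (v := v) T) (p := 2 / (v:ℝ)) (σ := 1 / 2) h3 (by norm_num)
    have hGB : ∀ x, qn (QQ v T) (2 / (v:ℝ)) (1 / 2) x ≤ (12 + T ^ 2) * (1 + |x|) := by
      intro x
      have b1 := tri2 hv T (1 / 2) x
      have b2 := zp_le (x := x) h3 h4 (σ := 1 / 2) (by norm_num) (by norm_num)
      have b3 : sn v T (1 / 2) x ≤ T ^ 2 := by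
        unfold sn
        refine pow_le_pow_left₀ (norm_nonneg _) ?_ 2
        exact (SS_le hv T (by simp)).trans a5.2.2
      have b4 : 0 ≤ T ^ 2 * |x| := by positivity
      nlinarith
    have hE : (∫ t in (-(T ^ ((1:ℝ)/4)))..0, qn (QQ v T) (2 / (v:ℝ)) (1 / 2) t) +
      ∫ t in T..(T + T ^ ((1:ℝ)/4)), qn (QQ v T) (2 / (v:ℝ)) (1 / 2) t ≤ 86 * T := by
      have b1 := int_add_le hcq hcz hcs (a := -(T ^ ((1:ℝ)/4))) (b := 0) (by linarith)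
        (tri2 hv T (1 / 2))
      have b2 := int_add_le hcq hcz hcs (a := T) (b := T + T ^ ((1:ℝ)/4)) (by linarith)
        (tri2 hv T (1 / 2))
      have b3 := edges_zp (p := 2 / (v:ℝ)) (σ := 1 / 2) h3 h4 (by norm_num) (by norm_num) a6.le
      linarith
    have hM : (((8 * v : ℕ)) : ℝ) * (2 / (v:ℝ)) = 16 := by push_cast; field_simp; norm_num
    have hQ1 : ∀ z : ℂ, 1 / 2 ≤ z.re → z.re ≤ 2 → ‖QQ v T z‖ ≤ (NT T : ℝ) ^ v := by
      intro z hz _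
      unfold QQ
      rw [norm_pow]
      exact pow_le_pow_left₀ (norm_nonneg _) (SS_le hv T (by linarith)) v
    have hQ2 : ∀ z : ℂ, 2 ≤ z.re → ‖riemannZeta z - QQ v T z‖ * (NT T : ℝ) ^ z.re ≤
        (NT T:ℝ) ^ 2 * ∑' n : ℕ, 1 / (n : ℝ) ^ 2 := by
      intro z hz
      exact zeta_sub_pow_le (by omega) a5.1 hz
    have hmain := half_fix (T := T) h3 hN1 (show 1 ≤ 8 * v by omega) hM (QQ_diff T) hQ1 hQ2 hΔ0 a1 a6.le
      (by positivity) hGB hE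
    refine hmain.trans ?_
    have htail : T * ((12 + T ^ 2) * (1 + T)) * (2 * Real.pi * (1 / (δ / Real.log T)) *
        (T ^ ((1:ℝ)/4)) ^ (-(29:ℝ))) ≤ T := by
      have b2 : (T ^ ((1:ℝ)/4)) ^ (-(29:ℝ)) = T ^ (-(29/4:ℝ)) := by
        rw [← Real.rpow_mul hT0.le]; norm_num
      have b3 : T * ((12 + T ^ 2) * (1 + T)) ≤ 26 * T ^ (4:ℝ) := by
        have : T ^ (4:ℝ) = T ^ 4 := by exact_mod_cast Real.rpow_natCast T 4
        rw [this]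
        have c0 : 1 ≤ T ^ 2 := one_le_pow₀ a6.le
        have c1 : 1 + T ≤ 2 * T := by linarith
        have c2 : 12 + T ^ 2 ≤ 13 * T ^ 2 := by linarith
        calc T * ((12 + T ^ 2) * (1 + T)) ≤ T * ((13 * T ^ 2) * (2 * T)) := by gcongr
          _ = 26 * T ^ 4 := by ring
      have b4 : T ^ (4:ℝ) * T ^ (-(29/4:ℝ)) = T ^ (4 - 29 / 4 : ℝ) := by
        rw [← Real.rpow_add hT0]; congr 1
      rw [b2]
      have hpi := Real.pi_pos
      calc T * ((12 + T ^ 2) * (1 + T)) * (2 * Real.pi * (1 / (δ / Real.log T)) * T ^ (-(29/4:ℝ))) ≤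
          (26 * T ^ (4:ℝ)) * (2 * Real.pi * (1 / (δ / Real.log T)) * T ^ (-(29/4:ℝ))) := by
            gcongr
        _ = 26 * (2 * Real.pi * (1 / δ)) * (T ^ (4 - 29 / 4 : ℝ) * Real.log T ^ (1:ℝ)) := by
            rw [← b4, Real.rpow_one]
            field_simp
        _ ≤ 1 := a3
        _ ≤ T := a6.le
    linarith
  have hD0 : ∀ᶠ T : ℝ in atTop, 0 ≤ ∫ t in (0:ℝ)..T, qn (QQ v T) (2 / (v:ℝ)) (1 / 2) t := by
    filter_upwards [eventually_ge_atTop 0] with T hT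
    exact intervalIntegral.integral_nonneg hT fun x _ => qn_nonneg _ _ _ _
  have := turn (v := v) (Real.exp_pos _) hη hF hev hD0
  rw [← Real.exp_neg] at this
  exact this

lemma qn_zero (p σ t : ℝ) : qn (fun _ => 0) p σ t = zn σ t ^ p := by
  unfold qn zn
  rw [sub_zero]

lemma zeta_far {z : ℂ} (hz : 2 ≤ z.re) :
    ‖riemannZeta z - 0‖ * (1:ℝ) ^ z.re ≤ 1 + ∑' n : ℕ, 1 / (n : ℝ) ^ 2 := by
  have h := zeta_sub_pow_le (v := 1) (N := 1) le_rfl le_rfl hz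
  have e : DS (dv (1 / ((1:ℕ):ℝ))) 1 z = 1 := by
    unfold DS
    rw [Finset.Icc_self, Finset.sum_singleton, dv_one]
    simp
  rw [e, pow_one] at h
  simp only [Nat.cast_one, one_pow, one_mul, Real.one_rpow, mul_one] at h ⊢
  rw [sub_zero]
  have h2 := norm_add_le (riemannZeta z - 1) 1
  rw [sub_add_cancel, norm_one] at h2
  linarith

theorem half_ev_0 (hv : 2 ≤ v) {δ : ℝ} (hδ : 0 < δ) {η : ℝ} (hη : 0 < η) :
    ∀ᶠ T : ℝ in atTop, ∫ t in (0:ℝ)..T, zn (1 / 2 + δ / Real.log T) t ^ (2 / (v:ℝ)) ≤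
      (1 + η) * ((∫ t in (0:ℝ)..T, zn (1 / 2) t ^ (2 / (v:ℝ))) + η * MM v T) := by
  obtain ⟨h1, h2, h3, h4⟩ := kv hv
  have hv0 : (0:ℝ) < v := by exact_mod_cast (by omega : 0 < v)
  have hF := fac_tendsto (2 / (v:ℝ)) δ (8 * v) h3 (fun _ => (1:ℝ)) 0
    (Eventually.of_forall fun _ => one_pos) (by simp)
  rw [mul_zero, mul_zero, Real.exp_zero] at hF
  have hΔ1 : ∀ᶠ T : ℝ in atTop, δ / Real.log T ≤ 1 / 8 :=
    ((delta_tendsto δ).eventually (gt_mem_nhds (show (0:ℝ) < 1/8 by norm_num))).mono fun _ h => h.le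
  have hCT := CT_le (v := v) (by omega) 73 hη
  have hsm := small_pow (2 - 29 / 4) 1 (24 * (2 * Real.pi * (1 / δ))) (by norm_num)
  have hev : ∀ᶠ T : ℝ in atTop, ((1 - 8 * (δ / Real.log T)) * (1:ℝ) ^ (δ / Real.log T) /
      (1 + δ / Real.log T) ^ (2 * (8 * v))) ^ (2 / (v:ℝ)) *
        (∫ t in (0:ℝ)..T, zn (1 / 2 + δ / Real.log T) t ^ (2 / (v:ℝ))) ≤
      (∫ t in (0:ℝ)..T, zn (1 / 2) t ^ (2 / (v:ℝ))) + η * MM v T := by
    filter_upwards [hΔ1, hCT, hsm, eventually_gt_atTop 1] with T a1 a2 a3 a6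
    have hT0 : 0 < T := by linarith
    have hL := Real.log_pos a6
    have hΔ0 : 0 < δ / Real.log T := by positivity
    have hGB : ∀ x, qn (fun _ => 0) (2 / (v:ℝ)) (1 / 2) x ≤ 12 * (1 + |x|) := by
      intro x
      rw [qn_zero]
      exact zp_le (x := x) h3 h4 (σ := 1 / 2) (by norm_num) (by norm_num)
    have hE : (∫ t in (-(T ^ ((1:ℝ)/4)))..0, qn (fun _ => 0) (2 / (v:ℝ)) (1 / 2) t) +
      ∫ t in T..(T + T ^ ((1:ℝ)/4)), qn (fun _ => 0) (2 / (v:ℝ)) (1 / 2) t ≤ 72 * T := by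
      simp_rw [qn_zero]
      exact edges_zp (p := 2 / (v:ℝ)) (σ := 1 / 2) h3 h4 (by norm_num) (by norm_num) a6.le
    have hM : (((8 * v : ℕ)) : ℝ) * (2 / (v:ℝ)) = 16 := by push_cast; field_simp; norm_num
    have hmain := half_fix (Q := fun _ => 0) (C1 := 0) (C2 := 1 + ∑' n : ℕ, 1 / (n : ℝ) ^ 2) (T := T)
      h3 le_rfl (show 1 ≤ 8 * v by omega) hM (differentiable_const _) (by simp) (fun z hz => zeta_far hz)
      hΔ0 a1 a6.le (by norm_num) hGB hE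
    simp_rw [qn_zero] at hmain
    refine hmain.trans ?_
    have htail : T * (12 * (1 + T)) * (2 * Real.pi * (1 / (δ / Real.log T)) *
        (T ^ ((1:ℝ)/4)) ^ (-(29:ℝ))) ≤ T := by
      have b2 : (T ^ ((1:ℝ)/4)) ^ (-(29:ℝ)) = T ^ (-(29/4:ℝ)) := by
        rw [← Real.rpow_mul hT0.le]; norm_num
      have b3 : T * (12 * (1 + T)) ≤ 24 * T ^ (2:ℝ) := by
        have : T ^ (2:ℝ) = T ^ 2 := by exact_mod_cast Real.rpow_natCast T 2
        rw [this]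
        nlinarith
      have b4 : T ^ (2:ℝ) * T ^ (-(29/4:ℝ)) = T ^ (2 - 29 / 4 : ℝ) := by
        rw [← Real.rpow_add hT0]; congr 1
      rw [b2]
      have hpi := Real.pi_pos
      calc T * (12 * (1 + T)) * (2 * Real.pi * (1 / (δ / Real.log T)) * T ^ (-(29/4:ℝ))) ≤
          (24 * T ^ (2:ℝ)) * (2 * Real.pi * (1 / (δ / Real.log T)) * T ^ (-(29/4:ℝ))) := by
            gcongr
        _ = 24 * (2 * Real.pi * (1 / δ)) * (T ^ (2 - 29 / 4 : ℝ) * Real.log T ^ (1:ℝ)) := by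
            rw [← b4, Real.rpow_one]
            field_simp
        _ ≤ 1 := a3
        _ ≤ T := a6.le
    linarith
  have hD0 : ∀ᶠ T : ℝ in atTop, 0 ≤ ∫ t in (0:ℝ)..T, zn (1 / 2) t ^ (2 / (v:ℝ)) := by
    filter_upwards [eventually_ge_atTop 0] with T hT
    exact intervalIntegral.integral_nonneg hT fun x _ => Real.rpow_nonneg (zn_nonneg _ _) _
  have := turn (v := v) one_pos hη hF hev hD0
  rw [inv_one] at this
  exact this

end

end Pool.Agent.W184
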