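import Mathlib

set_option autoImplicit false

/-! Mean value theorem for Dirichlet polynomials (short polynomials, elementary). -/

namespace Pool.Agent.W184

open MeasureTheory Finset

lemma abs_int_cos {x A B : ℝ} (hx : x ≠ 0) : |∫ t in A..B, Real.cos (t * x)| ≤ 2 / |x| := by
  have h1 : ∫ t in A..B, Real.cos (t * x) = (Real.sin (B * x) - Real.sin (A * x)) / x := by
    rw [intervalIntegral.integral_comp_mul_right (fun t => Real.cos t) hx, integral_cos, smul_eq_mul,
      div_eq_inv_mul]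
  rw [h1, abs_div]
  refine div_le_div_of_nonneg_right ?_ (abs_nonneg x)
  have h2 := Real.abs_sin_le_one (B * x)
  have h3 := Real.abs_sin_le_one (A * x)
  have h4 := abs_sub (Real.sin (B * x)) (Real.sin (A * x))
  linarith

lemma log_gap {m n : ℕ} (hm : 1 ≤ m) (h : m < n) :
    ((n : ℝ) - m) / n ≤ Real.log n - Real.log m := by
  have hm0 : (0:ℝ) < m := by exact_mod_cast hm
  have hn0 : (0:ℝ) < n := by exact_mod_cast (by omega : 0 < n)
  have h1 := Real.one_sub_inv_le_log_of_pos (x := (n:ℝ) / m) (by positivity)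
  rw [Real.log_div hn0.ne' hm0.ne', inv_div] at h1
  calc ((n : ℝ) - m) / n = 1 - m / n := by field_simp
    _ ≤ _ := h1

lemma harm_le (N : ℕ) : ∑ m ∈ Icc 1 N, (1 : ℝ) / m ≤ 1 + Real.log N := by
  have h := harmonic_le_one_add_log N
  rw [harmonic_eq_sum_Icc] at h
  push_cast at h
  simpa using h

/-- off-diagonal weights, one side -/
lemma off_row {N n : ℕ} (hn : n ∈ Icc 1 N) :
    ∑ m ∈ (Icc 1 N).filter (fun m => m < n), ((1 : ℝ) / m + 1 / n) * (n / (n - m)) ≤
      3 * (1 + Real.log N) := by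
  rw [mem_Icc] at hn
  have hn0 : (0:ℝ) < n := by exact_mod_cast hn.1
  have e1 : ∀ m ∈ (Icc 1 N).filter (fun m => m < n), ((1 : ℝ) / m + 1 / n) * (n / (n - m)) =
      1 / m + 2 * (1 / ((n - m : ℕ) : ℝ)) := by
    intro m hm
    rw [mem_filter, mem_Icc] at hm
    have hm0 : (0:ℝ) < m := by exact_mod_cast hm.1.1
    have hd : (0:ℝ) < n - m := by
      have : (m:ℝ) < n := by exact_mod_cast hm.2
      linarith
    rw [Nat.cast_sub hm.2.le]
    field_simp
    ring
  rw [sum_congr rfl e1, sum_add_distrib, ← mul_sum]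
  have h1 : ∑ m ∈ (Icc 1 N).filter (fun m => m < n), (1 : ℝ) / m ≤ ∑ m ∈ Icc 1 N, (1 : ℝ) / m :=
    sum_le_sum_of_subset_of_nonneg (filter_subset _ _) fun i _ _ => by positivity
  have h2 : ∑ m ∈ (Icc 1 N).filter (fun m => m < n), (1 : ℝ) / ((n - m : ℕ) : ℝ) ≤
      ∑ m ∈ Icc 1 N, (1 : ℝ) / m := by
    have hinj : Set.InjOn (fun m => n - m) ((Icc 1 N).filter (fun m => m < n) : Finset ℕ) := by
      intro a ha b hb hab
      simp only [coe_filter, mem_Icc, Set.mem_ofPred_eq] at ha hb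
      simp only at hab
      omega
    rw [← sum_image (f := fun k : ℕ => (1:ℝ) / k) hinj]
    refine sum_le_sum_of_subset_of_nonneg ?_ fun i _ _ => by positivity
    intro k hk
    rw [mem_image] at hk
    obtain ⟨m, hm, rfl⟩ := hk
    rw [mem_filter, mem_Icc] at hm
    rw [mem_Icc]
    omega
  have h3 := harm_le N
  linarith

/-- The mean value theorem, cosine form. -/
theorem mv_cos {a : ℕ → ℝ} (ha0 : ∀ n, 0 ≤ a n) (ha : ∀ n, 1 ≤ n → a n ^ 2 ≤ 1 / n) (N : ℕ) (A B : ℝ) :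
    |(∫ t in A..B, ∑ m ∈ Icc 1 N, ∑ n ∈ Icc 1 N, a m * a n *
        Real.cos (t * (Real.log m - Real.log n))) - (B - A) * ∑ n ∈ Icc 1 N, a n ^ 2| ≤
      6 * N * (1 + Real.log N) := by
  have hint : ∀ m n : ℕ, IntervalIntegrable (fun t => a m * a n *
      Real.cos (t * (Real.log m - Real.log n))) volume A B := fun m n =>
    Continuous.intervalIntegrable (by fun_prop) _ _
  have e1 : (∫ t in A..B, ∑ m ∈ Icc 1 N, ∑ n ∈ Icc 1 N, a m * a n *
        Real.cos (t * (Real.log m - Real.log n))) =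
      ∑ m ∈ Icc 1 N, ∑ n ∈ Icc 1 N, a m * a n * ∫ t in A..B,
        Real.cos (t * (Real.log m - Real.log n)) := by
    rw [intervalIntegral.integral_finsetSum fun m _ =>
      Continuous.intervalIntegrable (by fun_prop) _ _]
    refine sum_congr rfl fun m _ => ?_
    rw [intervalIntegral.integral_finsetSum fun n _ => hint m n]
    refine sum_congr rfl fun n _ => ?_
    rw [intervalIntegral.integral_const_mul]
  have e2 : (B - A) * ∑ n ∈ Icc 1 N, a n ^ 2 =
      ∑ m ∈ Icc 1 N, ∑ n ∈ Icc 1 N, if n = m then (B - A) * a n ^ 2 else 0 := by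
    rw [mul_sum]
    refine sum_congr rfl fun m hm => ?_
    rw [sum_ite_eq' (Icc 1 N) m (fun n => (B - A) * a n ^ 2), if_pos hm]
  rw [e1, e2, ← sum_sub_distrib]
  simp_rw [← sum_sub_distrib]
  have hterm : ∀ m ∈ Icc 1 N, ∀ n ∈ Icc 1 N,
      |a m * a n * (∫ t in A..B, Real.cos (t * (Real.log m - Real.log n))) -
        (if n = m then (B - A) * a n ^ 2 else 0)| ≤
      (if m < n then ((1:ℝ) / m + 1 / n) * (n / (n - m)) else 0) +
      (if n < m then ((1:ℝ) / n + 1 / m) * (m / (m - n)) else 0) := by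
    intro m hm n hn
    rw [mem_Icc] at hm hn
    have hm0 : (0:ℝ) < m := by exact_mod_cast hm.1
    have hn0 : (0:ℝ) < n := by exact_mod_cast hn.1
    have hmn : a m * a n ≤ (1 / 2) * (1 / m + 1 / n) := by
      have h1 := ha m hm.1
      have h2 := ha n hn.1
      nlinarith [sq_nonneg (a m - a n)]
    have hmn0 : 0 ≤ a m * a n := mul_nonneg (ha0 m) (ha0 n)
    rcases lt_trichotomy m n with h | h | h
    · rw [if_neg (by omega), if_pos h, if_neg (by omega), sub_zero, add_zero]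
      have hg := log_gap hm.1 h
      have hd : (0:ℝ) < n - m := by
        have : (m:ℝ) < n := by exact_mod_cast h
        linarith
      have hgp : 0 < ((n:ℝ) - m) / n := by positivity
      have hx : Real.log m - Real.log n ≠ 0 := by linarith
      have h1 := abs_int_cos (A := A) (B := B) hx
      rw [abs_mul, abs_of_nonneg hmn0]
      have h2 : 2 / |Real.log m - Real.log n| ≤ 2 * (n / (n - m)) := by
        rw [abs_sub_comm, abs_of_pos (by linarith), div_le_iff₀ (by linarith)]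
        calc (2:ℝ) = 2 * (n / (n - m)) * (((n:ℝ) - m) / n) := by field_simp
          _ ≤ _ := mul_le_mul_of_nonneg_left hg (by positivity)
      calc a m * a n * |∫ t in A..B, Real.cos (t * (Real.log m - Real.log n))| ≤
          ((1 / 2) * (1 / m + 1 / n)) * (2 * (n / (n - m))) :=
            mul_le_mul hmn (h1.trans h2) (abs_nonneg _) (by positivity)
        _ = _ := by ring
    · subst h
      rw [if_pos rfl, if_neg (lt_irrefl _), add_zero, sub_self]
      simp only [mul_zero, Real.cos_zero]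
      rw [intervalIntegral.integral_const, smul_eq_mul, mul_one]
      rw [show a m * a m * (B - A) - (B - A) * a m ^ 2 = 0 by ring, abs_zero]
    · rw [if_neg (by omega), if_neg (by omega), if_pos h, sub_zero, zero_add]
      have hg := log_gap hn.1 h
      have hd : (0:ℝ) < m - n := by
        have : (n:ℝ) < m := by exact_mod_cast h
        linarith
      have hgp : 0 < ((m:ℝ) - n) / m := by positivity
      have hx : Real.log m - Real.log n ≠ 0 := by linarith
      have h1 := abs_int_cos (A := A) (B := B) hx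
      rw [abs_mul, abs_of_nonneg hmn0]
      have h2 : 2 / |Real.log m - Real.log n| ≤ 2 * (m / (m - n)) := by
        rw [abs_of_pos (by linarith), div_le_iff₀ (by linarith)]
        calc (2:ℝ) = 2 * (m / (m - n)) * (((m:ℝ) - n) / m) := by field_simp
          _ ≤ _ := mul_le_mul_of_nonneg_left hg (by positivity)
      calc a m * a n * |∫ t in A..B, Real.cos (t * (Real.log m - Real.log n))| ≤
          ((1 / 2) * (1 / m + 1 / n)) * (2 * (m / (m - n))) :=
            mul_le_mul hmn (h1.trans h2) (abs_nonneg _) (by positivity)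
        _ = _ := by ring
  refine (abs_sum_le_sum_abs _ _).trans ?_
  refine (sum_le_sum fun m hm => (abs_sum_le_sum_abs _ _).trans
    (sum_le_sum fun n hn => hterm m hm n hn)).trans ?_
  simp_rw [sum_add_distrib]
  have r1 : ∑ m ∈ Icc 1 N, ∑ n ∈ Icc 1 N,
      (if m < n then ((1:ℝ) / m + 1 / n) * (n / (n - m)) else 0) ≤ 3 * N * (1 + Real.log N) := by
    rw [sum_comm]
    calc ∑ n ∈ Icc 1 N, ∑ m ∈ Icc 1 N, (if m < n then ((1:ℝ) / m + 1 / n) * (n / (n - m)) else 0) ≤
        ∑ n ∈ Icc 1 N, 3 * (1 + Real.log N) := by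
          refine sum_le_sum fun n hn => ?_
          rw [← sum_filter]
          exact off_row hn
      _ = 3 * N * (1 + Real.log N) := by
          rw [sum_const, Nat.card_Icc, nsmul_eq_mul]
          simp
          ring
  have r2 : ∑ m ∈ Icc 1 N, ∑ n ∈ Icc 1 N,
      (if n < m then ((1:ℝ) / n + 1 / m) * (m / (m - n)) else 0) ≤ 3 * N * (1 + Real.log N) := by
    calc ∑ m ∈ Icc 1 N, ∑ n ∈ Icc 1 N, (if n < m then ((1:ℝ) / n + 1 / m) * (m / (m - n)) else 0) ≤
        ∑ m ∈ Icc 1 N, 3 * (1 + Real.log N) := by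
          refine sum_le_sum fun m hm => ?_
          rw [← sum_filter]
          exact off_row hm
      _ = 3 * N * (1 + Real.log N) := by
          rw [sum_const, Nat.card_Icc, nsmul_eq_mul]
          simp
          ring
  linarith

/-- the Dirichlet polynomial `∑_{n ≤ N} g(n) n^{-s}` -/
noncomputable def DS (g : ℕ → ℝ) (N : ℕ) (s : ℂ) : ℂ := ∑ n ∈ Icc 1 N, (g n : ℂ) * (n : ℂ) ^ (-s)

lemma DS_norm_sq (g : ℕ → ℝ) (N : ℕ) (σ t : ℝ) :
    ‖DS g N ((σ : ℂ) + t * Complex.I)‖ ^ 2 = ∑ m ∈ Icc 1 N, ∑ n ∈ Icc 1 N,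
      (g m * (m : ℝ) ^ (-σ)) * (g n * (n : ℝ) ^ (-σ)) * Real.cos (t * (Real.log m - Real.log n)) := by
  have h1 : ∀ n ∈ Icc 1 N, (g n : ℂ) * (n : ℂ) ^ (-((σ : ℂ) + t * Complex.I)) =
      ((g n * (n : ℝ) ^ (-σ) * Real.cos (t * Real.log n) : ℝ) : ℂ) +
      ((-(g n * (n : ℝ) ^ (-σ) * Real.sin (t * Real.log n)) : ℝ) : ℂ) * Complex.I := by
    intro n hn
    rw [mem_Icc] at hn
    have hn0 : (0:ℝ) < n := by exact_mod_cast hn.1
    have hn0' : (n : ℂ) ≠ 0 := by exact_mod_cast hn0.ne'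
    rw [Complex.cpow_def_of_ne_zero hn0', ← Complex.natCast_log,
      Real.rpow_def_of_pos hn0]
    have e : (Real.log n : ℂ) * -((σ : ℂ) + t * Complex.I) =
        ((Real.log n * (-σ) : ℝ) : ℂ) + ((-(t * Real.log n) : ℝ) : ℂ) * Complex.I := by
      push_cast; ring
    rw [e, Complex.exp_add, Complex.exp_mul_I]
    push_cast
    rw [Complex.cos_neg, Complex.sin_neg]
    ring
  unfold DS
  rw [sum_congr rfl h1, sum_add_distrib, ← sum_mul, ← Complex.ofReal_sum, ← Complex.ofReal_sum,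
    Complex.sq_norm, Complex.normSq_add_mul_I, pow_two, pow_two, sum_mul_sum, sum_mul_sum,
    ← sum_add_distrib]
  refine sum_congr rfl fun m _ => ?_
  rw [← sum_add_distrib]
  refine sum_congr rfl fun n _ => ?_
  rw [mul_sub, Real.cos_sub]
  ring

/-- mean value theorem -/
theorem mv_DS {g : ℕ → ℝ} (hg0 : ∀ n, 0 ≤ g n) (hg1 : ∀ n, g n ≤ 1) {σ : ℝ} (hσ : 1 / 2 ≤ σ)
    (N : ℕ) (A B : ℝ) :
    |(∫ t in A..B, ‖DS g N ((σ : ℂ) + t * Complex.I)‖ ^ 2) -
      (B - A) * ∑ n ∈ Icc 1 N, g n ^ 2 * (n : ℝ) ^ (-(2 * σ))| ≤ 6 * N * (1 + Real.log N) := by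
  have h := mv_cos (a := fun n => g n * (n : ℝ) ^ (-σ)) (fun n => mul_nonneg (hg0 n) (by positivity))
    (fun n hn => ?_) N A B
  · simp_rw [DS_norm_sq]
    have e : ∑ n ∈ Icc 1 N, g n ^ 2 * (n : ℝ) ^ (-(2 * σ)) =
        ∑ n ∈ Icc 1 N, (g n * (n : ℝ) ^ (-σ)) ^ 2 := by
      refine sum_congr rfl fun n _ => ?_
      rw [mul_pow, ← Real.rpow_natCast ((n:ℝ) ^ (-σ)), ← Real.rpow_mul (Nat.cast_nonneg n)]
      congr 2
      push_cast; ring
    rw [e]
    exact h
  · have hn0 : (0:ℝ) < n := by exact_mod_cast hn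
    have hn1 : (1:ℝ) ≤ n := by exact_mod_cast hn
    rw [mul_pow, ← Real.rpow_natCast ((n:ℝ) ^ (-σ)), ← Real.rpow_mul (Nat.cast_nonneg n)]
    have h1 : g n ^ 2 ≤ 1 := pow_le_one₀ (hg0 n) (hg1 n)
    have h2 : (n:ℝ) ^ (-σ * ((2:ℕ):ℝ)) ≤ (n:ℝ) ^ (-1:ℝ) := by
      refine Real.rpow_le_rpow_of_exponent_le hn1 ?_
      push_cast; linarith
    calc g n ^ 2 * (n:ℝ) ^ (-σ * ((2:ℕ):ℝ)) ≤ 1 * (n:ℝ) ^ (-1:ℝ) := by gcongr
      _ = 1 / n := by rw [Real.rpow_neg_one]; ring

end Pool.Agent.W184
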