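import Pool.Agent.H306R2.KW
import Pool.Agent.W184.MV

set_option autoImplicit false

/-! The `v`-th power of the truncated `ζ^{1/v}`. -/

namespace Pool.Agent.W184

open MeasureTheory Finset Pool.Agent.H306R2

lemma dv_le_one {κ : ℝ} (h0 : 0 ≤ κ) (h1 : κ ≤ 1) (n : ℕ) : dv κ n ≤ 1 := by
  refine (dv_mono h0 h1 n).trans ?_
  rw [← dA_apply, dA_one]
  unfold zR
  rw [ArithmeticFunction.natCoe_apply, ArithmeticFunction.zeta_apply]
  split_ifs <;> simp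

lemma DS_eq_Dp (g : ℕ → ℝ) (N : ℕ) (s : ℂ) : DS g N s = Dp g (N : ℝ) s := by
  unfold DS Dp
  rw [Nat.floor_natCast]

lemma DS_differentiable (g : ℕ → ℝ) (N : ℕ) : Differentiable ℂ (DS g N) := by
  unfold DS
  refine Differentiable.fun_sum fun n hn => ?_
  rw [mem_Icc] at hn
  refine (differentiable_const _).mul ?_
  refine Differentiable.const_cpow (by fun_prop) (Or.inl ?_)
  exact_mod_cast (by omega : n ≠ 0)

lemma DS_norm_le {g : ℕ → ℝ} (hg0 : ∀ n, 0 ≤ g n) (hg1 : ∀ n, g n ≤ 1) (N : ℕ) {s : ℂ}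
    (hs : 0 ≤ s.re) : ‖DS g N s‖ ≤ N := by
  unfold DS
  refine (norm_sum_le _ _).trans ?_
  calc ∑ n ∈ Icc 1 N, ‖(g n : ℂ) * (n : ℂ) ^ (-s)‖ ≤ ∑ n ∈ Icc 1 N, (1:ℝ) := by
        refine sum_le_sum fun n hn => ?_
        rw [mem_Icc] at hn
        rw [norm_mul, Complex.norm_real, Real.norm_of_nonneg (hg0 n),
          Complex.norm_natCast_cpow_of_pos (by omega)]
        have h1 : (n:ℝ) ^ (-s).re ≤ 1 :=
          Real.rpow_le_one_of_one_le_of_nonpos (by exact_mod_cast hn.1) (by simpa using hs)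
        calc g n * (n:ℝ) ^ (-s).re ≤ 1 * 1 := mul_le_mul (hg1 n) h1 (by positivity) zero_le_one
          _ = 1 := one_mul 1
    _ = N := by simp

lemma tr_pow_eq (A : ArithmeticFunction ℝ) (X : ℝ) (k : ℕ) :
    ∀ n : ℕ, (n : ℝ) ≤ X → (tr A X ^ k) n = (A ^ k) n := by
  induction k with
  | zero => intro n _; simp
  | succ k ih =>
    intro n hn
    rw [pow_succ, pow_succ, ArithmeticFunction.mul_apply, ArithmeticFunction.mul_apply]
    refine sum_congr rfl fun x hx => ?_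
    rw [Nat.mem_divisorsAntidiagonal] at hx
    have h1 : x.1 ≤ n := Nat.le_of_dvd (Nat.pos_of_ne_zero hx.2) ⟨x.2, hx.1.symm⟩
    have h2 : x.2 ≤ n := Nat.le_of_dvd (Nat.pos_of_ne_zero hx.2) ⟨x.1, by rw [mul_comm]; exact hx.1.symm⟩
    have h1' : (x.1:ℝ) ≤ X := le_trans (by exact_mod_cast h1) hn
    have h2' : (x.2:ℝ) ≤ X := le_trans (by exact_mod_cast h2) hn
    rw [ih x.1 h1', tr_apply, if_pos h2']

lemma dA_pow_one {v : ℕ} (hv : 1 ≤ v) {n : ℕ} (hn : 1 ≤ n) : (dA (1 / (v:ℝ)) ^ v) n = 1 := by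
  have hv0 : (v:ℝ) ≠ 0 := by exact_mod_cast (by omega : v ≠ 0)
  rw [dA_pow, show (v:ℝ) * (1 / v) = 1 by field_simp, dA_one]
  unfold zR
  rw [ArithmeticFunction.natCoe_apply, ArithmeticFunction.zeta_apply, if_neg (by omega)]
  simp

/-- `ζ` minus the `v`-th power of the truncation of `ζ^{1/v}`, far to the right -/
theorem zeta_sub_pow_le {v N : ℕ} (hv : 1 ≤ v) (hN : 1 ≤ N) {z : ℂ} (hz : 2 ≤ z.re) :
    ‖riemannZeta z - DS (dv (1 / (v:ℝ))) N z ^ v‖ * (N:ℝ) ^ z.re ≤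
      (N:ℝ) ^ 2 * ∑' n : ℕ, 1 / (n : ℝ) ^ 2 := by
  have hN0 : (0:ℝ) < N := by exact_mod_cast hN
  have hN1 : (1:ℝ) ≤ N := by exact_mod_cast hN
  have hκ : (0:ℝ) ≤ 1 / (v:ℝ) := by positivity
  set A := tr (dA (1 / (v:ℝ))) (N:ℝ) with hA
  have hAs : ∀ n : ℕ, (N:ℝ) < n → A n = 0 := fun n hn => tr_supp _ _ _ hn
  have e1 : DS (dv (1 / (v:ℝ))) N z = Dp A N z := by
    rw [DS_eq_Dp]
    unfold Dp
    refine sum_congr rfl fun n hn => ?_
    rw [mem_Icc, Nat.floor_natCast] at hn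
    rw [hA, tr_apply, if_pos (by exact_mod_cast hn.2), dA_apply]
  obtain ⟨h1, h2⟩ := Dp_pow A N hN1 hAs z v
  have h3 := Dp_hasSum (A ^ v) ((N:ℝ) ^ v) h1 z
  rw [h2, ← e1] at h3
  have h4 := LSeriesHasSum_one (s := z) (by linarith)
  have h5 := HasSum.sub h4 h3
  have hc0 : ∀ n, 0 ≤ (A ^ v) n := fun n => tr_pow_nonneg hκ _ v n
  have hc1 : ∀ n, (A ^ v) n ≤ 1 := by
    intro n
    have := tr_pow_le hκ (N:ℝ) v n
    refine this.trans ?_
    have hv0 : (v:ℝ) ≠ 0 := by exact_mod_cast (by omega : v ≠ 0)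
    rw [show (v:ℝ) * (1 / v) = 1 by field_simp]
    exact dv_le_one zero_le_one le_rfl n
  have hs2 : Summable fun n : ℕ => 1 / (n : ℝ) ^ 2 := Real.summable_one_div_nat_pow.mpr (by norm_num)
  have h6 : ‖riemannZeta z - DS (dv (1 / (v:ℝ))) N z ^ v‖ ≤
      ∑' n : ℕ, ((N:ℝ) ^ 2 * (N:ℝ) ^ (-z.re)) * (1 / (n : ℝ) ^ 2) := by
    rw [← h5.tsum_eq]
    refine tsum_of_norm_bounded (hs2.mul_left _).hasSum fun n => ?_
    rcases Nat.eq_zero_or_pos n with hn | hn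
    · subst hn
      rw [LSeries.term_zero, LSeries.term_zero, sub_zero, norm_zero]
      positivity
    · rw [LSeries.term_of_ne_zero (by omega), LSeries.term_of_ne_zero (by omega), toC_apply,
        ← sub_div, norm_div, Complex.norm_natCast_cpow_of_pos hn]
      have hn0 : (0:ℝ) < n := by exact_mod_cast hn
      by_cases hnN : n ≤ N
      · have h7 : (A ^ v) n = 1 := by
          rw [hA, tr_pow_eq _ _ _ n (by exact_mod_cast hnN), dA_pow_one hv hn]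
        rw [h7]
        simp only [Pi.one_apply, Complex.ofReal_one, sub_self, norm_zero, zero_div]
        positivity
      · push Not at hnN
        have hnN' : (N:ℝ) < n := by exact_mod_cast hnN
        have h8 : ‖(1 : ℕ → ℂ) n - ((A ^ v) n : ℂ)‖ ≤ 1 := by
          rw [Pi.one_apply, ← Complex.ofReal_one, ← Complex.ofReal_sub, Complex.norm_real,
            Real.norm_eq_abs, abs_of_nonneg (by linarith [hc1 n])]
          linarith [hc0 n]
        have h9 : (n:ℝ) ^ z.re = (n:ℝ) ^ 2 * (n:ℝ) ^ (z.re - 2) := by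
          rw [← Real.rpow_natCast, ← Real.rpow_add hn0]
          congr 1; push_cast; ring
        have h10 : (N:ℝ) ^ 2 * (N:ℝ) ^ (-z.re) = ((N:ℝ) ^ (z.re - 2))⁻¹ := by
          rw [← Real.rpow_natCast, ← Real.rpow_add hN0, ← Real.rpow_neg hN0.le]
          congr 1; push_cast; ring
        rw [h9, h10]
        have h11 : (N:ℝ) ^ (z.re - 2) ≤ (n:ℝ) ^ (z.re - 2) :=
          Real.rpow_le_rpow hN0.le hnN'.le (by linarith)
        have h12 : 0 < (N:ℝ) ^ (z.re - 2) := Real.rpow_pos_of_pos hN0 _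
        calc ‖(1 : ℕ → ℂ) n - ((A ^ v) n : ℂ)‖ / ((n:ℝ) ^ 2 * (n:ℝ) ^ (z.re - 2)) ≤
            1 / ((n:ℝ) ^ 2 * (N:ℝ) ^ (z.re - 2)) := by gcongr
          _ = _ := by rw [one_div, mul_inv]; ring
  rw [tsum_mul_left] at h6
  have h13 : (N:ℝ) ^ (-z.re) * (N:ℝ) ^ z.re = 1 := by
    rw [← Real.rpow_add hN0]; simp
  have h14 : 0 ≤ (N:ℝ) ^ z.re := by positivity
  calc ‖riemannZeta z - DS (dv (1 / (v:ℝ))) N z ^ v‖ * (N:ℝ) ^ z.re ≤
      ((N:ℝ) ^ 2 * (N:ℝ) ^ (-z.re) * ∑' n : ℕ, 1 / (n : ℝ) ^ 2) * (N:ℝ) ^ z.re :=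
        mul_le_mul_of_nonneg_right h6 h14
    _ = (N:ℝ) ^ 2 * (∑' n : ℕ, 1 / (n : ℝ) ^ 2) * ((N:ℝ) ^ (-z.re) * (N:ℝ) ^ z.re) := by ring
    _ = _ := by rw [h13, mul_one]

end Pool.Agent.W184
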