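import Pool.Agent.W184.Const

set_option autoImplicit false

/-! Uniform constants for the exponents `2/v`, `v ≥ 3`. -/

namespace Pool.Agent.W184

open MeasureTheory Filter Topology Pool.Agent.H306R2

lemma hI_lower {s a : ℝ} (hs : 0 < s) (ha : 1 ≤ a) : a ^ (-s) / (1 + s) ≤ hI s a := by
  have ha0 : 0 < a := by linarith
  have ha1 : a⁻¹ ≤ 1 := inv_le_one_of_one_le₀ ha
  have hai : 0 < a⁻¹ := by positivity
  have i1 : IntervalIntegrable (fun x : ℝ => s * x ^ (s - 1) * Real.exp (-(a * x))) volume 0 1 :=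
    (rpow_ii hs 0 1).mul_continuousOn (by fun_prop)
  have i2 : IntervalIntegrable (fun x : ℝ => s * x ^ (s - 1) * Real.exp (-(a * x))) volume 0 a⁻¹ :=
    (rpow_ii hs 0 _).mul_continuousOn (by fun_prop)
  have i3 : IntervalIntegrable (fun x : ℝ => s * x ^ (s - 1) * Real.exp (-(a * x))) volume a⁻¹ 1 :=
    (rpow_ii hs _ 1).mul_continuousOn (by fun_prop)
  have j1 : IntervalIntegrable (fun x : ℝ => s * x ^ (s - 1)) volume 0 a⁻¹ := rpow_ii hs _ _
  have j2 : IntervalIntegrable (fun x : ℝ => a * (s * x ^ (s - 1) * x)) volume 0 a⁻¹ :=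
    ((rpow_ii hs 0 _).mul_continuousOn (by fun_prop)).const_mul a
  have h1 : ∫ x in (0:ℝ)..a⁻¹, s * x ^ (s - 1) * Real.exp (-(a * x)) ≤ hI s a := by
    unfold hI
    rw [← intervalIntegral.integral_add_adjacent_intervals i2 i3]
    have : 0 ≤ ∫ x in a⁻¹..1, s * x ^ (s - 1) * Real.exp (-(a * x)) :=
      intervalIntegral.integral_nonneg ha1 fun x hx => by
        have : 0 ≤ x := hai.le.trans hx.1
        positivity
    linarith
  refine le_trans ?_ h1
  have h2 : (∫ x in (0:ℝ)..a⁻¹, (s * x ^ (s - 1) - a * (s * x ^ (s - 1) * x))) ≤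
      ∫ x in (0:ℝ)..a⁻¹, s * x ^ (s - 1) * Real.exp (-(a * x)) := by
    refine intervalIntegral.integral_mono_on hai.le (j1.sub j2) i2 fun x hx => ?_
    have h3 := Real.add_one_le_exp (-(a * x))
    have h4 : 0 ≤ s * x ^ (s - 1) := mul_nonneg hs.le (Real.rpow_nonneg hx.1 _)
    calc s * x ^ (s - 1) - a * (s * x ^ (s - 1) * x) = s * x ^ (s - 1) * (-(a * x) + 1) := by ring
      _ ≤ _ := mul_le_mul_of_nonneg_left h3 h4
  refine le_trans (le_of_eq ?_) h2
  rw [intervalIntegral.integral_sub j1 j2, intervalIntegral.integral_const_mul,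
    intervalIntegral.integral_const_mul, integral_rpow (Or.inl (by linarith))]
  have h5 : ∫ x in (0:ℝ)..a⁻¹, s * x ^ (s - 1) * x = s * ((a⁻¹) ^ (s + 1) / (s + 1)) := by
    have e : ∫ x in (0:ℝ)..a⁻¹, s * x ^ (s - 1) * x = ∫ x in (0:ℝ)..a⁻¹, s * x ^ s := by
      rw [intervalIntegral.integral_of_le hai.le, intervalIntegral.integral_of_le hai.le]
      refine setIntegral_congr_fun measurableSet_Ioc fun x hx => ?_
      have hx0 : 0 < x := hx.1
      have : x ^ s = x ^ (s - 1) * x := by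
        rw [← Real.rpow_add_one hx0.ne']; congr 1; ring
      rw [this]; ring
    rw [e, intervalIntegral.integral_const_mul, integral_rpow (Or.inl (by linarith)),
      Real.zero_rpow (by linarith), sub_zero]
  rw [h5, show s - 1 + 1 = s by ring, Real.zero_rpow hs.ne', sub_zero, Real.inv_rpow ha0.le,
    Real.inv_rpow ha0.le, Real.rpow_add_one ha0.ne', Real.rpow_neg ha0.le]
  have h6 : 0 < a ^ s := by positivity
  field_simp
  ring

lemma four_v : ∀ v : ℕ, 3 ≤ v → 4 * (v:ℝ) ≤ (13183 / 10000 : ℝ) ^ (v ^ 2) := by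
  intro v hv
  induction v, hv using Nat.le_induction with
  | base => norm_num
  | succ v hv ih =>
    have h1 : (13183 / 10000 : ℝ) ^ ((v + 1) ^ 2) = (13183 / 10000 : ℝ) ^ (v ^ 2) *
        (13183 / 10000 : ℝ) ^ (2 * v + 1) := by
      rw [← pow_add]; congr 1; ring
    have h2 : (2:ℝ) ≤ (13183 / 10000 : ℝ) ^ (2 * v + 1) := by
      calc (2:ℝ) ≤ (13183 / 10000 : ℝ) ^ 7 := by norm_num
        _ ≤ _ := pow_le_pow_right₀ (by norm_num) (by omega)
    have hv3 : (3:ℝ) ≤ v := by exact_mod_cast hv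
    rw [h1]
    push_cast
    nlinarith

theorem fam_lower {v : ℕ} (hv : 3 ≤ v) : ∀ᶠ T : ℝ in atTop,
    (163 / 250) * aF (1 / (v:ℝ)) / Real.Gamma ((1 / (v:ℝ)) ^ 2 + 1) * MM v T ≤
      ∫ t in (0:ℝ)..T, zn (1 / 2) t ^ (2 / (v:ℝ)) := by
  have hv0 : (0:ℝ) < v := by exact_mod_cast (by omega : 0 < v)
  have hv3 : (3:ℝ) ≤ v := by exact_mod_cast hv
  refine lower' (δ := 2 * v) (by omega) (by positivity) ?_
  rw [show 2 * (2 * (v:ℝ)) / v = 4 by field_simp; norm_num]
  have h2 := exp_up (u := 4) (by norm_num) 18 (by decide)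
  simp only [Finset.sum_range_succ, Finset.sum_range_zero, Nat.factorial] at h2
  norm_num at h2
  set s : ℝ := (1 / (v:ℝ)) ^ 2 with hs
  have hs0 : 0 < s := by positivity
  have hs9 : s ≤ 1 / 9 := by
    rw [hs, div_pow, one_pow]
    exact one_div_le_one_div_of_le (by norm_num) (by nlinarith)
  have h1 := hI_lower (s := s) (a := 2 * (2 * (v:ℝ))) hs0 (by linarith)
  have h3 : (2 * (2 * (v:ℝ))) ^ s ≤ 13183 / 10000 := by
    have h4 := four_v v hv
    rw [show 2 * (2 * (v:ℝ)) = 4 * v by ring]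
    calc (4 * (v:ℝ)) ^ s ≤ ((13183 / 10000 : ℝ) ^ (v ^ 2)) ^ s :=
          Real.rpow_le_rpow (by positivity) h4 hs0.le
      _ = 13183 / 10000 := by
          rw [← Real.rpow_natCast, ← Real.rpow_mul (by norm_num), hs]
          push_cast
          rw [show (v:ℝ) ^ 2 * (1 / v) ^ 2 = 1 by field_simp, Real.rpow_one]
  have h5 : (10000 / 13183 : ℝ) ≤ (2 * (2 * (v:ℝ))) ^ (-s) := by
    rw [Real.rpow_neg (by positivity)]
    have : 0 < (2 * (2 * (v:ℝ))) ^ s := by positivity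
    calc (10000 / 13183 : ℝ) = (13183 / 10000)⁻¹ := by norm_num
      _ ≤ _ := inv_anti₀ this h3
  have h6 : (10000 / 13183 : ℝ) * (9 / 10) ≤ (2 * (2 * (v:ℝ))) ^ (-s) / (1 + s) := by
    rw [le_div_iff₀ (by linarith)]
    nlinarith
  have h7 := h6.trans h1
  norm_num at h7 ⊢
  linarith

theorem fam_upper {v : ℕ} (hv : 2 ≤ v) : ∀ᶠ T : ℝ in atTop,
    ∫ t in (0:ℝ)..T, zn (1 / 2) t ^ (2 / (v:ℝ)) ≤
    (483 / 100) * aF (1 / (v:ℝ)) / Real.Gamma ((1 / (v:ℝ)) ^ 2 + 1) * MM v T := by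
  have hv0 : (0:ℝ) < v := by exact_mod_cast (by omega : 0 < v)
  refine upper' (δ := 22 / 25 * v) hv (by positivity) ?_
  rw [show 22 / 25 * (v:ℝ) / v = 22 / 25 by field_simp]
  have h1 := hI_le_one (s := (1 / (v:ℝ)) ^ 2) (a := 2 * (22 / 25 * (v:ℝ))) (by positivity) (by positivity)
  have h2 := exp_up (u := 22 / 25) (by norm_num) 6 (by decide)
  have h3 := exp_lo (u := 22 / 25) (by norm_num) 7 (by decide)
  simp only [Finset.sum_range_succ, Finset.sum_range_zero, Nat.factorial] at h2 h3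
  norm_num at h2 h3
  have h4 : Real.exp (22 / 25) = (Real.exp (-(22 / 25)))⁻¹ := by
    rw [Real.exp_neg, inv_inv]
  rw [h4]
  set q := Real.exp (-(22 / 25)) with hq
  have hq0 : 0 < q := Real.exp_pos _
  have a1 : (41 / 100 : ℝ) < q := by linarith
  have a2 : q < 21 / 50 := by linarith
  have key : 1 + q ^ 2 < 483 / 100 * (q - q ^ 2) := by
    nlinarith [mul_pos (sub_pos.mpr a1) (sub_pos.mpr a2)]
  have e1 : q⁻¹ * hI ((1 / (v:ℝ)) ^ 2) (2 * (22 / 25 * (v:ℝ))) + q ≤ (1 + q ^ 2) / q := by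
    have : q⁻¹ * hI ((1 / (v:ℝ)) ^ 2) (2 * (22 / 25 * (v:ℝ))) ≤ q⁻¹ * 1 :=
      mul_le_mul_of_nonneg_left h1 (by positivity)
    calc q⁻¹ * hI ((1 / (v:ℝ)) ^ 2) (2 * (22 / 25 * (v:ℝ))) + q ≤ q⁻¹ * 1 + q := by linarith
      _ = _ := by field_simp
  refine lt_of_le_of_lt e1 ?_
  rw [div_lt_iff₀ hq0]
  calc 1 + q ^ 2 < 483 / 100 * (q - q ^ 2) := key
    _ = _ := by ring

/-- shifting the interval by a constant -/
lemma shift_ev {v : ℕ} (hv : 2 ≤ v) (x : ℝ) {η : ℝ} (hη : 0 < η) : ∀ᶠ T : ℝ in atTop,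
    |(∫ t in x..(T + x), zn (1 / 2) t ^ (2 / (v:ℝ))) - ∫ t in (0:ℝ)..T, zn (1 / 2) t ^ (2 / (v:ℝ))| ≤
      η * MM v T := by
  obtain ⟨-, -, k3, k4⟩ := kv hv
  have hc := zp_cont (σ := 1 / 2) (p := 2 / (v:ℝ)) (by norm_num) k3
  have hCT := CT_le (v := v) (by omega) (72 * |x|) hη
  filter_upwards [hCT, eventually_ge_atTop 1, eventually_ge_atTop |x|] with T h1 h2 h3
  refine le_trans ?_ h1
  have h4 := intervalIntegral.integral_add_adjacent_intervals (hc.intervalIntegrable 0 x)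
    (hc.intervalIntegrable x (T + x)) (μ := volume)
  have h5 := intervalIntegral.integral_add_adjacent_intervals (hc.intervalIntegrable 0 T)
    (hc.intervalIntegrable T (T + x)) (μ := volume)
  have hx := abs_le.mp h3
  have hT58 : T ^ ((5:ℝ)/8) ≤ T := rpow_le_self_of_one_le' h2 (by norm_num)
  have hb : ∀ y : ℝ, |y| ≤ 2 * T → ‖zn (1 / 2) y ^ (2 / (v:ℝ))‖ ≤ 36 * T := by
    intro y hy
    rw [Real.norm_of_nonneg (Real.rpow_nonneg (zn_nonneg _ _) _)]
    exact (zp_le2 k3 k4 (σ := 1 / 2) (by norm_num) (by norm_num) h2 hy).trans (by linarith)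
  have h6 : |∫ t in (0:ℝ)..x, zn (1 / 2) t ^ (2 / (v:ℝ))| ≤ 36 * T * |x| := by
    have := intervalIntegral.norm_integral_le_of_norm_le_const (a := (0:ℝ)) (b := x)
      (C := 36 * T) (f := fun t => zn (1 / 2) t ^ (2 / (v:ℝ))) (fun y hy => hb y (by
        rcases Set.mem_uIoc.mp hy with h | h
        · rw [abs_le]; constructor <;> linarith [h.1, h.2]
        · rw [abs_le]; constructor <;> linarith [h.1, h.2]))
    rwa [Real.norm_eq_abs, sub_zero] at this
  have h7 : |∫ t in T..(T + x), zn (1 / 2) t ^ (2 / (v:ℝ))| ≤ 36 * T * |x| := by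
    have := intervalIntegral.norm_integral_le_of_norm_le_const (a := T) (b := T + x)
      (C := 36 * T) (f := fun t => zn (1 / 2) t ^ (2 / (v:ℝ))) (fun y hy => hb y (by
        rcases Set.mem_uIoc.mp hy with h | h
        · rw [abs_le]; constructor <;> linarith [h.1, h.2]
        · rw [abs_le]; constructor <;> linarith [h.1, h.2]))
    rwa [Real.norm_eq_abs, show T + x - T = x by ring] at this
  rw [abs_le] at h6 h7 ⊢
  constructor <;> linarith [h6.1, h6.2, h7.1, h7.2]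

end Pool.Agent.W184
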