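import Pool.Agent.W184.Close

set_option autoImplicit false

/-! The two-sided bounds. -/

namespace Pool.Agent.W184

open MeasureTheory Filter Topology Pool.Agent.H306R2

theorem upper {v : ℕ} (hv : 2 ≤ v) {δ : ℝ} (hδ : 0 < δ) {C : ℝ}
    (hC : aF (1 / (v:ℝ)) * (Real.exp (δ / v) * gI (1 / (v:ℝ)) δ +
      Real.exp (-(δ / v)) * gI (1 / (v:ℝ)) 0) / (1 - Real.exp (-(δ / v))) < C) :
    ∀ᶠ T : ℝ in atTop, ∫ t in (0:ℝ)..T, zn (1 / 2) t ^ (2 / (v:ℝ)) ≤ C * MM v T := by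
  have hv0 : (0:ℝ) < v := by exact_mod_cast (by omega : 0 < v)
  set a : ℝ := aF (1 / (v:ℝ)) * gI (1 / (v:ℝ)) δ with ha
  set b : ℝ := aF (1 / (v:ℝ)) * gI (1 / (v:ℝ)) 0 with hb
  set E : ℝ := Real.exp (2 / (v:ℝ) * δ / 2) with hE
  set E2 : ℝ := Real.exp (-(2 / (v:ℝ) * δ)) with hE2
  have hE0 : 0 < E := Real.exp_pos _
  have hE20 : 0 < E2 := Real.exp_pos _
  have hEe : E = Real.exp (δ / v) := by rw [hE]; congr 1; ring
  have hq : E * E2 = Real.exp (-(δ / v)) := by rw [hE, hE2, ← Real.exp_add]; congr 1; ring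
  have hq1 : E * E2 < 1 := by
    rw [hq, Real.exp_lt_one_iff]
    have : 0 < δ / v := by positivity
    linarith
  set Φ : ℝ → ℝ := fun η => (E + η) * (a + 2 * η + (E2 + η) * (b + 2 * η)) /
    (1 - (E + η) * (E2 + η)) with hΦ
  have hΦ0 : Φ 0 < C := by
    refine lt_of_eq_of_lt ?_ hC
    simp only [hΦ]
    rw [← hq, ← hEe]
    simp only [ha, hb]
    ring
  have hcont : ContinuousAt Φ 0 := by
    simp only [hΦ]
    refine ContinuousAt.div (by fun_prop) (by fun_prop) ?_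
    simp only [add_zero]
    linarith
  have hcont2 : ContinuousAt (fun η : ℝ => (E + η) * (E2 + η)) 0 := by fun_prop
  have h1 : ∀ᶠ η in 𝓝[>] (0:ℝ), Φ η < C :=
    (hcont.eventually (gt_mem_nhds hΦ0)).filter_mono nhdsWithin_le_nhds
  have h2 : ∀ᶠ η in 𝓝[>] (0:ℝ), (E + η) * (E2 + η) < 1 := by
    refine (hcont2.eventually (gt_mem_nhds ?_)).filter_mono nhdsWithin_le_nhds
    simpa using hq1
  obtain ⟨η, hη1, hη2, hη⟩ := (h1.and (h2.and self_mem_nhdsWithin)).exists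
  have hη0 : 0 < η := hη
  have hS0 := S_ev hv (le_refl (0:ℝ)) hη0
  simp only [zero_div, add_zero] at hS0
  filter_upwards [refl_ev hv hδ hη0, half_ev_S hv hδ hη0, S_ev hv hδ.le hη0, hS0,
    eventually_gt_atTop 1, (delta_tendsto δ).eventually (gt_mem_nhds (show (0:ℝ) < 1/8 by norm_num))]
    with T r1 r2 r3 r4 r5 r6
  obtain ⟨-, -, k3, k4⟩ := kv hv
  have hT0 : 0 < T := by linarith
  have hM := MM_pos (v := v) r5
  have hL := Real.log_pos r5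
  set Δ := δ / Real.log T with hΔ
  have hΔ0 : 0 < Δ := by positivity
  have cz := zp_cont (σ := 1 / 2 + Δ) (p := 2 / (v:ℝ)) (by linarith) k3
  have cz0 := zp_cont (σ := 1 / 2) (p := 2 / (v:ℝ)) (by norm_num) k3
  have cq := qn_cont (QQ_diff (v := v) T) (p := 2 / (v:ℝ)) (σ := 1 / 2 + Δ) k3 (by linarith)
  have cq0 := qn_cont (QQ_diff (v := v) T) (p := 2 / (v:ℝ)) (σ := 1 / 2) k3 (by norm_num)
  have t1 := int_add_le cz (sn_cont T (1 / 2 + Δ)) cq hT0.le (tri1 hv T (1 / 2 + Δ))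
  have t2 := int_add_le cq0 cz0 (sn_cont T (1 / 2)) hT0.le (tri2 hv T (1 / 2))
  set Z0 := ∫ t in (0:ℝ)..T, zn (1 / 2) t ^ (2 / (v:ℝ))
  set Z1 := ∫ t in (0:ℝ)..T, zn (1 / 2 + Δ) t ^ (2 / (v:ℝ))
  set D0 := ∫ t in (0:ℝ)..T, qn (QQ v T) (2 / (v:ℝ)) (1 / 2) t
  set D1 := ∫ t in (0:ℝ)..T, qn (QQ v T) (2 / (v:ℝ)) (1 / 2 + Δ) t
  set S0 := ∫ t in (0:ℝ)..T, sn v T (1 / 2) t
  set S1 := ∫ t in (0:ℝ)..T, sn v T (1 / 2 + Δ) t
  set M := MM v T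
  have s1 : D1 ≤ (E2 + η) * (Z0 + (b + 2 * η) * M) := by
    refine r2.trans (mul_le_mul_of_nonneg_left ?_ (by positivity))
    linarith [r4.1]
  have s2 : Z1 + η * M ≤ (a + 2 * η) * M + (E2 + η) * (Z0 + (b + 2 * η) * M) := by
    linarith [r3.1]
  have s3 : Z0 ≤ (E + η) * ((a + 2 * η) * M + (E2 + η) * (Z0 + (b + 2 * η) * M)) :=
    r1.trans (mul_le_mul_of_nonneg_left s2 (by positivity))
  have s4 : Z0 * (1 - (E + η) * (E2 + η)) ≤ (E + η) * (a + 2 * η + (E2 + η) * (b + 2 * η)) * M := by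
    nlinarith
  have s5 : 0 < 1 - (E + η) * (E2 + η) := by linarith
  have s6 : Z0 ≤ Φ η * M := by
    simp only [hΦ]
    rw [div_mul_eq_mul_div, le_div_iff₀ s5]
    exact s4
  exact s6.trans (mul_le_mul_of_nonneg_right hη1.le hM.le)

theorem lower {v : ℕ} (hv : 2 ≤ v) {δ : ℝ} (hδ : 0 < δ) {c : ℝ}
    (hc : c < aF (1 / (v:ℝ)) * (gI (1 / (v:ℝ)) δ - Real.exp (-(2 * δ / v)) * gI (1 / (v:ℝ)) 0) /
      (1 + Real.exp (-(2 * δ / v)))) :
    ∀ᶠ T : ℝ in atTop, c * MM v T ≤ ∫ t in (0:ℝ)..T, zn (1 / 2) t ^ (2 / (v:ℝ)) := by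
  have hv0 : (0:ℝ) < v := by exact_mod_cast (by omega : 0 < v)
  set a : ℝ := aF (1 / (v:ℝ)) * gI (1 / (v:ℝ)) δ with ha
  set b : ℝ := aF (1 / (v:ℝ)) * gI (1 / (v:ℝ)) 0 with hb
  set E2 : ℝ := Real.exp (-(2 / (v:ℝ) * δ)) with hE2
  have hE20 : 0 < E2 := Real.exp_pos _
  have hEe : E2 = Real.exp (-(2 * δ / v)) := by rw [hE2]; congr 1; ring
  set Ψ : ℝ → ℝ := fun η => (a - η - (1 + η) * η - (E2 + η) * (b + 2 * η)) / (1 + η + (E2 + η)) with hΨ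
  have hΨ0 : c < Ψ 0 := by
    refine lt_of_lt_of_eq hc ?_
    simp only [hΨ]
    rw [← hEe]
    simp only [ha, hb]
    ring
  have hcont : ContinuousAt Ψ 0 := by
    simp only [hΨ]
    refine ContinuousAt.div (by fun_prop) (by fun_prop) ?_
    simp only [add_zero]
    positivity
  have h1 : ∀ᶠ η in 𝓝[>] (0:ℝ), c < Ψ η :=
    (hcont.eventually (lt_mem_nhds hΨ0)).filter_mono nhdsWithin_le_nhds
  obtain ⟨η, hη1, hη⟩ := (h1.and self_mem_nhdsWithin).exists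
  have hη0 : 0 < η := hη
  have hS0 := S_ev hv (le_refl (0:ℝ)) hη0
  simp only [zero_div, add_zero] at hS0
  filter_upwards [half_ev_0 hv hδ hη0, half_ev_S hv hδ hη0, S_ev hv hδ.le hη0, hS0,
    eventually_gt_atTop 1, (delta_tendsto δ).eventually (gt_mem_nhds (show (0:ℝ) < 1/8 by norm_num))]
    with T r1 r2 r3 r4 r5 r6
  obtain ⟨-, -, k3, k4⟩ := kv hv
  have hT0 : 0 < T := by linarith
  have hM := MM_pos (v := v) r5
  have hL := Real.log_pos r5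
  set Δ := δ / Real.log T with hΔ
  have hΔ0 : 0 < Δ := by positivity
  have cz := zp_cont (σ := 1 / 2 + Δ) (p := 2 / (v:ℝ)) (by linarith) k3
  have cz0 := zp_cont (σ := 1 / 2) (p := 2 / (v:ℝ)) (by norm_num) k3
  have cq := qn_cont (QQ_diff (v := v) T) (p := 2 / (v:ℝ)) (σ := 1 / 2 + Δ) k3 (by linarith)
  have cq0 := qn_cont (QQ_diff (v := v) T) (p := 2 / (v:ℝ)) (σ := 1 / 2) k3 (by norm_num)
  have t1 := int_add_le (sn_cont T (1 / 2 + Δ)) cz cq hT0.le (tri3 hv T (1 / 2 + Δ))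
  have t2 := int_add_le cq0 cz0 (sn_cont T (1 / 2)) hT0.le (tri2 hv T (1 / 2))
  set Z0 := ∫ t in (0:ℝ)..T, zn (1 / 2) t ^ (2 / (v:ℝ))
  set Z1 := ∫ t in (0:ℝ)..T, zn (1 / 2 + Δ) t ^ (2 / (v:ℝ))
  set D0 := ∫ t in (0:ℝ)..T, qn (QQ v T) (2 / (v:ℝ)) (1 / 2) t
  set D1 := ∫ t in (0:ℝ)..T, qn (QQ v T) (2 / (v:ℝ)) (1 / 2 + Δ) t
  set S0 := ∫ t in (0:ℝ)..T, sn v T (1 / 2) t
  set S1 := ∫ t in (0:ℝ)..T, sn v T (1 / 2 + Δ) t
  set M := MM v T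
  have s1 : D1 ≤ (E2 + η) * (Z0 + (b + 2 * η) * M) := by
    refine r2.trans (mul_le_mul_of_nonneg_left ?_ (by positivity))
    linarith [r4.1]
  have s4 : (a - η - (1 + η) * η - (E2 + η) * (b + 2 * η)) * M ≤ Z0 * (1 + η + (E2 + η)) := by
    nlinarith [r3.2]
  have s5 : 0 < 1 + η + (E2 + η) := by positivity
  have s6 : Ψ η * M ≤ Z0 := by
    simp only [hΨ]
    rw [div_mul_eq_mul_div, div_le_iff₀ s5]
    exact s4
  exact (mul_le_mul_of_nonneg_right hη1.le hM.le).trans s6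

end Pool.Agent.W184
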