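import Pool.Agent.W184.Sub

set_option autoImplicit false

/-! Half-plane and strip inequalities for `‖f‖ ^ p`. -/

namespace Pool.Agent.W184

open Metric Real Filter MeasureTheory Topology Set

lemma cayley_re {z : ℂ} (hz : ‖z‖ < 1) : 0 < ((1 + z) / (1 - z)).re := by
  have h1 : (1 : ℂ) - z ≠ 0 := by
    intro h
    have : z = 1 := by linear_combination -h
    rw [this, norm_one] at hz
    exact lt_irrefl _ hz
  have h2 : 0 < Complex.normSq (1 - z) := Complex.normSq_pos.mpr h1
  rw [Complex.div_re, ← add_div]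
  refine div_pos ?_ h2
  have h3 : z.re ^ 2 + z.im ^ 2 < 1 := by
    have h4 := Complex.sq_norm z
    rw [Complex.normSq_apply] at h4
    have h5 : ‖z‖ ^ 2 < 1 := by nlinarith [norm_nonneg z]
    nlinarith
  simp only [Complex.add_re, Complex.one_re, Complex.sub_re, Complex.add_im, Complex.one_im,
    Complex.sub_im]
  nlinarith

lemma cayley_boundary {θ : ℝ} (h0 : 0 < θ) (h1 : θ < 2 * π) :
    (1 + circleMap 0 1 θ) / (1 - circleMap 0 1 θ) =
      ((Real.cos (θ / 2) / Real.sin (θ / 2) : ℝ) : ℂ) * Complex.I := by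
  have hs : 0 < Real.sin (θ / 2) := Real.sin_pos_of_pos_of_lt_pi (by linarith) (by linarith)
  have hs' : (Complex.sin (θ / 2)) ≠ 0 := by
    have : ((Real.sin (θ / 2) : ℝ) : ℂ) ≠ 0 := by exact_mod_cast hs.ne'
    push_cast at this; exact this
  have e1 : circleMap 0 1 θ = Complex.cos θ + Complex.sin θ * Complex.I := by
    rw [circleMap]
    simp [Complex.exp_mul_I]
  have e2 : Complex.cos θ = 1 - 2 * Complex.sin (θ / 2) ^ 2 := by
    have := Complex.cos_two_mul (θ / 2 : ℂ)
    rw [show (2 : ℂ) * (θ / 2) = θ by ring] at this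
    rw [this]
    have h5 := Complex.sin_sq_add_cos_sq (θ / 2 : ℂ)
    linear_combination 2 * h5
  have e3 : Complex.sin θ = 2 * Complex.sin (θ / 2) * Complex.cos (θ / 2) := by
    have := Complex.sin_two_mul (θ / 2 : ℂ)
    rwa [show (2 : ℂ) * (θ / 2) = θ by ring] at this
  have h5 := Complex.sin_sq_add_cos_sq (θ / 2 : ℂ)
  have e4 : (1 : ℂ) - circleMap 0 1 θ =
      2 * Complex.sin (θ / 2) * (Complex.sin (θ / 2) - Complex.cos (θ / 2) * Complex.I) := by
    rw [e1, e2, e3]; ring
  have e5 : (1 : ℂ) + circleMap 0 1 θ =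
      2 * Complex.cos (θ / 2) * (Complex.cos (θ / 2) + Complex.sin (θ / 2) * Complex.I) := by
    rw [e1, e2, e3]
    linear_combination (-2) * h5
  have e6 : Complex.sin (θ / 2) - Complex.cos (θ / 2) * Complex.I ≠ 0 := by
    intro h
    have h6 : (Complex.sin (θ / 2) - Complex.cos (θ / 2) * Complex.I) *
        (Complex.sin (θ / 2) + Complex.cos (θ / 2) * Complex.I) = 1 := by
      linear_combination h5 - Complex.cos (θ / 2) ^ 2 * Complex.I_sq
    rw [h, zero_mul] at h6
    exact zero_ne_one h6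
  rw [e4, e5, div_eq_iff (by
    refine mul_ne_zero (mul_ne_zero two_ne_zero hs') e6)]
  push_cast
  field_simp
  linear_combination (Complex.cos (θ / 2)) * Complex.cos (θ / 2) * Complex.I_sq

lemma image_arctan : (fun y : ℝ => π - 2 * Real.arctan y) '' univ = Ioo 0 (2 * π) := by
  ext θ
  simp only [image_univ, mem_range, mem_Ioo]
  constructor
  · rintro ⟨y, rfl⟩
    have h1 := Real.arctan_lt_pi_div_two y
    have h2 := Real.neg_pi_div_two_lt_arctan y
    constructor <;> linarith
  · rintro ⟨h1, h2⟩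
    refine ⟨Real.tan ((π - θ) / 2), ?_⟩
    rw [Real.arctan_tan (by linarith) (by linarith)]
    ring

lemma cov_arctan (k : ℝ → ℝ) :
    ∫ θ in (0 : ℝ)..(2 * π), k (Real.cos (θ / 2) / Real.sin (θ / 2)) =
      ∫ y : ℝ, 2 / (1 + y ^ 2) * k y := by
  rw [intervalIntegral.integral_of_le (by positivity), ← integral_Ioc_eq_integral_Ioo.symm,
    ← image_arctan]
  rw [integral_image_eq_integral_abs_deriv_smul (f' := fun y => -(2 * (1 / (1 + y ^ 2))))
    MeasurableSet.univ]
  · rw [Measure.restrict_univ]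
    refine integral_congr_ae (Eventually.of_forall fun y => ?_)
    simp only [smul_eq_mul]
    have h1 : 0 < 1 + y ^ 2 := by positivity
    rw [abs_neg, abs_of_pos (by positivity)]
    have h2 : (π - 2 * Real.arctan y) / 2 = π / 2 - Real.arctan y := by ring
    rw [h2, Real.cos_pi_div_two_sub, Real.sin_pi_div_two_sub, ← Real.tan_eq_sin_div_cos,
      Real.tan_arctan]
    ring
  · intro y _
    have h1 := (Real.hasDerivAt_arctan y).const_mul 2
    have h2 := h1.const_sub π
    exact h2.hasDerivWithinAt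
  · intro x _ y _ h
    simp only at h
    have : Real.arctan x = Real.arctan y := by linarith
    exact Real.arctan_injective this

theorem hp_unit {g : ℂ → ℂ} {h : ℝ → ℂ} {p C : ℝ} (hp : 0 < p)
    (hd : DifferentiableOn ℂ g {z | 0 < z.re}) (hb : ∀ z : ℂ, 0 < z.re → ‖g z‖ ≤ C)
    (hl : ∀ y : ℝ, y ≠ 0 → Tendsto g (𝓝[{z : ℂ | 0 < z.re}] ((y : ℂ) * Complex.I)) (𝓝 (h y))) :
    ‖g 1‖ ^ p ≤ ∫ y : ℝ, π⁻¹ / (1 + y ^ 2) * ‖h y‖ ^ p := by
  set f : ℂ → ℂ := fun z => g ((1 + z) / (1 - z)) with hf
  have hC : 0 ≤ C := (norm_nonneg _).trans (hb 1 (by simp))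
  have hfd : DifferentiableOn ℂ f (ball 0 1) := by
    refine hd.comp (t := {z | 0 < z.re}) ?_ ?_
    · refine DifferentiableOn.div (by fun_prop) (by fun_prop) ?_
      intro z hz
      rw [mem_ball_zero_iff] at hz
      intro h
      have : z = 1 := by linear_combination -h
      rw [this, norm_one] at hz
      exact lt_irrefl _ hz
    · intro z hz
      rw [mem_ball_zero_iff] at hz
      exact cayley_re hz
  have hbf : ∀ z ∈ ball (0 : ℂ) 1, ‖f z‖ ≤ C := by
    intro z hz
    rw [mem_ball_zero_iff] at hz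
    exact hb _ (cayley_re hz)
  have hcm : ∀ r : ℝ, 0 < r → r < 1 → ∀ θ, circleMap 0 r θ ∈ ball (0 : ℂ) 1 := by
    intro r h0 h1 θ
    rw [mem_ball_zero_iff, norm_circleMap_zero, abs_of_pos h0]
    exact h1
  have h1 : ∀ r : ℝ, r ∈ Ioo (0 : ℝ) 1 → ‖g 1‖ ^ p ≤
      (2 * π)⁻¹ * ∫ θ in (0 : ℝ)..(2 * π), ‖f (circleMap 0 r θ)‖ ^ p := by
    intro r hr
    have hfa : AnalyticOnNhd ℂ f (closedBall 0 r) := by
      refine (hfd.analyticOnNhd isOpen_ball).mono ?_
      exact closedBall_subset_ball hr.2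
    have := rpow_le_circleAverage hr.1 hp hfa
    have e0 : f 0 = g 1 := by rw [hf]; simp
    rw [e0] at this
    rw [circleAverage_def, smul_eq_mul] at this
    exact this
  have h2 : Tendsto (fun r : ℝ => (2 * π)⁻¹ * ∫ θ in (0 : ℝ)..(2 * π), ‖f (circleMap 0 r θ)‖ ^ p)
      (𝓝[<] 1) (𝓝 ((2 * π)⁻¹ * ∫ θ in (0 : ℝ)..(2 * π),
        ‖h (Real.cos (θ / 2) / Real.sin (θ / 2))‖ ^ p)) := by
    refine Tendsto.const_mul _ ?_
    refine intervalIntegral.tendsto_integral_filter_of_dominated_convergence (fun _ => C ^ p) ?_ ?_ ?_ ?_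
    · filter_upwards [Ioo_mem_nhdsLT (show (0 : ℝ) < 1 by norm_num)] with r hr
      refine Continuous.aestronglyMeasurable ?_
      refine Continuous.rpow_const ?_ fun _ => Or.inr hp.le
      refine Continuous.norm ?_
      exact hfd.continuousOn.comp_continuous (continuous_circleMap 0 r) (hcm r hr.1 hr.2)
    · filter_upwards [Ioo_mem_nhdsLT (show (0 : ℝ) < 1 by norm_num)] with r hr
      refine Eventually.of_forall fun θ _ => ?_
      rw [Real.norm_of_nonneg (by positivity)]
      exact Real.rpow_le_rpow (norm_nonneg _) (hbf _ (hcm r hr.1 hr.2 θ)) hp.le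
    · exact intervalIntegrable_const
    · have hae : ∀ᵐ θ : ℝ, θ ≠ 2 * π ∧ θ ≠ π := by
        have a1 : ∀ᵐ θ : ℝ, θ ≠ 2 * π := by simp [ae_iff, measure_singleton]
        have a2 : ∀ᵐ θ : ℝ, θ ≠ π := by simp [ae_iff, measure_singleton]
        exact a1.and a2
      filter_upwards [hae] with θ hθ hm
      rw [uIoc_of_le (by positivity)] at hm
      have hθ1 : θ < 2 * π := lt_of_le_of_ne hm.2 hθ.1
      have hs : 0 < Real.sin (θ / 2) := Real.sin_pos_of_pos_of_lt_pi (by linarith [hm.1]) (by linarith)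
      have hy : Real.cos (θ / 2) / Real.sin (θ / 2) ≠ 0 := by
        refine div_ne_zero ?_ hs.ne'
        intro hc
        rcases lt_trichotomy θ π with h | h | h
        · have := Real.cos_pos_of_mem_Ioo (x := θ / 2) ⟨by linarith [hm.1, Real.pi_pos], by linarith⟩
          linarith
        · exact hθ.2 h
        · have := Real.cos_neg_of_pi_div_two_lt_of_lt (x := θ / 2) (by linarith) (by linarith)
          linarith
      refine Tendsto.rpow_const ?_ (Or.inr hp.le)
      refine Tendsto.norm ?_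
      have h3 := hl _ hy
      have h4 : Tendsto (fun r : ℝ => (1 + circleMap 0 r θ) / (1 - circleMap 0 r θ)) (𝓝[<] 1)
          (𝓝[{z : ℂ | 0 < z.re}] (((Real.cos (θ / 2) / Real.sin (θ / 2) : ℝ) : ℂ) * Complex.I)) := by
        rw [tendsto_nhdsWithin_iff]
        constructor
        · rw [← cayley_boundary hm.1 hθ1]
          have hne : (1 : ℂ) - circleMap 0 1 θ ≠ 0 := by
            intro h
            have h5 := cayley_boundary hm.1 hθ1
            rw [h, div_zero] at h5
            have h6 : ((Real.cos (θ / 2) / Real.sin (θ / 2) : ℝ) : ℂ) ≠ 0 := by exact_mod_cast hy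
            exact (mul_ne_zero h6 Complex.I_ne_zero) h5.symm
          have hc : Continuous fun r : ℝ => circleMap 0 r θ := by
            unfold circleMap
            fun_prop
          have h7 : ContinuousAt (fun r : ℝ => (1 + circleMap 0 r θ) / (1 - circleMap 0 r θ)) 1 :=
            ContinuousAt.div (by fun_prop) (by fun_prop) hne
          exact h7.tendsto.mono_left nhdsWithin_le_nhds
        · filter_upwards [Ioo_mem_nhdsLT (show (0 : ℝ) < 1 by norm_num)] with r hr
          have := hcm r hr.1 hr.2 θ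
          rw [mem_ball_zero_iff] at this
          exact cayley_re this
      exact h3.comp h4
  have h3 := ge_of_tendsto h2 (by
    filter_upwards [Ioo_mem_nhdsLT (show (0 : ℝ) < 1 by norm_num)] with r hr
    exact h1 r hr)
  rw [cov_arctan (fun y => ‖h y‖ ^ p), ← integral_const_mul] at h3
  refine h3.trans (le_of_eq ?_)
  refine integral_congr_ae (Eventually.of_forall fun y => ?_)
  simp only
  field_simp

end Pool.Agent.W184
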