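import Pool.Agent.W184.Refl

set_option autoImplicit false

/-! The half-plane inequality, integrated. -/

namespace Pool.Agent.W184

open MeasureTheory Filter Topology Pool.Agent.H306R2

/-- `|ζ - Q|^p` on the line `Re s = σ` -/
noncomputable def qn (Q : ℂ → ℂ) (p σ t : ℝ) : ℝ :=
  ‖riemannZeta ((σ : ℂ) + t * Complex.I) - Q ((σ : ℂ) + t * Complex.I)‖ ^ p

lemma qn_nonneg (Q : ℂ → ℂ) (p σ t : ℝ) : 0 ≤ qn Q p σ t := Real.rpow_nonneg (norm_nonneg _) _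

lemma qn_cont {Q : ℂ → ℂ} (hQ : Differentiable ℂ Q) {p σ : ℝ} (hp : 0 < p) (hσ : σ < 1) :
    Continuous (qn Q p σ) := by
  unfold qn
  refine Continuous.rpow_const (Continuous.norm ?_) fun _ => Or.inr hp.le
  have h1 : Continuous fun t : ℝ => (σ : ℂ) + t * Complex.I := by fun_prop
  refine Continuous.sub ?_ (hQ.continuous.comp h1)
  rw [continuous_iff_continuousAt]
  intro t
  have h2 : ContinuousAt riemannZeta ((σ : ℂ) + t * Complex.I) :=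
    (zeta_diffAt (by simpa using hσ)).continuousAt
  exact ContinuousAt.comp (f := fun t : ℝ => (σ : ℂ) + t * Complex.I) h2 (by fun_prop)

theorem half_fix {Q : ℂ → ℂ} {N C1 C2 p Δ T B E : ℝ} {M : ℕ} (hp : 0 < p) (hN : 1 ≤ N) (hM : 1 ≤ M)
    (hMp : (M : ℝ) * p = 16)
    (hQd : Differentiable ℂ Q) (hQ1 : ∀ z : ℂ, 1 / 2 ≤ z.re → z.re ≤ 2 → ‖Q z‖ ≤ C1)
    (hQ2 : ∀ z : ℂ, 2 ≤ z.re → ‖riemannZeta z - Q z‖ * N ^ z.re ≤ C2)
    (h0 : 0 < Δ) (h1 : Δ ≤ 1 / 8) (hT : 1 ≤ T) (hB : 0 ≤ B)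
    (hGB : ∀ x, qn Q p (1 / 2) x ≤ B * (1 + |x|))
    (hE : (∫ t in (-(T ^ ((1:ℝ)/4)))..0, qn Q p (1 / 2) t) +
      ∫ t in T..(T + T ^ ((1:ℝ)/4)), qn Q p (1 / 2) t ≤ E) :
    ((1 - 8 * Δ) * N ^ Δ / (1 + Δ) ^ (2 * M)) ^ p * ∫ t in (0:ℝ)..T, qn Q p (1 / 2 + Δ) t ≤
      (∫ t in (0:ℝ)..T, qn Q p (1 / 2) t) + E +
      T * (B * (1 + T)) * (2 * Real.pi * (1 / Δ) * (T ^ ((1:ℝ)/4)) ^ (-(29:ℝ))) := by
  have hT0 : 0 < T := by linarith
  set U : ℝ := T ^ ((1:ℝ)/4) with hU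
  have hU1 : 1 ≤ U := Real.one_le_rpow hT (by norm_num)
  set K : ℝ → ℝ := fun w => KP Δ w * (1 + w ^ 2) ^ (-((M:ℝ) * p)) with hK
  have hKe : K = fun w => KP Δ w * (1 + w ^ 2) ^ (-(16:ℝ)) := by rw [hK, hMp]
  have hKc : Continuous K := by
    rw [hKe]
    refine (KP_cont h0).mul ?_
    refine Continuous.rpow_const (by fun_prop) fun w => Or.inl ?_
    positivity
  have hpw : ∀ w : ℝ, (1 + w ^ 2) ^ (-(16:ℝ)) ≤ 1 := fun w =>
    Real.rpow_le_one_of_one_le_of_nonpos (by nlinarith [sq_nonneg w]) (by norm_num)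
  have hK0 : ∀ w, 0 ≤ K w := by
    intro w
    rw [hKe]
    exact mul_nonneg (KP_nonneg h0 w) (by positivity)
  have hKb : ∀ w, K w ≤ (1 / Δ) * (1 + w ^ 2) ^ (-(16:ℝ)) := by
    intro w
    rw [hKe]
    exact mul_le_mul_of_nonneg_right (KP_le h0 w) (by positivity)
  obtain ⟨i1, i2, i3⟩ := tail_int (A := 1 / Δ) (U := U) (by positivity) hU1 hKc hK0 hKb
  have hKm : ∫ w, K w ≤ 1 := by
    obtain ⟨j1, j2⟩ := KP_int h0
    rw [← j2]
    refine integral_mono i1 j1 fun w => ?_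
    rw [hKe]
    exact mul_le_of_le_one_right (KP_nonneg h0 w) (hpw w)
  have hc0 := qn_cont hQd (p := p) (σ := 1 / 2) hp (by norm_num)
  have hc1 := qn_cont hQd (p := p) (σ := 1 / 2 + Δ) hp (by linarith)
  set fac : ℝ := ((1 - 8 * Δ) * N ^ Δ / (1 + Δ) ^ (2 * M)) ^ p with hfac
  have hpt : ∀ t ∈ Set.Icc 0 T, fac * qn Q p (1 / 2 + Δ) t ≤ ∫ w, K w * qn Q p (1 / 2) (t + w) := by
    intro t _
    exact half_pt hp hN hM hQd hQ1 hQ2 h0 h1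
  have hmain := avg_le (K := K) (G := qn Q p (1 / 2)) (H := fun t => fac * qn Q p (1 / 2 + Δ) t)
    (T := T) (U := U) (B := B) hT0.le (by linarith) hB hKc hK0 i2 i1 hc0 (qn_nonneg _ _ _) hGB
    (continuous_const.mul hc1) hpt
  rw [intervalIntegral.integral_const_mul] at hmain
  refine hmain.trans (add_le_add ?_ (mul_le_mul_of_nonneg_left i3 (by positivity)))
  have hE0 : 0 ≤ ∫ t in (-U)..(T + U), qn Q p (1 / 2) t :=
    intervalIntegral.integral_nonneg (by linarith) fun x _ => qn_nonneg _ _ _ _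
  calc (∫ w, K w) * ∫ t in (-U)..(T + U), qn Q p (1 / 2) t ≤
      1 * ∫ t in (-U)..(T + U), qn Q p (1 / 2) t := mul_le_mul_of_nonneg_right hKm hE0
    _ = (∫ t in (0:ℝ)..T, qn Q p (1 / 2) t) + ((∫ t in (-U)..0, qn Q p (1 / 2) t) +
        ∫ t in T..(T + U), qn Q p (1 / 2) t) := by rw [one_mul, split_edges hc0]
    _ ≤ _ := by linarith

end Pool.Agent.W184
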