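import Pool.Agent.H306R2.Asy
import Pool.Agent.W184.Coef

set_option autoImplicit false

/-! Asymptotics of `∑ d_κ(n)^2 n^{-1-2δ/L}`. -/

namespace Pool.Agent.W184

open MeasureTheory Finset Pool.Agent.H306R2 Filter Topology

lemma kar1 {κ : ℝ} (hκ : 0 < κ) (ψ : ℝ → ℝ) (hψ : Continuous ψ) (M : ℝ) (hM : 0 ≤ M)
    (h0 : ∀ x, M ≤ x → ψ x = 0) :
    (∀ L : ℝ, 0 < L → Summable fun n : ℕ => dv κ n ^ 2 / n * ψ (Real.log n / L)) ∧
    Tendsto (fun L : ℝ => (∑' n : ℕ, dv κ n ^ 2 / n * ψ (Real.log n / L)) / L ^ (κ ^ 2)) atTop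
      (𝓝 (aF κ * ∫ x, gd (κ ^ 2) x * ψ x)) := by
  set e : Fin 1 → ℝ := fun _ => κ with he
  have hes : ∑ i, e i = κ := by simp [he]
  have hepos : ∀ i, 0 < e i := fun _ => hκ
  have H := wt_KH e hepos (by norm_num)
  have hφ : Continuous fun u : Fin 1 → ℝ => ψ (u 0) := by fun_prop
  have hφ0 : ∀ u : Fin 1 → ℝ, (∀ i, 0 ≤ u i) → (∃ i, M ≤ u i) → ψ (u 0) = 0 := by
    rintro u - ⟨i, hi⟩
    have : i = 0 := Subsingleton.elim _ _
    subst this
    exact h0 _ hi
  have hk := karamata H (κ ^ 2) (aF κ) (aF_pos hκ).le (fun i => κ * e i)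
    (fun i => mul_pos hκ (hepos i))
    (fun s hs => by have := wt_tendsto e hepos (by norm_num) s hs; rw [hes] at this; rw [hes]; exact this)
    (fun u => ψ (u 0)) hφ M hφ0 hM
  have e1 : ∀ (L : ℝ) (b : Fin 1 → ℕ), wt (∑ i, e i) e b * ψ (pos L b 0) =
      dv κ (b 0) ^ 2 / (b 0) * ψ (Real.log (b 0) / L) := by
    intro L b
    rw [hes]
    unfold wt pos
    simp only [univ_unique, Fin.default_eq_zero, Fin.isValue, prod_singleton, he]
    ring
  have e2 : ∀ L : ℝ, (∑' b : Fin 1 → ℕ, wt (∑ i, e i) e b * ψ (pos L b 0)) =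
      ∑' n : ℕ, dv κ n ^ 2 / n * ψ (Real.log n / L) := by
    intro L
    simp_rw [e1]
    exact (Equiv.funUnique (Fin 1) ℕ).tsum_eq (fun n : ℕ => dv κ n ^ 2 / n * ψ (Real.log n / L))
  have e3 : ∫ u : Fin 1 → ℝ, Gd (fun i => κ * e i) u * ψ (u 0) = ∫ x, gd (κ ^ 2) x * ψ x := by
    have := (volume_preserving_funUnique (Fin 1) ℝ).integral_comp
      (MeasurableEquiv.funUnique (Fin 1) ℝ).measurableEmbedding (fun x => gd (κ ^ 2) x * ψ x)
    rw [← this]
    refine integral_congr_ae (Eventually.of_forall fun u => ?_)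
    simp only [Gd, univ_unique, Fin.default_eq_zero, Fin.isValue, prod_singleton, he]
    rw [show κ * κ = κ ^ 2 by ring]
    rfl
  constructor
  · intro L hL
    have hs := tf_summable H (fun u => ψ (u 0)) hφ M hφ0 hM hL
    simp only [e1] at hs
    exact ((Equiv.funUnique (Fin 1) ℕ).summable_iff (f := fun n : ℕ => dv κ n ^ 2 / n *
      ψ (Real.log n / L))).mp hs
  · rw [e3] at hk
    refine hk.congr fun L => ?_
    rw [← e2 L]

/-- the limiting constant -/
noncomputable def gI (κ δ : ℝ) : ℝ :=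
  ∫ x in (0:ℝ)..1, x ^ (κ ^ 2 - 1) / Real.Gamma (κ ^ 2) * Real.exp (-(2 * δ * x))

/-- cut-off function: `1` for `x ≤ β`, `0` for `x ≥ β + η` -/
noncomputable def cu (β η x : ℝ) : ℝ := max 0 (min 1 ((β + η - x) / η))

lemma cu_cont (β η : ℝ) : Continuous (cu β η) := by unfold cu; fun_prop

lemma cu_nonneg (β η x : ℝ) : 0 ≤ cu β η x := le_max_left _ _

lemma cu_le_one (β η x : ℝ) : cu β η x ≤ 1 := max_le zero_le_one (min_le_left _ _)

lemma cu_one {β η x : ℝ} (hη : 0 < η) (hx : x ≤ β) : cu β η x = 1 := by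
  unfold cu
  have : 1 ≤ (β + η - x) / η := by rw [le_div_iff₀ hη]; linarith
  rw [min_eq_left this, max_eq_right zero_le_one]

lemma cu_zero {β η x : ℝ} (hη : 0 < η) (hx : β + η ≤ x) : cu β η x = 0 := by
  unfold cu
  have : (β + η - x) / η ≤ 0 := div_nonpos_of_nonpos_of_nonneg (by linarith) hη.le
  rw [max_eq_left]
  exact (min_le_right _ _).trans this

lemma gd_int_exp {κ δ : ℝ} (hκ : 0 < κ) (b : ℝ) :
    IntegrableOn (fun x : ℝ => x ^ (κ ^ 2 - 1) / Real.Gamma (κ ^ 2) * Real.exp (-(2 * δ * x)))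
      (Set.Ioc 0 b) := by
  rcases le_or_gt b 0 with hb | hb
  · rw [Set.Ioc_eq_empty (by linarith)]; exact integrableOn_empty
  have h1 : IntervalIntegrable (fun x : ℝ => x ^ (κ ^ 2 - 1)) volume 0 b :=
    intervalIntegral.intervalIntegrable_rpow' (by have := pow_pos hκ 2; linarith)
  have h2 := (h1.div_const (Real.Gamma (κ ^ 2))).mul_continuousOn
    (g := fun x => Real.exp (-(2 * δ * x))) (by fun_prop)
  exact (intervalIntegrable_iff_integrableOn_Ioc_of_le hb.le).mp h2

/-- the integral of the cut-off test function -/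
lemma int_cu {κ δ β η : ℝ} (hκ : 0 < κ) (_hβ : 0 ≤ β) (hη : 0 < η) :
    (∫ x in Set.Ioc 0 β, x ^ (κ ^ 2 - 1) / Real.Gamma (κ ^ 2) * Real.exp (-(2 * δ * x))) ≤
      (∫ x, gd (κ ^ 2) x * (Real.exp (-(2 * δ * x)) * cu β η x)) ∧
    (∫ x, gd (κ ^ 2) x * (Real.exp (-(2 * δ * x)) * cu β η x)) ≤
      ∫ x in Set.Ioc 0 (β + η), x ^ (κ ^ 2 - 1) / Real.Gamma (κ ^ 2) * Real.exp (-(2 * δ * x)) := by
  have hG : 0 < Real.Gamma (κ ^ 2) := Real.Gamma_pos_of_pos (by positivity)
  have e1 : (∫ x, gd (κ ^ 2) x * (Real.exp (-(2 * δ * x)) * cu β η x)) =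
      ∫ x in Set.Ioc 0 (β + η), x ^ (κ ^ 2 - 1) / Real.Gamma (κ ^ 2) * Real.exp (-(2 * δ * x)) *
        cu β η x := by
    rw [← integral_indicator measurableSet_Ioc]
    refine integral_congr_ae (Eventually.of_forall fun x => ?_)
    simp only
    by_cases hx : x ∈ Set.Ioc 0 (β + η)
    · rw [Set.indicator_of_mem hx]
      unfold gd
      rw [if_pos hx.1]
      ring
    · rw [Set.indicator_of_notMem hx]
      unfold gd
      by_cases hx0 : 0 < x
      · have : β + η ≤ x := by
          by_contra hc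
          push Not at hc
          exact hx ⟨hx0, hc.le⟩
        rw [cu_zero hη this]; ring
      · rw [if_neg hx0]; ring
  have hi := gd_int_exp (δ := δ) hκ (β + η)
  have hi2 : IntegrableOn (fun x : ℝ => x ^ (κ ^ 2 - 1) / Real.Gamma (κ ^ 2) *
      Real.exp (-(2 * δ * x)) * cu β η x) (Set.Ioc 0 (β + η)) := by
    refine Integrable.mul_bdd (c := 1) hi (cu_cont _ _).aestronglyMeasurable
      (Eventually.of_forall fun x => ?_)
    rw [Real.norm_of_nonneg (cu_nonneg _ _ _)]
    exact cu_le_one _ _ _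
  have hn : ∀ x ∈ Set.Ioc 0 (β + η), 0 ≤ x ^ (κ ^ 2 - 1) / Real.Gamma (κ ^ 2) *
      Real.exp (-(2 * δ * x)) := by
    intro x hx
    have := hx.1
    positivity
  rw [e1]
  constructor
  · have h1 : ∫ x in Set.Ioc 0 β, x ^ (κ ^ 2 - 1) / Real.Gamma (κ ^ 2) * Real.exp (-(2 * δ * x)) =
        ∫ x in Set.Ioc 0 β, x ^ (κ ^ 2 - 1) / Real.Gamma (κ ^ 2) * Real.exp (-(2 * δ * x)) *
          cu β η x := by
      refine setIntegral_congr_fun measurableSet_Ioc fun x hx => ?_
      rw [cu_one hη hx.2, mul_one]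
    rw [h1]
    refine setIntegral_mono_set hi2 ?_ ?_
    · refine (ae_restrict_mem measurableSet_Ioc).mono fun x hx => ?_
      exact mul_nonneg (hn x hx) (cu_nonneg _ _ _)
    · exact (Set.Ioc_subset_Ioc_right (by linarith)).eventuallyLE
  · refine setIntegral_mono_on hi2 hi measurableSet_Ioc fun x hx => ?_
    exact mul_le_of_le_one_right (hn x hx) (cu_le_one _ _ _)

/-- continuity of the limiting constant in the endpoint -/
lemma tendsto_endpoint {κ δ : ℝ} (hκ : 0 < κ) (f : ℝ → ℝ) (hf : Tendsto f (𝓝[>] 0) (𝓝 1)) :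
    Tendsto (fun η => ∫ x in Set.Ioc 0 (f η), x ^ (κ ^ 2 - 1) / Real.Gamma (κ ^ 2) *
      Real.exp (-(2 * δ * x))) (𝓝[>] 0) (𝓝 (gI κ δ)) := by
  have h1 : Continuous fun b : ℝ => ∫ x in (0:ℝ)..b, x ^ (κ ^ 2 - 1) / Real.Gamma (κ ^ 2) *
      Real.exp (-(2 * δ * x)) := by
    refine intervalIntegral.continuous_primitive (fun a b => ?_) 0
    have h1 : IntervalIntegrable (fun x : ℝ => x ^ (κ ^ 2 - 1)) volume a b :=
      intervalIntegral.intervalIntegrable_rpow' (by have := pow_pos hκ 2; linarith)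
    exact (h1.div_const (Real.Gamma (κ ^ 2))).mul_continuousOn
      (g := fun x => Real.exp (-(2 * δ * x))) (by fun_prop)
  have h2 := (h1.tendsto 1).comp hf
  refine h2.congr' ?_
  filter_upwards [hf.eventually (lt_mem_nhds (show (0:ℝ) < 1 by norm_num))] with η hη
  show (∫ x in (0:ℝ)..(f η), x ^ (κ ^ 2 - 1) / Real.Gamma (κ ^ 2) * Real.exp (-(2 * δ * x))) = _
  rw [intervalIntegral.integral_of_le hη.le]

lemma log_quot_tendsto : Tendsto (fun T : ℝ => Real.log (1 + Real.log T) / Real.log T) atTop (𝓝 0) := by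
  have h1 : Tendsto (fun x : ℝ => Real.log (1 + x) / x) atTop (𝓝 0) := by
    have h2 : Tendsto (fun x : ℝ => Real.log (1 + x) / (1 + x)) atTop (𝓝 0) := by
      have := Real.isLittleO_log_id_atTop.tendsto_div_nhds_zero
      exact this.comp (tendsto_atTop_add_const_left _ 1 tendsto_id)
    have h3 : Tendsto (fun x : ℝ => (1 + x) / x) atTop (𝓝 1) := by
      have h4 : Tendsto (fun x : ℝ => 1 / x + 1) atTop (𝓝 (0 + 1)) := by
        exact (tendsto_const_nhds.div_atTop tendsto_id).add_const _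
      rw [zero_add] at h4
      refine h4.congr' ?_
      filter_upwards [eventually_gt_atTop 0] with x hx
      field_simp
    have h5 := h2.mul h3
    rw [zero_mul] at h5
    refine h5.congr' ?_
    filter_upwards [eventually_gt_atTop 0] with x hx
    field_simp
  exact h1.comp Real.tendsto_log_atTop

/-- the length of the Dirichlet polynomial -/
noncomputable def NT (T : ℝ) : ℕ := ⌊T / (1 + Real.log T)⌋₊

/-- asymptotics of the coefficient sum -/
theorem coef_tendsto {κ δ : ℝ} (hκ : 0 < κ) :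
    Tendsto (fun T : ℝ => (∑ n ∈ Icc 1 (NT T), dv κ n ^ 2 *
      (n:ℝ) ^ (-(2 * (1 / 2 + δ / Real.log T)))) / Real.log T ^ (κ ^ 2)) atTop
      (𝓝 (aF κ * gI κ δ)) := by
  have hA := aF_pos hκ
  have key : ∀ (T : ℝ), 1 < T → ∀ n : ℕ, 1 ≤ n → dv κ n ^ 2 * (n:ℝ) ^ (-(2 * (1 / 2 + δ / Real.log T))) =
      dv κ n ^ 2 / n * Real.exp (-(2 * δ * (Real.log n / Real.log T))) := by
    intro T hT n hn
    have hn0 : (0:ℝ) < n := by exact_mod_cast hn
    have e4 : (n:ℝ) ^ (-(2 * (1 / 2 + δ / Real.log T))) =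
        (n:ℝ)⁻¹ * Real.exp (-(2 * δ * (Real.log n / Real.log T))) := by
      rw [show -(2 * (1 / 2 + δ / Real.log T)) = (-1) + (-(2 * δ / Real.log T)) by ring,
        Real.rpow_add hn0, Real.rpow_neg_one, Real.rpow_def_of_pos hn0]
      congr 2
      ring
    rw [e4]; ring
  rw [tendsto_order]
  constructor
  · intro c hc
    -- lower bound
    have h1 := (tendsto_endpoint (κ := κ) (δ := δ) hκ (fun η => 1 - 2 * η) (by
      have : Tendsto (fun η : ℝ => 1 - 2 * η) (𝓝 0) (𝓝 (1 - 2 * 0)) := by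
        exact (continuous_const.sub (continuous_const.mul continuous_id)).tendsto 0
      rw [mul_zero, sub_zero] at this
      exact this.mono_left nhdsWithin_le_nhds)).const_mul (aF κ)
    obtain ⟨η, hη1, hη, hη2⟩ := ((h1.eventually_const_lt hc).and
      (Ioo_mem_nhdsGT (show (0:ℝ) < 1/4 by norm_num))).exists
    have hη0 : 0 < η := hη
    have hb := (int_cu (δ := δ) (β := 1 - 2 * η) (η := η) hκ (by linarith) hη0).1
    obtain ⟨hs, hk⟩ := kar1 hκ (fun x => Real.exp (-(2 * δ * x)) * cu (1 - 2 * η) η x)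
      (by have := cu_cont (1 - 2 * η) η; fun_prop) 1 zero_le_one (by
        intro x hx
        rw [cu_zero hη0 (by linarith), mul_zero])
    have hlt : c < aF κ * ∫ x, gd (κ ^ 2) x * (Real.exp (-(2 * δ * x)) * cu (1 - 2 * η) η x) :=
      lt_of_lt_of_le hη1 (mul_le_mul_of_nonneg_left hb hA.le)
    have hk2 := (hk.comp Real.tendsto_log_atTop).eventually_const_lt hlt
    filter_upwards [hk2, eventually_gt_atTop 1, log_quot_tendsto.eventually (gt_mem_nhds hη0)] with T hT hT1 hT2
    refine lt_of_lt_of_le hT ?_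
    simp only [Function.comp]
    have hL : 0 < Real.log T := Real.log_pos hT1
    refine div_le_div_of_nonneg_right ?_ (by positivity)
    have hz : ∀ n : ℕ, n ∉ Icc 1 (NT T) → dv κ n ^ 2 / n * (Real.exp (-(2 * δ * (Real.log n / Real.log T))) *
        cu (1 - 2 * η) η (Real.log n / Real.log T)) = 0 := by
      intro n hn
      rw [mem_Icc, not_and_or] at hn
      rcases hn with hn | hn
      · have : n = 0 := by omega
        subst this; simp
      · push Not at hn
        have hn0 : (0:ℝ) < n := by exact_mod_cast (by omega : 0 < n)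
        have h2 : T / (1 + Real.log T) < n := (Nat.floor_lt' (by omega)).mp hn
        have h3 : Real.log T - Real.log (1 + Real.log T) ≤ Real.log n := by
          rw [← Real.log_div (by linarith) (by linarith)]
          exact Real.log_le_log (by positivity) h2.le
        rw [cu_zero hη0, mul_zero, mul_zero]
        rw [le_div_iff₀ hL]
        rw [div_lt_iff₀ hL] at hT2
        nlinarith
    rw [tsum_eq_sum hz]
    refine sum_le_sum fun n hn => ?_
    rw [mem_Icc] at hn
    rw [key T hT1 n hn.1]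
    refine mul_le_mul_of_nonneg_left ?_ (by positivity)
    exact mul_le_of_le_one_right (Real.exp_pos _).le (cu_le_one _ _ _)
  · intro c hc
    have h1 := (tendsto_endpoint (κ := κ) (δ := δ) hκ (fun η => 1 + η) (by
      have : Tendsto (fun η : ℝ => 1 + η) (𝓝 0) (𝓝 (1 + 0)) := by
        exact (continuous_const.add continuous_id).tendsto 0
      rw [add_zero] at this
      exact this.mono_left nhdsWithin_le_nhds)).const_mul (aF κ)
    obtain ⟨η, hη1, hη, hη2⟩ := ((h1.eventually_lt_const hc).and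
      (Ioo_mem_nhdsGT (show (0:ℝ) < 1/4 by norm_num))).exists
    have hη0 : 0 < η := hη
    have hb := (int_cu (δ := δ) (β := 1) (η := η) hκ zero_le_one hη0).2
    obtain ⟨hs, hk⟩ := kar1 hκ (fun x => Real.exp (-(2 * δ * x)) * cu 1 η x)
      (by have := cu_cont 1 η; fun_prop) (1 + η) (by linarith) (by
        intro x hx
        rw [cu_zero hη0 hx, mul_zero])
    have hlt : aF κ * ∫ x, gd (κ ^ 2) x * (Real.exp (-(2 * δ * x)) * cu 1 η x) < c :=
      lt_of_le_of_lt (mul_le_mul_of_nonneg_left hb hA.le) hη1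
    have hk2 := (hk.comp Real.tendsto_log_atTop).eventually_lt_const hlt
    filter_upwards [hk2, eventually_gt_atTop 1] with T hT hT1
    refine lt_of_le_of_lt ?_ hT
    simp only [Function.comp]
    have hL : 0 < Real.log T := Real.log_pos hT1
    refine div_le_div_of_nonneg_right ?_ (by positivity)
    have hle : ∑ n ∈ Icc 1 (NT T), dv κ n ^ 2 * (n:ℝ) ^ (-(2 * (1 / 2 + δ / Real.log T))) ≤
        ∑ n ∈ Icc 1 (NT T), dv κ n ^ 2 / n * (Real.exp (-(2 * δ * (Real.log n / Real.log T))) *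
          cu 1 η (Real.log n / Real.log T)) := by
      refine sum_le_sum fun n hn => ?_
      rw [mem_Icc] at hn
      have hn0 : (0:ℝ) < n := by exact_mod_cast hn.1
      have h2 : (n:ℝ) ≤ T := by
        have h3 : (n:ℝ) ≤ T / (1 + Real.log T) :=
          (Nat.le_floor_iff (by positivity)).mp hn.2
        refine h3.trans (div_le_self (by linarith) (by linarith))
      rw [key T hT1 n hn.1, cu_one hη0, mul_one]
      rw [div_le_one hL]
      exact Real.log_le_log hn0 h2
    refine hle.trans ?_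
    refine Summable.sum_le_tsum _ (fun n _ => ?_) (hs (Real.log T) hL)
    exact mul_nonneg (by positivity) (mul_nonneg (Real.exp_pos _).le (cu_nonneg _ _ _))

end Pool.Agent.W184
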