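import Pool.Agent.W184.HP

set_option autoImplicit false

/-! Scaled half-plane inequality and strip inequality for `‖f‖ ^ p`. -/

namespace Pool.Agent.W184

open Metric Real Filter MeasureTheory Topology Set

/-- Poisson kernel of a half-plane -/
noncomputable def KP (Δ w : ℝ) : ℝ := Δ / π / (w ^ 2 + Δ ^ 2)

/-- kernel of the strip of half-width `Δ`, centre line -/
noncomputable def KS (Δ w : ℝ) : ℝ := 1 / (4 * Δ * Real.cosh (π * w / (2 * Δ)))

theorem hp_ineq {F : ℂ → ℂ} {b t Δ p C : ℝ} (hΔ : 0 < Δ) (hp : 0 < p)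
    (hd : DifferentiableOn ℂ F {z | b < z.re}) (hc : ContinuousOn F {z | b ≤ z.re})
    (hb : ∀ z : ℂ, b < z.re → ‖F z‖ ≤ C) :
    ‖F ((b : ℂ) + Δ + t * Complex.I)‖ ^ p ≤
      ∫ w : ℝ, KP Δ w * ‖F ((b : ℂ) + ((t + w : ℝ) : ℂ) * Complex.I)‖ ^ p := by
  have h1 := hp_unit (g := fun z => F ((b : ℂ) + t * Complex.I + Δ * z))
    (h := fun y => F ((b : ℂ) + ((t + Δ * y : ℝ) : ℂ) * Complex.I)) (p := p) (C := C) hp ?_ ?_ ?_
  · have e1 : (b : ℂ) + t * Complex.I + Δ * 1 = (b : ℂ) + Δ + t * Complex.I := by ring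
    rw [e1] at h1
    refine h1.trans (le_of_eq ?_)
    have h2 := Measure.integral_comp_mul_left (fun w : ℝ => KP Δ w *
      ‖F ((b : ℂ) + ((t + w : ℝ) : ℂ) * Complex.I)‖ ^ p) Δ
    rw [abs_of_pos (inv_pos.mpr hΔ)] at h2
    have h3 : ∫ w : ℝ, KP Δ w * ‖F ((b : ℂ) + ((t + w : ℝ) : ℂ) * Complex.I)‖ ^ p =
        ∫ y : ℝ, Δ * (KP Δ (Δ * y) * ‖F ((b : ℂ) + ((t + Δ * y : ℝ) : ℂ) * Complex.I)‖ ^ p) := by
      rw [integral_const_mul, h2, smul_eq_mul, ← mul_assoc, mul_inv_cancel₀ hΔ.ne', one_mul]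
    rw [h3]
    refine integral_congr_ae (Eventually.of_forall fun y => ?_)
    simp only [KP]
    have : (Δ * y) ^ 2 + Δ ^ 2 = Δ ^ 2 * (1 + y ^ 2) := by ring
    rw [this]
    field_simp
  · refine hd.comp (by fun_prop) ?_
    intro z hz
    simp only [mem_ofPred_eq] at hz ⊢
    simp
    exact mul_pos hΔ hz
  · intro z hz
    refine hb _ ?_
    simp
    exact mul_pos hΔ hz
  · intro y _
    have h4 := hc ((b : ℂ) + ((t + Δ * y : ℝ) : ℂ) * Complex.I) (by simp)
    refine (h4.tendsto).comp ?_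
    rw [tendsto_nhdsWithin_iff]
    constructor
    · have h5 : Continuous fun z : ℂ => (b : ℂ) + t * Complex.I + Δ * z := by fun_prop
      have h6 := (h5.tendsto ((y : ℂ) * Complex.I)).mono_left
        (nhdsWithin_le_nhds (s := {z : ℂ | 0 < z.re}))
      refine h6.trans (le_of_eq ?_)
      congr 1
      push_cast
      ring
    · filter_upwards [self_mem_nhdsWithin] with z hz
      have hz' : 0 < z.re := hz
      show b ≤ ((b : ℂ) + t * Complex.I + Δ * z).re
      simp
      exact mul_nonneg hΔ.le hz'.le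

lemma cov_exp (k : ℝ → ℝ) :
    ∫ y in Ioi (0 : ℝ), π⁻¹ / (1 + y ^ 2) * k (Real.log y) =
      ∫ x : ℝ, (2 * π * Real.cosh x)⁻¹ * k x := by
  have h1 : (Real.exp '' univ) = Ioi (0 : ℝ) := by
    rw [image_univ, Real.range_exp]
  rw [← h1, integral_image_eq_integral_abs_deriv_smul (f' := Real.exp) MeasurableSet.univ
    (fun x _ => (Real.hasDerivAt_exp x).hasDerivWithinAt) (Real.exp_injective.injOn)]
  rw [Measure.restrict_univ]
  refine integral_congr_ae (Eventually.of_forall fun x => ?_)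
  simp only [smul_eq_mul, Real.log_exp]
  rw [abs_of_pos (Real.exp_pos x), Real.cosh_eq]
  have h2 := Real.exp_pos x
  have h3 : Real.exp (-x) = (Real.exp x)⁻¹ := Real.exp_neg x
  rw [h3]
  field_simp
  ring

lemma cov_strip (k : ℝ → ℝ) {Δ : ℝ} (hΔ : 0 < Δ) :
    ∫ x : ℝ, (2 * π * Real.cosh x)⁻¹ * k (-(2 * Δ / π) * x) = ∫ w : ℝ, KS Δ w * k w := by
  have h1 := Measure.integral_comp_mul_left (fun w : ℝ => KS Δ w * k w) (-(2 * Δ / π))
  have hpi := Real.pi_pos
  have h0 : (0:ℝ) < 2 * Δ / π := by positivity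
  have h2 : |(-(2 * Δ / π))⁻¹| = (2 * Δ / π)⁻¹ := by
    rw [inv_neg, abs_neg, abs_of_pos (inv_pos.mpr h0)]
  rw [h2] at h1
  have h3 : ∫ w : ℝ, KS Δ w * k w =
      ∫ x : ℝ, (2 * Δ / π) * (KS Δ (-(2 * Δ / π) * x) * k (-(2 * Δ / π) * x)) := by
    rw [integral_const_mul, h1, smul_eq_mul, ← mul_assoc, mul_inv_cancel₀ h0.ne', one_mul]
  rw [h3]
  refine integral_congr_ae (Eventually.of_forall fun x => ?_)
  simp only [KS]
  have e1 : π * (-(2 * Δ / π) * x) / (2 * Δ) = -x := by field_simp
  rw [e1, Real.cosh_neg]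
  have h4 := Real.cosh_pos x
  field_simp
  ring

theorem strip_ineq {F : ℂ → ℂ} {c : ℂ} {Δ p C : ℝ} (hΔ : 0 < Δ) (hp : 0 < p)
    (hd : DifferentiableOn ℂ F {z | |z.re - c.re| < Δ})
    (hc : ContinuousOn F {z | |z.re - c.re| ≤ Δ})
    (hb : ∀ z : ℂ, |z.re - c.re| ≤ Δ → ‖F z‖ ≤ C) :
    ‖F c‖ ^ p ≤ (∫ w : ℝ, KS Δ w * ‖F (c + Δ + (w : ℂ) * Complex.I)‖ ^ p) +
      ∫ w : ℝ, KS Δ w * ‖F (c - Δ + (w : ℂ) * Complex.I)‖ ^ p := by
  have hpi := Real.pi_pos
  set A : ℝ → ℂ := fun x => F (c + Δ + ((-(2 * Δ / π) * x : ℝ) : ℂ) * Complex.I) with hA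
  set B : ℝ → ℂ := fun x => F (c - Δ + ((-(2 * Δ / π) * x : ℝ) : ℂ) * Complex.I) with hB
  have hAc : Continuous A := by
    refine hc.comp_continuous (by fun_prop) fun x => ?_
    simp [abs_of_pos hΔ]
  have hBc : Continuous B := by
    refine hc.comp_continuous (by fun_prop) fun x => ?_
    simp [abs_of_pos hΔ]
  have hC : 0 ≤ C := (norm_nonneg _).trans (hb c (by simp [hΔ.le]))
  have hAb : ∀ x, ‖A x‖ ≤ C := fun x => hb _ (by simp [abs_of_pos hΔ])
  have hBb : ∀ x, ‖B x‖ ≤ C := fun x => hb _ (by simp [abs_of_pos hΔ])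
  set h : ℝ → ℂ := fun y => if 0 < y then A (Real.log y) else B (Real.log y) with hh
  have hre : ∀ z : ℂ, 0 < z.re →
      |(c + (-(2 * Δ / π) : ℝ) * Complex.I * Complex.log z).re - c.re| < Δ := by
    intro z hz
    have h1 : (c + (-(2 * Δ / π) : ℝ) * Complex.I * Complex.log z).re - c.re =
        2 * Δ / π * Complex.arg z := by
      simp [Complex.log_im]
    rw [h1, abs_mul, abs_of_pos (by positivity)]
    have h2 : |Complex.arg z| < π / 2 := Complex.abs_arg_lt_pi_div_two_iff.mpr (Or.inl hz)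
    calc 2 * Δ / π * |Complex.arg z| < 2 * Δ / π * (π / 2) := by gcongr
      _ = Δ := by field_simp
  have hcl : ∀ z : ℂ, (|Complex.arg z| ≤ π / 2) →
      |(c + (-(2 * Δ / π) : ℝ) * Complex.I * Complex.log z).re - c.re| ≤ Δ := by
    intro z hz
    have h1 : (c + (-(2 * Δ / π) : ℝ) * Complex.I * Complex.log z).re - c.re =
        2 * Δ / π * Complex.arg z := by
      simp [Complex.log_im]
    rw [h1, abs_mul, abs_of_pos (by positivity)]
    calc 2 * Δ / π * |Complex.arg z| ≤ 2 * Δ / π * (π / 2) := by gcongr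
      _ = Δ := by field_simp
  have h1 := hp_unit (g := fun z => F (c + (-(2 * Δ / π) : ℝ) * Complex.I * Complex.log z))
    (h := h) (p := p) (C := C) hp ?_ ?_ ?_
  · simp only [Complex.log_one, mul_zero, add_zero] at h1
    refine h1.trans ?_
    have hm : Measurable h := by
      refine Measurable.ite measurableSet_Ioi ?_ ?_
      · exact hAc.measurable.comp Real.measurable_log
      · exact hBc.measurable.comp Real.measurable_log
    have hhb : ∀ y, ‖h y‖ ≤ C := by
      intro y
      simp only [hh]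
      split_ifs
      · exact hAb _
      · exact hBb _
    have hi : Integrable fun y : ℝ => π⁻¹ / (1 + y ^ 2) * ‖h y‖ ^ p := by
      have h2 : Integrable fun y : ℝ => π⁻¹ / (1 + y ^ 2) := by
        have := (integrable_inv_one_add_sq).const_mul π⁻¹
        refine this.congr (Eventually.of_forall fun y => ?_)
        simp only [div_eq_mul_inv]
      refine h2.mul_bdd (c := C ^ p) ?_ ?_
      · exact ((hm.norm).pow_const p).aestronglyMeasurable
      · refine Eventually.of_forall fun y => ?_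
        rw [Real.norm_of_nonneg (by positivity)]
        exact Real.rpow_le_rpow (norm_nonneg _) (hhb y) hp.le
    rw [← integral_add_compl (measurableSet_Ioi (a := (0:ℝ))) hi, compl_Ioi]
    refine add_le_add (le_of_eq ?_) (le_of_eq ?_)
    · rw [← cov_strip _ hΔ, ← cov_exp]
      refine setIntegral_congr_fun measurableSet_Ioi fun y hy => ?_
      simp only [hh, hA]
      rw [if_pos (mem_Ioi.mp hy)]
    · rw [← cov_strip _ hΔ, ← cov_exp]
      have h3 := integral_comp_neg_Ioi (0 : ℝ) (fun y : ℝ => π⁻¹ / (1 + y ^ 2) * ‖h y‖ ^ p)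
      rw [neg_zero] at h3
      rw [← h3]
      refine setIntegral_congr_fun measurableSet_Ioi fun y hy => ?_
      simp only [hh, hB]
      have hy' : 0 < y := mem_Ioi.mp hy
      rw [if_neg (by linarith), Real.log_neg_eq_log]
      ring_nf
  · refine hd.comp ?_ ?_
    · intro z hz
      have hz' : z ∈ Complex.slitPlane := Or.inl hz
      exact ((differentiableAt_const _).add ((differentiableAt_const _).mul
        (Complex.differentiableAt_log hz'))).differentiableWithinAt
    · intro z hz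
      exact hre z hz
  · intro z hz
    exact hb _ (hre z hz).le
  · intro y hy
    have hne : (y : ℂ) * Complex.I ≠ 0 := mul_ne_zero (by exact_mod_cast hy) Complex.I_ne_zero
    have hsl : (y : ℂ) * Complex.I ∈ Complex.slitPlane := Or.inr (by simpa using hy)
    have hlog : ContinuousAt Complex.log ((y : ℂ) * Complex.I) := continuousAt_clog hsl
    have harg : |Complex.arg ((y : ℂ) * Complex.I)| ≤ π / 2 :=
      Complex.abs_arg_le_pi_div_two_iff.mpr (by simp)
    have hval : F (c + (-(2 * Δ / π) : ℝ) * Complex.I * Complex.log ((y : ℂ) * Complex.I)) = h y := by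
      simp only [hh, hA, hB]
      rcases lt_or_gt_of_ne hy with h0 | h0
      · rw [if_neg (by linarith)]
        have e1 : Complex.log ((y : ℂ) * Complex.I) = (Real.log y : ℂ) - (π / 2 : ℝ) * Complex.I := by
          apply Complex.ext
          · rw [Complex.log_re]
            simp [Real.log_abs]
          · rw [Complex.log_im]
            have e2 : (y : ℂ) * Complex.I = ((-y : ℝ) : ℂ) * (-Complex.I) := by push_cast; ring
            rw [e2, Complex.arg_real_mul _ (by linarith), Complex.arg_neg_I]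
            simp
        rw [e1]
        congr 1
        push_cast
        have hpi' : (π : ℂ) ≠ 0 := by exact_mod_cast hpi.ne'
        field_simp
        linear_combination ((Δ : ℂ) * π) * Complex.I_sq
      · rw [if_pos h0]
        have e1 : Complex.log ((y : ℂ) * Complex.I) = (Real.log y : ℂ) + (π / 2 : ℝ) * Complex.I := by
          apply Complex.ext
          · rw [Complex.log_re]
            simp [Real.log_abs]
          · rw [Complex.log_im, Complex.arg_real_mul _ h0, Complex.arg_I]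
            simp
        rw [e1]
        congr 1
        push_cast
        have hpi' : (π : ℂ) ≠ 0 := by exact_mod_cast hpi.ne'
        field_simp
        linear_combination (-(Δ : ℂ) * π) * Complex.I_sq
    rw [← hval]
    have h5 := hc _ (hcl ((y : ℂ) * Complex.I) harg)
    refine (h5.tendsto).comp ?_
    rw [tendsto_nhdsWithin_iff]
    constructor
    · have h6 : ContinuousAt (fun z : ℂ => c + (-(2 * Δ / π) : ℝ) * Complex.I * Complex.log z)
          ((y : ℂ) * Complex.I) := by fun_prop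
      exact h6.tendsto.mono_left nhdsWithin_le_nhds
    · filter_upwards [self_mem_nhdsWithin] with z hz
      exact (hre z hz).le

end Pool.Agent.W184
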