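import Pool.Agent.W184.ZetaB
import Pool.Agent.W184.Strip

set_option autoImplicit false

/-! `|ζ(σ+it)|` and the reflection inequality. -/

namespace Pool.Agent.W184

open MeasureTheory Set Complex

/-- `|ζ(σ+it)|` -/
noncomputable def zn (σ t : ℝ) : ℝ := ‖riemannZeta ((σ : ℂ) + t * I)‖

lemma zn_nonneg (σ t : ℝ) : 0 ≤ zn σ t := norm_nonneg _

lemma zn_neg (σ t : ℝ) : zn σ (-t) = zn σ t := by
  unfold zn
  have e : (σ : ℂ) + ((-t : ℝ) : ℂ) * I = (starRingEnd ℂ) ((σ : ℂ) + t * I) := by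
    rw [map_add, map_mul, Complex.conj_ofReal, Complex.conj_ofReal, Complex.conj_I]
    push_cast; ring
  rw [e, riemannZeta_conj, RCLike.norm_conj]

lemma zeta_diffAt {z : ℂ} (h : z.re < 1) : DifferentiableAt ℂ riemannZeta z := by
  refine differentiableAt_riemannZeta ?_
  rintro rfl
  simp at h

lemma zn_cont {σ : ℝ} (h : σ < 1) : Continuous (zn σ) := by
  unfold zn
  refine Continuous.norm ?_
  rw [continuous_iff_continuousAt]
  intro t
  have h1 : ContinuousAt riemannZeta ((σ : ℂ) + t * I) := (zeta_diffAt (by simpa using h)).continuousAt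
  exact ContinuousAt.comp (f := fun t : ℝ => (σ : ℂ) + t * I) h1 (by fun_prop)

lemma zn_le {σ t : ℝ} (h1 : 3 / 8 ≤ σ) (h2 : σ ≤ 3 / 4) : zn σ t ≤ 12 * (1 + |t|) ^ ((5:ℝ)/8) :=
  zeta58 h1 h2

lemma zn_le' {σ t : ℝ} (h1 : 3 / 8 ≤ σ) (h2 : σ ≤ 3 / 4) : zn σ t ≤ 12 * (1 + |t|) := by
  refine (zn_le h1 h2).trans ?_
  have h3 : (1 + |t|) ^ ((5:ℝ)/8) ≤ (1 + |t|) ^ (1:ℝ) :=
    Real.rpow_le_rpow_of_exponent_le (by linarith [abs_nonneg t]) (by norm_num)
  rw [Real.rpow_one] at h3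
  linarith

lemma add_rpow_le' {a b p : ℝ} (ha : 0 ≤ a) (hb : 0 ≤ b) (hp : 0 ≤ p) (hp1 : p ≤ 1) :
    (a + b) ^ p ≤ a ^ p + b ^ p := by
  have := NNReal.rpow_add_le_add_rpow (⟨a, ha⟩ : NNReal) ⟨b, hb⟩ hp hp1
  exact_mod_cast this

/-- functional equation for `p`-th powers -/
lemma fe_p {Δ τ p X : ℝ} (hp : 0 < p) (hp1 : p ≤ 1) (h0 : 0 ≤ Δ) (h1 : Δ ≤ 1 / 8) (hX : 1 ≤ X)
    (ht : |τ| ≤ X) :
    zn (1 / 2 - Δ) τ ^ p ≤ X ^ (p * Δ) * (zn (1 / 2 + Δ) τ ^ p + 2000) := by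
  have hX0 : 0 < X := by linarith
  have hXp : 1 ≤ X ^ (p * Δ) := Real.one_le_rpow hX (by positivity)
  wlog hτ : 0 ≤ τ generalizing τ with H
  · have := H (τ := -τ) (by rwa [abs_neg]) (by linarith)
    rwa [zn_neg, zn_neg] at this
  rw [abs_of_nonneg hτ] at ht
  have hzp : 0 ≤ zn (1 / 2 + Δ) τ ^ p := Real.rpow_nonneg (zn_nonneg _ _) _
  rcases le_or_gt 100 τ with h100 | h100
  · have hf := fe_pos h0 h1 h100
    have hτ0 : 0 < τ := by linarith
    have h2 : zn (1 / 2 - Δ) τ ≤ X ^ Δ * (zn (1 / 2 + Δ) τ + 16 / τ * zn (1 / 2 + Δ) τ) := by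
      have h3 : τ ^ Δ ≤ X ^ Δ := Real.rpow_le_rpow hτ0.le ht h0
      calc zn (1 / 2 - Δ) τ ≤ τ ^ Δ * (1 + 16 / τ) * zn (1 / 2 + Δ) τ := hf
        _ ≤ X ^ Δ * (1 + 16 / τ) * zn (1 / 2 + Δ) τ := by
            have := zn_nonneg (1 / 2 + Δ) τ
            gcongr
        _ = _ := by ring
    have h4 : 16 / τ * zn (1 / 2 + Δ) τ ≤ 384 := by
      have h5 := zn_le' (σ := 1 / 2 + Δ) (t := τ) (by linarith) (by linarith)
      rw [abs_of_nonneg hτ] at h5
      calc 16 / τ * zn (1 / 2 + Δ) τ ≤ 16 / τ * (12 * (1 + τ)) := by gcongr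
        _ ≤ 384 := by
          rw [div_mul_eq_mul_div, div_le_iff₀ hτ0]
          nlinarith
    have h6 : 0 ≤ 16 / τ * zn (1 / 2 + Δ) τ := mul_nonneg (by positivity) (zn_nonneg _ _)
    calc zn (1 / 2 - Δ) τ ^ p ≤ (X ^ Δ * (zn (1 / 2 + Δ) τ + 16 / τ * zn (1 / 2 + Δ) τ)) ^ p :=
          Real.rpow_le_rpow (zn_nonneg _ _) h2 hp.le
      _ = X ^ (p * Δ) * (zn (1 / 2 + Δ) τ + 16 / τ * zn (1 / 2 + Δ) τ) ^ p := by
          rw [Real.mul_rpow (by positivity) (add_nonneg (zn_nonneg _ _) h6), ← Real.rpow_mul hX0.le]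
          congr 2; ring
      _ ≤ X ^ (p * Δ) * (zn (1 / 2 + Δ) τ ^ p + (16 / τ * zn (1 / 2 + Δ) τ) ^ p) := by
          refine mul_le_mul_of_nonneg_left ?_ (by positivity)
          exact add_rpow_le' (zn_nonneg _ _) h6 hp.le hp1
      _ ≤ _ := by
          refine mul_le_mul_of_nonneg_left ?_ (by positivity)
          have h7 : (16 / τ * zn (1 / 2 + Δ) τ) ^ p ≤ 384 := by
            calc (16 / τ * zn (1 / 2 + Δ) τ) ^ p ≤ (384:ℝ) ^ p := Real.rpow_le_rpow h6 h4 hp.le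
              _ ≤ (384:ℝ) ^ (1:ℝ) := Real.rpow_le_rpow_of_exponent_le (by norm_num) hp1
              _ = 384 := Real.rpow_one _
          linarith
  · have h5 := zn_le' (σ := 1 / 2 - Δ) (t := τ) (by linarith) (by linarith)
    rw [abs_of_nonneg hτ] at h5
    have h6 : zn (1 / 2 - Δ) τ ≤ 1212 := by linarith
    calc zn (1 / 2 - Δ) τ ^ p ≤ (1212:ℝ) ^ p := Real.rpow_le_rpow (zn_nonneg _ _) h6 hp.le
      _ ≤ (1212:ℝ) ^ (1:ℝ) := Real.rpow_le_rpow_of_exponent_le (by norm_num) hp1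
      _ = 1212 := Real.rpow_one _
      _ ≤ 1 * (0 + 2000) := by norm_num
      _ ≤ _ := by gcongr

lemma gauss_lin {a x : ℝ} (ha : 0 ≤ a) : (1 + (a + |x|)) * Real.exp (-x ^ 2) ≤ 2 + a := by
  have h1 : Real.exp (-x ^ 2) ≤ 1 := by
    rw [Real.exp_le_one_iff]; nlinarith [sq_nonneg x]
  have h2 : |x| * Real.exp (-x ^ 2) ≤ 1 := by
    have h3 : Real.exp (-x ^ 2) ≤ 1 / (1 + x ^ 2) := by
      rw [Real.exp_neg, ← one_div]
      exact one_div_le_one_div_of_le (by positivity) (by linarith [Real.add_one_le_exp (x ^ 2)])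
    calc |x| * Real.exp (-x ^ 2) ≤ |x| * (1 / (1 + x ^ 2)) := by gcongr
      _ ≤ 1 := by
        rw [mul_one_div, div_le_one (by positivity)]
        nlinarith [sq_abs x, sq_nonneg (|x| - 1), abs_nonneg x]
  have h4 := Real.exp_pos (-x ^ 2)
  nlinarith

/-- the pointwise reflection inequality -/
theorem refl_pt {Δ p X t : ℝ} (hp : 0 < p) (h0 : 0 < Δ) (h1 : Δ ≤ 1 / 8) (hX : 1 ≤ X) :
    zn (1 / 2) t ^ p ≤ (∫ w : ℝ, (KS Δ w * Real.exp (p * (Δ ^ 2 - w ^ 2))) *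
        (X ^ (p * Δ / 2) * zn (1 / 2 + Δ) (t + w) ^ p)) +
      ∫ w : ℝ, (KS Δ w * Real.exp (p * (Δ ^ 2 - w ^ 2))) *
        (X ^ (-(p * Δ / 2)) * zn (1 / 2 - Δ) (t + w) ^ p) := by
  have hX0 : 0 < X := by linarith
  set c : ℂ := ((1 / 2 : ℝ) : ℂ) + t * I with hc
  have hcre : c.re = 1 / 2 := by simp [hc]
  have hcim : c.im = t := by simp [hc]
  set F : ℂ → ℂ := fun z => riemannZeta z * (X : ℂ) ^ ((z - (1 / 2 : ℝ)) / 2) *
    Complex.exp ((z - c) ^ 2) with hF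
  have hXc : (X : ℂ) ≠ 0 := by exact_mod_cast hX0.ne'
  have hFd : ∀ z : ℂ, z.re < 1 → DifferentiableAt ℂ F z := by
    intro z hz
    refine ((zeta_diffAt hz).mul ?_).mul (by fun_prop)
    exact DifferentiableAt.const_cpow (by fun_prop) (Or.inl hXc)
  have hFn : ∀ z : ℂ, ‖F z‖ = ‖riemannZeta z‖ * X ^ ((z.re - 1 / 2) / 2) *
      Real.exp ((z.re - 1 / 2) ^ 2 - (z.im - t) ^ 2) := by
    intro z
    rw [hF]
    simp only
    rw [norm_mul, norm_mul, Complex.norm_cpow_eq_rpow_re_of_pos hX0, Complex.norm_exp]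
    congr 2
    · congr 1
      have : ((z - ((1 / 2 : ℝ) : ℂ)) / 2).re = (z.re - 1 / 2) / 2 := by
        rw [Complex.div_ofNat_re]; simp
      exact this
    · rw [pow_two, Complex.mul_re, Complex.sub_re, Complex.sub_im, hcre, hcim]
      ring
  have hb : ∀ z : ℂ, |z.re - c.re| ≤ Δ → ‖F z‖ ≤ 12 * (2 + |t|) * X * Real.exp 1 := by
    intro z hz
    rw [hcre] at hz
    have hz1 := abs_le.mp hz
    rw [hFn]
    have e1 : ‖riemannZeta z‖ ≤ 12 * (1 + (|t| + |z.im - t|)) := by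
      have h2 := zn_le' (σ := z.re) (t := z.im) (by linarith) (by linarith)
      have h3 : zn z.re z.im = ‖riemannZeta z‖ := by unfold zn; rw [Complex.re_add_im]
      rw [h3] at h2
      have h4 : |z.im| ≤ |t| + |z.im - t| := by
        have := abs_add_le t (z.im - t)
        rwa [add_sub_cancel] at this
      linarith
    have e2 : X ^ ((z.re - 1 / 2) / 2) ≤ X := by
      calc X ^ ((z.re - 1 / 2) / 2) ≤ X ^ (1:ℝ) := Real.rpow_le_rpow_of_exponent_le hX (by linarith)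
        _ = X := Real.rpow_one X
    have e3 : Real.exp ((z.re - 1 / 2) ^ 2 - (z.im - t) ^ 2) ≤
        Real.exp 1 * Real.exp (-(z.im - t) ^ 2) := by
      rw [← Real.exp_add]
      refine Real.exp_le_exp.mpr ?_
      nlinarith
    have e4 := gauss_lin (a := |t|) (x := z.im - t) (abs_nonneg t)
    calc ‖riemannZeta z‖ * X ^ ((z.re - 1 / 2) / 2) * Real.exp ((z.re - 1 / 2) ^ 2 - (z.im - t) ^ 2) ≤
        (12 * (1 + (|t| + |z.im - t|))) * X * (Real.exp 1 * Real.exp (-(z.im - t) ^ 2)) := by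
          gcongr
      _ = 12 * ((1 + (|t| + |z.im - t|)) * Real.exp (-(z.im - t) ^ 2)) * X * Real.exp 1 := by ring
      _ ≤ 12 * (2 + |t|) * X * Real.exp 1 := by gcongr
  have hmain := strip_ineq (F := F) (c := c) (p := p) h0 hp ?_ ?_ hb
  · have e0 : ‖F c‖ = zn (1 / 2) t := by
      rw [hFn, hcre, hcim]
      simp [zn, hc]
    rw [e0] at hmain
    refine hmain.trans (le_of_eq ?_)
    congr 1
    · refine integral_congr_ae (Filter.Eventually.of_forall fun w => ?_)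
      simp only
      have r1 : (c + Δ + (w : ℂ) * I).re = 1 / 2 + Δ := by simp [hcre]
      have r2 : (c + Δ + (w : ℂ) * I).im = t + w := by simp [hcim]
      have r3 : ‖riemannZeta (c + Δ + (w : ℂ) * I)‖ = zn (1 / 2 + Δ) (t + w) := by
        unfold zn
        rw [← r1, ← r2, Complex.re_add_im]
      rw [hFn, r3, r1, r2, Real.mul_rpow (mul_nonneg (zn_nonneg _ _) (by positivity)) (Real.exp_pos _).le,
        Real.mul_rpow (zn_nonneg _ _) (by positivity), ← Real.rpow_mul hX0.le, ← Real.exp_mul]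
      rw [show (1 / 2 + Δ - 1 / 2) / 2 * p = p * Δ / 2 by ring,
        show ((1 / 2 + Δ - 1 / 2) ^ 2 - (t + w - t) ^ 2) * p = p * (Δ ^ 2 - w ^ 2) by ring]
      ring
    · refine integral_congr_ae (Filter.Eventually.of_forall fun w => ?_)
      simp only
      have r1 : (c - Δ + (w : ℂ) * I).re = 1 / 2 - Δ := by simp [hcre]
      have r2 : (c - Δ + (w : ℂ) * I).im = t + w := by simp [hcim]
      have r3 : ‖riemannZeta (c - Δ + (w : ℂ) * I)‖ = zn (1 / 2 - Δ) (t + w) := by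
        unfold zn
        rw [← r1, ← r2, Complex.re_add_im]
      rw [hFn, r3, r1, r2, Real.mul_rpow (mul_nonneg (zn_nonneg _ _) (by positivity)) (Real.exp_pos _).le,
        Real.mul_rpow (zn_nonneg _ _) (by positivity), ← Real.rpow_mul hX0.le, ← Real.exp_mul]
      rw [show (1 / 2 - Δ - 1 / 2) / 2 * p = -(p * Δ / 2) by ring,
        show ((1 / 2 - Δ - 1 / 2) ^ 2 - (t + w - t) ^ 2) * p = p * (Δ ^ 2 - w ^ 2) by ring]
      ring
  · intro z hz
    have hz' : |z.re - c.re| < Δ := hz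
    rw [hcre] at hz'
    have := (abs_lt.mp hz').2
    exact (hFd z (by linarith)).differentiableWithinAt
  · intro z hz
    have hz' : |z.re - c.re| ≤ Δ := hz
    rw [hcre] at hz'
    have := (abs_le.mp hz').2
    exact (hFd z (by linarith)).continuousAt.continuousWithinAt

end Pool.Agent.W184
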