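import Pool.Agent.W184.Basic

set_option autoImplicit false

/-! The reflection inequality, integrated. -/

namespace Pool.Agent.W184

open MeasureTheory Filter Topology Pool.Agent.H306R2

lemma zp_le {σ x p : ℝ} (hp : 0 < p) (hp1 : p ≤ 1) (h1 : 3 / 8 ≤ σ) (h2 : σ ≤ 3 / 4) :
    zn σ x ^ p ≤ 12 * (1 + |x|) := by
  have h3 := zn_le' (t := x) h1 h2
  have h4 : (1:ℝ) ≤ 12 * (1 + |x|) := by linarith [abs_nonneg x]
  exact (Real.rpow_le_rpow (zn_nonneg _ _) h3 hp.le).trans (rpow_le_self_of_one_le' h4 hp1)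

lemma zp_le2 {σ x p T : ℝ} (hp : 0 < p) (hp1 : p ≤ 1) (h1 : 3 / 8 ≤ σ) (h2 : σ ≤ 3 / 4)
    (hT : 1 ≤ T) (hx : |x| ≤ 2 * T) : zn σ x ^ p ≤ 36 * T ^ ((5:ℝ)/8) := by
  have hT0 : 0 < T := by linarith
  have h3 : zn σ x ≤ 36 * T ^ ((5:ℝ)/8) := by
    refine (zn_le (t := x) h1 h2).trans ?_
    have h4 : (1 + |x|) ^ ((5:ℝ)/8) ≤ (3 * T) ^ ((5:ℝ)/8) :=
      Real.rpow_le_rpow (by positivity) (by linarith) (by norm_num)
    rw [Real.mul_rpow (by norm_num) hT0.le] at h4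
    have h5 : (3:ℝ) ^ ((5:ℝ)/8) ≤ 3 := rpow_le_self_of_one_le' (by norm_num) (by norm_num)
    have h6 : 0 ≤ T ^ ((5:ℝ)/8) := by positivity
    nlinarith
  have h4 : (1:ℝ) ≤ 36 * T ^ ((5:ℝ)/8) := by
    have := Real.one_le_rpow hT (show (0:ℝ) ≤ 5/8 by norm_num)
    linarith
  exact (Real.rpow_le_rpow (zn_nonneg _ _) h3 hp.le).trans (rpow_le_self_of_one_le' h4 hp1)

lemma zp_cont {σ p : ℝ} (hσ : σ < 1) (hp : 0 < p) : Continuous fun t => zn σ t ^ p :=
  (zn_cont hσ).rpow_const fun _ => Or.inr hp.le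

lemma int_le_of_le {f : ℝ → ℝ} (hf : Continuous f) {a b C : ℝ} (hab : a ≤ b)
    (h : ∀ x ∈ Set.Icc a b, f x ≤ C) : ∫ x in a..b, f x ≤ (b - a) * C := by
  calc ∫ x in a..b, f x ≤ ∫ x in a..b, C :=
        intervalIntegral.integral_mono_on hab (hf.intervalIntegrable _ _) intervalIntegrable_const h
    _ = _ := by rw [intervalIntegral.integral_const, smul_eq_mul]

lemma edges_zp {σ p T : ℝ} (hp : 0 < p) (hp1 : p ≤ 1) (h1 : 3 / 8 ≤ σ) (h2 : σ ≤ 3 / 4)
    (hT : 1 ≤ T) : (∫ t in (-(T ^ ((1:ℝ)/4)))..0, zn σ t ^ p) + ∫ t in T..(T + T ^ ((1:ℝ)/4)), zn σ t ^ p ≤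
      72 * T := by
  have hT0 : 0 < T := by linarith
  have hU : T ^ ((1:ℝ)/4) ≤ T := rpow_le_self_of_one_le' hT (by norm_num)
  have hU0 : 0 < T ^ ((1:ℝ)/4) := Real.rpow_pos_of_pos hT0 _
  have hc := zp_cont (σ := σ) (by linarith) hp
  have a1 := int_le_of_le hc (a := -(T ^ ((1:ℝ)/4))) (b := 0) (C := 36 * T ^ ((5:ℝ)/8)) (by linarith)
    (fun x hx => zp_le2 hp hp1 h1 h2 hT (by
      rw [abs_le]; constructor <;> linarith [hx.1, hx.2]))
  have a2 := int_le_of_le hc (a := T) (b := T + T ^ ((1:ℝ)/4)) (C := 36 * T ^ ((5:ℝ)/8)) (by linarith)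
    (fun x hx => zp_le2 hp hp1 h1 h2 hT (by
      rw [abs_le]; constructor <;> linarith [hx.1, hx.2]))
  have h3 : T ^ ((1:ℝ)/4) * T ^ ((5:ℝ)/8) ≤ T := by
    rw [← Real.rpow_add hT0]
    exact rpow_le_self_of_one_le' hT (by norm_num)
  nlinarith

theorem refl_fix {p Δ T A : ℝ} (hp : 0 < p) (hp1 : p ≤ 1) (h0 : 0 < Δ) (h1 : Δ ≤ 1 / 8)
    (hT : 1 ≤ T) (hA0 : 0 ≤ A) (hA : ∀ w : ℝ, Real.exp (-(p * w ^ 2)) ≤ A * (1 + w ^ 2) ^ (-(16:ℝ))) :
    ∫ t in (0:ℝ)..T, zn (1 / 2) t ^ p ≤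
      Real.exp (p * Δ ^ 2) * (2 * T) ^ (p * Δ / 2) *
        ((∫ t in (0:ℝ)..T, zn (1 / 2 + Δ) t ^ p) + 6072 * T) +
      T * (48 * T * (1 + T)) * (2 * Real.pi * (Real.exp (p * Δ ^ 2) * A / Δ) *
        (T ^ ((1:ℝ)/4)) ^ (-(29:ℝ))) := by
  have hT0 : 0 < T := by linarith
  set X : ℝ := 2 * T with hX
  have hX1 : 1 ≤ X := by linarith
  have hX0 : 0 < X := by linarith
  set U : ℝ := T ^ ((1:ℝ)/4) with hU
  have hU1 : 1 ≤ U := Real.one_le_rpow hT (by norm_num)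
  have hUT : U ≤ T := rpow_le_self_of_one_le' hT (by norm_num)
  set K : ℝ → ℝ := fun w => KS Δ w * Real.exp (p * (Δ ^ 2 - w ^ 2)) with hK
  have hKc : Continuous K := (KS_cont h0).mul (by fun_prop)
  have hK0 : ∀ w, 0 ≤ K w := fun w => mul_nonneg (KS_nonneg h0 w) (Real.exp_pos _).le
  have hKe : ∀ w, K w = Real.exp (p * Δ ^ 2) * (KS Δ w * Real.exp (-(p * w ^ 2))) := by
    intro w
    simp only [hK]
    rw [show p * (Δ ^ 2 - w ^ 2) = p * Δ ^ 2 + -(p * w ^ 2) by ring, Real.exp_add]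
    ring
  have hKb : ∀ w, K w ≤ (Real.exp (p * Δ ^ 2) * A / Δ) * (1 + w ^ 2) ^ (-(16:ℝ)) := by
    intro w
    rw [hKe]
    have := KS_le h0 w
    have h3 := hA w
    calc Real.exp (p * Δ ^ 2) * (KS Δ w * Real.exp (-(p * w ^ 2))) ≤
        Real.exp (p * Δ ^ 2) * (1 / Δ * (A * (1 + w ^ 2) ^ (-(16:ℝ)))) := by
          gcongr
      _ = _ := by ring
  obtain ⟨i1, i2, i3⟩ := tail_int (A := Real.exp (p * Δ ^ 2) * A / Δ) (U := U) (by positivity) hU1 hKc hK0 hKb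
  have hKm : ∫ w, K w ≤ Real.exp (p * Δ ^ 2) / 2 := by
    calc ∫ w, K w ≤ ∫ w, Real.exp (p * Δ ^ 2) * KS Δ w := by
          refine integral_mono i1 ((KS_integrable h0).const_mul _) fun w => ?_
          beta_reduce
          rw [hKe]
          have h3 : Real.exp (-(p * w ^ 2)) ≤ 1 := by
            rw [Real.exp_le_one_iff]
            have : 0 ≤ p * w ^ 2 := by positivity
            linarith
          have h4 := KS_nonneg h0 w
          have h5 : KS Δ w * Real.exp (-(p * w ^ 2)) ≤ KS Δ w := mul_le_of_le_one_right h4 h3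
          exact mul_le_mul_of_nonneg_left h5 (Real.exp_pos _).le
      _ = _ := by rw [integral_const_mul, KS_integral h0]; ring
  set G : ℝ → ℝ := fun x => X ^ (p * Δ / 2) * zn (1 / 2 + Δ) x ^ p +
    X ^ (-(p * Δ / 2)) * zn (1 / 2 - Δ) x ^ p with hG
  have hc1 := zp_cont (σ := 1 / 2 + Δ) (by linarith) hp
  have hc2 := zp_cont (σ := 1 / 2 - Δ) (by linarith) hp
  have hGc : Continuous G := (continuous_const.mul hc1).add (continuous_const.mul hc2)
  have hz1 : ∀ x, 0 ≤ zn (1 / 2 + Δ) x ^ p := fun x => Real.rpow_nonneg (zn_nonneg _ _) _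
  have hz2 : ∀ x, 0 ≤ zn (1 / 2 - Δ) x ^ p := fun x => Real.rpow_nonneg (zn_nonneg _ _) _
  have hXp : X ^ (p * Δ / 2) ≤ X := rpow_le_self_of_one_le' hX1 (by nlinarith)
  have hXn : X ^ (-(p * Δ / 2)) ≤ X := rpow_le_self_of_one_le' hX1 (by
    have : 0 ≤ p * Δ / 2 := by positivity
    linarith)
  have hXp0 : 0 < X ^ (p * Δ / 2) := by positivity
  have hXn0 : 0 < X ^ (-(p * Δ / 2)) := by positivity
  have hG0 : ∀ x, 0 ≤ G x := fun x => by
    have := hz1 x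
    have := hz2 x
    simp only [hG]
    positivity
  have hGB1 : ∀ x, X ^ (p * Δ / 2) * zn (1 / 2 + Δ) x ^ p ≤ (12 * X) * (1 + |x|) := by
    intro x
    have := zp_le (x := x) hp hp1 (σ := 1 / 2 + Δ) (by linarith) (by linarith)
    calc X ^ (p * Δ / 2) * zn (1 / 2 + Δ) x ^ p ≤ X * (12 * (1 + |x|)) :=
          mul_le_mul hXp this (hz1 x) hX0.le
      _ = _ := by ring
  have hGB2 : ∀ x, X ^ (-(p * Δ / 2)) * zn (1 / 2 - Δ) x ^ p ≤ (12 * X) * (1 + |x|) := by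
    intro x
    have := zp_le (x := x) hp hp1 (σ := 1 / 2 - Δ) (by linarith) (by linarith)
    calc X ^ (-(p * Δ / 2)) * zn (1 / 2 - Δ) x ^ p ≤ X * (12 * (1 + |x|)) :=
          mul_le_mul hXn this (hz2 x) hX0.le
      _ = _ := by ring
  have hGB : ∀ x, G x ≤ (48 * T) * (1 + |x|) := by
    intro x
    have h3 := hGB1 x
    have h4 := hGB2 x
    have : (48 * T) * (1 + |x|) = (12 * X) * (1 + |x|) + (12 * X) * (1 + |x|) := by rw [hX]; ring
    rw [this]
    exact add_le_add h3 h4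
  have hpt : ∀ t ∈ Set.Icc 0 T, zn (1 / 2) t ^ p ≤ ∫ w, K w * G (t + w) := by
    intro t _
    have h3 := refl_pt (t := t) hp h0 h1 hX1
    have j1 := conv_int (G := fun x => X ^ (p * Δ / 2) * zn (1 / 2 + Δ) x ^ p) (B := 12 * X)
      (by positivity) hKc hK0 i2 (continuous_const.mul hc1)
      (fun x => mul_nonneg hXp0.le (hz1 x)) hGB1 t
    have j2 := conv_int (G := fun x => X ^ (-(p * Δ / 2)) * zn (1 / 2 - Δ) x ^ p) (B := 12 * X)
      (by positivity) hKc hK0 i2 (continuous_const.mul hc2)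
      (fun x => mul_nonneg hXn0.le (hz2 x)) hGB2 t
    refine h3.trans (le_of_eq ?_)
    rw [← integral_add j1 j2]
    refine integral_congr_ae (Eventually.of_forall fun w => ?_)
    simp only [hG, hK]
    ring
  have hmain := avg_le (K := K) (G := G) (H := fun t => zn (1 / 2) t ^ p) (T := T) (U := U) (B := 48 * T)
    hT0.le (by linarith) (by positivity) hKc hK0 i2 i1 hGc hG0 hGB (zp_cont (by norm_num) hp) hpt
  refine hmain.trans (add_le_add ?_ (mul_le_mul_of_nonneg_left i3 (by positivity)))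
  have hb1 : ∫ t in (-U)..(T + U), G t ≤ ∫ t in (-U)..(T + U), 2 * X ^ (p * Δ / 2) *
      (zn (1 / 2 + Δ) t ^ p + 2000) := by
    refine intervalIntegral.integral_mono_on (by linarith) (hGc.intervalIntegrable _ _)
      (Continuous.intervalIntegrable (continuous_const.mul (hc1.add continuous_const)) _ _) fun x hx => ?_
    have hx2 : |x| ≤ X := by
      rw [abs_le]; constructor <;> linarith [hx.1, hx.2]
    have h3 := fe_p (τ := x) hp hp1 h0.le h1 hX1 hx2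
    have h4 : X ^ (-(p * Δ / 2)) * X ^ (p * Δ) = X ^ (p * Δ / 2) := by
      rw [← Real.rpow_add hX0]; congr 1; ring
    have h5 := mul_le_mul_of_nonneg_left h3 hXn0.le
    rw [← mul_assoc, h4] at h5
    simp only [hG]
    have h6 := hz1 x
    nlinarith
  have hb2 : ∫ t in (-U)..(T + U), 2 * X ^ (p * Δ / 2) * (zn (1 / 2 + Δ) t ^ p + 2000) ≤
      2 * X ^ (p * Δ / 2) * ((∫ t in (0:ℝ)..T, zn (1 / 2 + Δ) t ^ p) + 6072 * T) := by
    rw [intervalIntegral.integral_const_mul]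
    refine mul_le_mul_of_nonneg_left ?_ (by positivity)
    rw [intervalIntegral.integral_add (hc1.intervalIntegrable _ _) intervalIntegrable_const,
      intervalIntegral.integral_const, smul_eq_mul, split_edges hc1 T U]
    have h3 := edges_zp (p := p) (σ := 1 / 2 + Δ) hp hp1 (by linarith) (by linarith) hT
    have h4 : (T + U - -U) * 2000 ≤ 6000 * T := by linarith
    linarith
  have hE0 : 0 ≤ ∫ t in (-U)..(T + U), G t :=
    intervalIntegral.integral_nonneg (by linarith) fun x _ => hG0 x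
  calc (∫ w, K w) * ∫ t in (-U)..(T + U), G t ≤ (Real.exp (p * Δ ^ 2) / 2) *
      (2 * X ^ (p * Δ / 2) * ((∫ t in (0:ℝ)..T, zn (1 / 2 + Δ) t ^ p) + 6072 * T)) :=
        mul_le_mul hKm (hb1.trans hb2) hE0 (by positivity)
    _ = _ := by ring

end Pool.Agent.W184
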