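import Mathlib

set_option autoImplicit false

/-! Submean value property of `‖f‖ ^ p`. -/

namespace Pool.Agent.W184

open Metric Real Filter MeromorphicOn MeasureTheory

lemma rpow_tangent {y M p : ℝ} (hy : 0 < y) (hM : 0 < M) :
    M ^ p * (1 + p * (Real.log y - Real.log M)) ≤ y ^ p := by
  have h1 : y ^ p = M ^ p * Real.exp (p * (Real.log y - Real.log M)) := by
    rw [Real.rpow_def_of_pos hy, Real.rpow_def_of_pos hM, ← Real.exp_add]
    congr 1; ring
  rw [h1]
  have h2 := Real.add_one_le_exp (p * (Real.log y - Real.log M))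
  have h3 : 0 < M ^ p := Real.rpow_pos_of_pos hM _
  nlinarith

theorem log_le_circleAverage {f : ℂ → ℂ} {c : ℂ} {R : ℝ} (hR : 0 < R)
    (hf : AnalyticOnNhd ℂ f (closedBall c R)) (h0 : f c ≠ 0) :
    Real.log ‖f c‖ ≤ circleAverage (Real.log ‖f ·‖) c R := by
  have hR' : |R| = R := abs_of_pos hR
  have hf' : AnalyticOnNhd ℂ f (closedBall c |R|) := by rw [hR']; exact hf
  rw [hf'.circleAverage_log_norm hR.ne' h0]
  have h1 : 0 ≤ ∑ᶠ u, divisor f (closedBall c |R|) u * Real.log (R * ‖c - u‖⁻¹) := by
    refine finsum_nonneg fun u => ?_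
    by_cases hu : u ∈ closedBall c |R|
    · refine mul_nonneg ?_ ?_
      · have := hf'.meromorphicOn
        have h2 : 0 ≤ divisor f (closedBall c |R|) := MeromorphicOn.AnalyticOnNhd.divisor_nonneg hf'
        exact_mod_cast h2 u
      · rcases eq_or_ne u c with h | h
        · subst h; simp
        · refine Real.log_nonneg ?_
          have h3 : 0 < ‖c - u‖ := norm_pos_iff.mpr (sub_ne_zero.mpr h.symm)
          rw [← div_eq_mul_inv, le_div_iff₀ h3, one_mul]
          rw [mem_closedBall, dist_comm, dist_eq_norm, hR'] at hu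
          exact hu
    · rw [Function.locallyFinsuppWithin.apply_eq_zero_of_notMem _ hu]
      simp
  linarith

theorem rpow_le_circleAverage {f : ℂ → ℂ} {c : ℂ} {R p : ℝ} (hR : 0 < R) (hp : 0 < p)
    (hf : AnalyticOnNhd ℂ f (closedBall c R)) :
    ‖f c‖ ^ p ≤ circleAverage (fun z => ‖f z‖ ^ p) c R := by
  have hR' : |R| = R := abs_of_pos hR
  by_cases h0 : f c = 0
  · rw [h0, norm_zero, Real.zero_rpow hp.ne']
    exact circleAverage_nonneg_of_nonneg fun z _ => by positivity
  have hM : 0 < ‖f c‖ := norm_pos_iff.mpr h0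
  set M := ‖f c‖ with hMd
  have hcs : ContinuousOn f (sphere c |R|) := by
    rw [hR']; exact (hf.continuousOn).mono sphere_subset_closedBall
  have hi2 : CircleIntegrable (fun z => ‖f z‖ ^ p) c R := by
    refine ContinuousOn.circleIntegrable' (?_)
    exact (hcs.norm).rpow_const fun x _ => Or.inr hp.le
  have hi1 : CircleIntegrable (Real.log ‖f ·‖) c R :=
    ((hf.mono (by rw [hR']; exact sphere_subset_closedBall) :
      AnalyticOnNhd ℂ f (sphere c |R|))).meromorphicOn.circleIntegrable_log_norm
  have hJ := log_le_circleAverage hR hf h0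
  set g : ℂ → ℝ := fun z => M ^ p * (1 + p * (Real.log ‖f z‖ - Real.log M)) with hg
  set g' : ℂ → ℝ := fun z => if f z = 0 then 0 else g z with hg'
  have hne : ∀ᶠ z in codiscreteWithin (sphere c |R|), f z ≠ 0 := by
    have h1 : AnalyticOnNhd ℂ f (closedBall c |R|) := by rw [hR']; exact hf
    have h2 := AnalyticOnNhd.eqOn_zero_or_eventually_ne_zero_of_preconnected h1
      (convex_closedBall c |R|).isPreconnected
    rcases h2 with h2 | h2
    · exact absurd (h2 (mem_closedBall_self (abs_nonneg R))) h0
    · exact h2.filter_mono (codiscreteWithin_mono sphere_subset_closedBall)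
  have hgg : g =ᶠ[codiscreteWithin (sphere c |R|)] g' := by
    filter_upwards [hne] with z hz
    rw [hg']
    simp only
    rw [if_neg hz]
  have hcg : circleAverage g c R = circleAverage g' c R :=
    circleAverage_congr_codiscreteWithin hgg hR.ne'
  have hig : CircleIntegrable g c R := by
    rw [hg]
    have h1 : CircleIntegrable (fun z => M ^ p * p * Real.log ‖f z‖) c R :=
      IntervalIntegrable.const_mul hi1 _
    have h2 : CircleIntegrable (fun _ : ℂ => M ^ p * (1 - p * Real.log M)) c R :=
      circleIntegrable_const _ _ _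
    have h3 := h1.add h2
    refine h3.congr ?_
    intro θ _
    simp only [Pi.add_apply]
    ring
  have hig' : CircleIntegrable g' c R := by
    exact hig.congr_codiscreteWithin hgg
  have e1 : circleAverage g c R = M ^ p * (1 + p * (circleAverage (Real.log ‖f ·‖) c R - Real.log M)) := by
    have h1 : g = fun z => (M ^ p * p) • Real.log ‖f z‖ + M ^ p * (1 - p * Real.log M) := by
      funext z
      rw [hg]
      simp only [smul_eq_mul]
      ring
    have h2 : CircleIntegrable (fun z => (M ^ p * p) • Real.log ‖f z‖) c R :=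
      IntervalIntegrable.const_mul hi1 (M ^ p * p)
    have h3 : CircleIntegrable (fun _ : ℂ => M ^ p * (1 - p * Real.log M)) c R :=
      circleIntegrable_const _ _ _
    rw [h1, circleAverage_fun_add h2 h3, circleAverage_fun_smul, circleAverage_const]
    simp only [smul_eq_mul]
    ring
  have h4 : M ^ p ≤ circleAverage g c R := by
    rw [e1]
    have : 0 < M ^ p := Real.rpow_pos_of_pos hM _
    have h5 : 0 ≤ p * (circleAverage (Real.log ‖f ·‖) c R - Real.log M) :=
      mul_nonneg hp.le (by linarith)
    nlinarith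
  refine h4.trans ?_
  rw [hcg]
  refine circleAverage_mono hig' hi2 fun z _ => ?_
  rw [hg']
  simp only
  split_ifs with h
  · positivity
  · exact rpow_tangent (norm_pos_iff.mpr h) hM

end Pool.Agent.W184
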