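import Pool.Agent.Helper240.ZU.A1
import Pool.Agent.H401R2.Chi
import Pool.Agent.H306R2.ZetaGrowth

set_option autoImplicit false

/-! Growth bounds for zeta near the critical line. -/

namespace Pool.Agent.W184

open MeasureTheory Set Complex

lemma rpow_gap {x : ℝ} (hx : 1 ≤ x) : x ^ (-(3:ℝ)/8) ≤ 2 * (x ^ ((5:ℝ)/8) - (x - 1) ^ ((5:ℝ)/8)) := by
  have hx0 : 0 < x := by linarith
  have h1 : (x - 1) ^ ((5:ℝ)/8) = x ^ ((5:ℝ)/8) * (1 + -(1/x)) ^ ((5:ℝ)/8) := by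
    have hy : 0 ≤ 1 + -(1/x) := by
      have : 1 / x ≤ 1 := by rw [div_le_one hx0]; exact hx
      linarith
    rw [← Real.mul_rpow hx0.le hy]
    congr 1
    field_simp
    ring
  have h2 : (1 + -(1/x)) ^ ((5:ℝ)/8) ≤ 1 + (5/8) * (-(1/x)) := by
    apply rpow_one_add_le_one_add_mul_self
    · have : 1 / x ≤ 1 := by rw [div_le_one hx0]; exact hx
      linarith
    · norm_num
    · norm_num
  have h3 : x ^ (-(3:ℝ)/8) = x ^ ((5:ℝ)/8) * (1 / x) := by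
    rw [show (-(3:ℝ)/8) = 5/8 + (-1) by norm_num, Real.rpow_add hx0, Real.rpow_neg_one]
    ring
  have h4 : 0 < x ^ ((5:ℝ)/8) := Real.rpow_pos_of_pos hx0 _
  have h5 : 0 < 1 / x := by positivity
  rw [h1, h3]
  have h6 := mul_le_mul_of_nonneg_left h2 h4.le
  nlinarith [mul_pos h4 h5]

lemma sum_rpow38 (N : ℕ) : ∑ n ∈ Finset.Icc 1 N, (n : ℝ) ^ (-(3:ℝ)/8) ≤ 2 * (N : ℝ) ^ ((5:ℝ)/8) := by
  induction N with
  | zero => simp
  | succ N ih =>
    rw [Finset.sum_Icc_succ_top (by omega)]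
    have h1 := rpow_gap (x := ((N + 1 : ℕ) : ℝ)) (by push_cast; linarith [Nat.cast_nonneg (α := ℝ) N])
    have h2 : ((N + 1 : ℕ) : ℝ) - 1 = N := by push_cast; ring
    rw [h2] at h1
    linarith

lemma DN_norm_le {N : ℕ} {s : ℂ} (hs : 3 / 8 ≤ s.re) : ‖ZU.DN N s‖ ≤ 2 * (N : ℝ) ^ ((5:ℝ)/8) := by
  refine le_trans ?_ (sum_rpow38 N)
  unfold ZU.DN
  refine (norm_sum_le _ _).trans (Finset.sum_le_sum fun n hn => ?_)
  rw [Finset.mem_Icc] at hn
  rw [Complex.norm_natCast_cpow_of_pos (by omega)]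
  refine Real.rpow_le_rpow_of_exponent_le (by exact_mod_cast hn.1) ?_
  simp
  linarith

lemma frac_int_le {N : ℕ} (hN : 1 ≤ N) {s : ℂ} (hs : 0 < s.re) :
    ‖∫ u in Ioi (N : ℝ), ((Int.fract u : ℝ) : ℂ) * (u : ℂ) ^ (-s - 1)‖ ≤
      (N : ℝ) ^ (-s.re) / s.re := by
  have hN0 : (0:ℝ) < N := by exact_mod_cast hN
  have h1 : ∫ t in Ioi (N:ℝ), t ^ (-s.re - 1) = (N : ℝ) ^ (-s.re) / s.re := by
    rw [integral_Ioi_rpow_of_lt (by linarith) hN0]
    have : -s.re - 1 + 1 = -s.re := by ring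
    rw [this, neg_div_neg_eq]
  rw [← h1]
  refine norm_integral_le_of_norm_le (integrableOn_Ioi_rpow_of_lt (by linarith) hN0) ?_
  refine (ae_restrict_mem measurableSet_Ioi).mono fun t ht => ?_
  have ht' : (N:ℝ) < t := ht
  have ht0 : 0 < t := by linarith
  rw [norm_mul, Complex.norm_real, Real.norm_of_nonneg (Int.fract_nonneg t),
    Complex.norm_cpow_eq_rpow_re_of_pos ht0]
  have h2 : (-s - 1).re = -s.re - 1 := by simp
  rw [h2]
  have h3 : 0 ≤ t ^ (-s.re - 1) := (Real.rpow_pos_of_pos ht0 _).le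
  have h4 := (Int.fract_lt_one t).le
  calc Int.fract t * t ^ (-s.re - 1) ≤ 1 * t ^ (-s.re - 1) := mul_le_mul_of_nonneg_right h4 h3
    _ = _ := one_mul _

/-- growth of zeta near the critical line -/
theorem zeta58 {σ t : ℝ} (h1 : 3 / 8 ≤ σ) (h2 : σ ≤ 3 / 4) :
    ‖riemannZeta ((σ : ℂ) + t * I)‖ ≤ 12 * (1 + |t|) ^ ((5:ℝ)/8) := by
  set s : ℂ := (σ : ℂ) + t * I with hs
  have hre : s.re = σ := by simp [hs]
  have him : s.im = t := by simp [hs]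
  have hs1 : s ≠ 1 := by
    intro h
    rw [h] at hre
    simp at hre
    linarith
  set N : ℕ := ⌊1 + |t|⌋₊ with hN
  have hpos : 0 ≤ 1 + |t| := by positivity
  have hN1 : 1 ≤ N := by
    rw [hN]; apply Nat.le_floor; push_cast; linarith [abs_nonneg t]
  have hNle : (N : ℝ) ≤ 1 + |t| := Nat.floor_le hpos
  have hNge : 1 + |t| ≤ 2 * N := by
    have := Nat.lt_floor_add_one (1 + |t|)
    rw [← hN] at this
    have h3 : (1:ℝ) ≤ N := by exact_mod_cast hN1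
    linarith
  have hN0 : (0:ℝ) < N := by exact_mod_cast hN1
  have hN1' : (1:ℝ) ≤ N := by exact_mod_cast hN1
  have hf := ZU.J_a1.zeta_formula N hN1 s (by rw [hre]; linarith) hs1
  rw [hf]
  have b1 : ‖ZU.DN N s‖ ≤ 2 * (N : ℝ) ^ ((5:ℝ)/8) := DN_norm_le (by rw [hre]; exact h1)
  have b2 : ‖(N : ℂ) ^ (1 - s) / (s - 1)‖ ≤ 4 * (N : ℝ) ^ ((5:ℝ)/8) := by
    rw [norm_div, Complex.norm_natCast_cpow_of_pos (by omega)]
    have h3 : 1 / 4 ≤ ‖s - 1‖ := by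
      have := Complex.abs_re_le_norm (s - 1)
      rw [Complex.sub_re, Complex.one_re, hre, abs_of_nonpos (by linarith)] at this
      linarith
    have h4 : (N:ℝ) ^ (1 - s).re ≤ (N : ℝ) ^ ((5:ℝ)/8) := by
      refine Real.rpow_le_rpow_of_exponent_le hN1' ?_
      rw [Complex.sub_re, Complex.one_re, hre]
      linarith
    rw [div_le_iff₀ (by linarith)]
    have h5 : 0 < (N : ℝ) ^ ((5:ℝ)/8) := Real.rpow_pos_of_pos hN0 _
    nlinarith
  have b3 : ‖s * ∫ u in Ioi (N : ℝ), ((Int.fract u : ℝ) : ℂ) * (u : ℂ) ^ (-s - 1)‖ ≤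
      6 * (N : ℝ) ^ ((5:ℝ)/8) := by
    rw [norm_mul]
    have h3 : ‖s‖ ≤ 2 * N := by
      have h4 := Complex.norm_le_abs_re_add_abs_im s
      rw [hre, him, abs_of_nonneg (by linarith : 0 ≤ σ)] at h4
      linarith
    have h4 := frac_int_le hN1 (s := s) (by rw [hre]; linarith)
    rw [hre] at h4
    have h5 : (N : ℝ) ^ (-σ) / σ ≤ (N : ℝ) ^ (-(3:ℝ)/8) * (8 / 3) := by
      rw [div_le_iff₀ (by linarith)]
      have h6 : (N : ℝ) ^ (-σ) ≤ (N : ℝ) ^ (-(3:ℝ)/8) :=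
        Real.rpow_le_rpow_of_exponent_le hN1' (by linarith)
      have h7 : 0 < (N : ℝ) ^ (-(3:ℝ)/8) := Real.rpow_pos_of_pos hN0 _
      nlinarith
    calc ‖s‖ * ‖∫ u in Ioi (N : ℝ), ((Int.fract u : ℝ) : ℂ) * (u : ℂ) ^ (-s - 1)‖ ≤
        (2 * N) * ((N : ℝ) ^ (-(3:ℝ)/8) * (8 / 3)) := by
          refine mul_le_mul h3 (h4.trans h5) (norm_nonneg _) (by positivity)
      _ = (16 / 3) * (N : ℝ) ^ ((5:ℝ)/8) := by
          rw [show ((5:ℝ)/8) = 1 + (-(3:ℝ)/8) by norm_num, Real.rpow_add hN0, Real.rpow_one]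
          ring
      _ ≤ _ := by
          have h5 : 0 < (N : ℝ) ^ ((5:ℝ)/8) := Real.rpow_pos_of_pos hN0 _
          nlinarith
  have h6 : (N : ℝ) ^ ((5:ℝ)/8) ≤ (1 + |t|) ^ ((5:ℝ)/8) :=
    Real.rpow_le_rpow hN0.le hNle (by norm_num)
  calc ‖ZU.DN N s + (N : ℂ) ^ (1 - s) / (s - 1) -
      s * ∫ u in Ioi (N : ℝ), ((Int.fract u : ℝ) : ℂ) * (u : ℂ) ^ (-s - 1)‖ ≤
      ‖ZU.DN N s‖ + ‖(N : ℂ) ^ (1 - s) / (s - 1)‖ +
        ‖s * ∫ u in Ioi (N : ℝ), ((Int.fract u : ℝ) : ℂ) * (u : ℂ) ^ (-s - 1)‖ :=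
        (norm_sub_le _ _).trans (add_le_add_left (norm_add_le _ _) _)
    _ ≤ 12 * (N : ℝ) ^ ((5:ℝ)/8) := by linarith
    _ ≤ _ := by linarith

open Pool.Agent.H401R2 in
lemma chi_zeta {s : ℂ} (h0 : 0 < s.re) (h1 : s.re < 1) :
    chi s * riemannZeta s = chi (1 - s) * riemannZeta (1 - s) := by
  have hs0 : s ≠ 0 := by rintro rfl; simp at h0
  have hs1 : 1 - s ≠ 0 := by
    intro h
    have : s = 1 := by linear_combination -h
    rw [this] at h1; simp at h1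
  have hg : ∀ z : ℂ, 0 < z.re → z ≠ 0 → chi z * riemannZeta z = z * (z - 1) / 2 * completedRiemannZeta z := by
    intro z hz hz0
    rw [riemannZeta_def_of_ne_zero hz0]
    have h2 := Gammaℝ_ne_zero_of_re_pos hz
    have h3 : chi z = z * (z - 1) / 2 * Gammaℝ z := by
      unfold chi
      rw [Gammaℝ_def]
      ring
    rw [h3]
    field_simp
  rw [hg s h0 hs0, hg (1 - s) (by simp; linarith) hs1, completedRiemannZeta_one_sub]
  ring

open Pool.Agent.H401R2 in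
lemma chi_norm {σ t : ℝ} (h0 : 0 < σ) (h1 : σ ≤ 1) (ht : 100 ≤ t) :
    t ^ 2 / √2 * Real.exp (-(Real.pi * t / 4) - (1 - σ) / 2 * Real.log (t / (2 * Real.pi))) *
      (1 - 4 / t) ≤ ‖chi ((σ : ℂ) + t * I)‖ ∧
    ‖chi ((σ : ℂ) + t * I)‖ ≤ t ^ 2 / √2 *
      Real.exp (-(Real.pi * t / 4) - (1 - σ) / 2 * Real.log (t / (2 * Real.pi))) * (1 + 4 / t) := by
  obtain ⟨e, he, h⟩ := chi_asymp h0 h1 ht
  have h2 : ‖exp (Lam σ t)‖ =
      Real.exp (-(Real.pi * t / 4) - (1 - σ) / 2 * Real.log (t / (2 * Real.pi))) := by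
    rw [Complex.norm_exp]
    congr 1
    unfold Lam
    rw [Complex.add_re, Complex.ofReal_re, Complex.re_ofReal_mul, Complex.I_re, mul_zero, add_zero]
  have h3 : ‖chi ((σ : ℂ) + t * I)‖ = t ^ 2 / √2 *
      Real.exp (-(Real.pi * t / 4) - (1 - σ) / 2 * Real.log (t / (2 * Real.pi))) * ‖1 + e‖ := by
    rw [h, norm_mul, norm_mul, norm_neg, Complex.norm_real, h2, Real.norm_of_nonneg (by positivity)]
  rw [h3]
  have h4 : 0 ≤ t ^ 2 / √2 *
      Real.exp (-(Real.pi * t / 4) - (1 - σ) / 2 * Real.log (t / (2 * Real.pi))) := by positivity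
  constructor
  · refine mul_le_mul_of_nonneg_left ?_ h4
    have := norm_sub_norm_le (1 : ℂ) (-e)
    rw [norm_one, norm_neg, sub_neg_eq_add] at this
    linarith
  · refine mul_le_mul_of_nonneg_left ?_ h4
    have := norm_add_le (1 : ℂ) e
    rw [norm_one] at this
    linarith

open Pool.Agent.H401R2 in
/-- the functional equation as an inequality, `τ ≥ 100` -/
lemma fe_pos {Δ τ : ℝ} (h0 : 0 ≤ Δ) (h1 : Δ ≤ 1 / 8) (ht : 100 ≤ τ) :
    ‖riemannZeta (((1 / 2 - Δ : ℝ) : ℂ) + τ * I)‖ ≤ τ ^ Δ * (1 + 16 / τ) *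
      ‖riemannZeta (((1 / 2 + Δ : ℝ) : ℂ) + τ * I)‖ := by
  have ht0 : 0 < τ := by linarith
  set s : ℂ := ((1 / 2 - Δ : ℝ) : ℂ) + τ * I with hs
  have hre : s.re = 1 / 2 - Δ := by simp [hs]
  have h2 := chi_zeta (s := s) (by rw [hre]; linarith) (by rw [hre]; linarith)
  have e1 : 1 - s = (starRingEnd ℂ) (((1 / 2 + Δ : ℝ) : ℂ) + τ * I) := by
    rw [map_add, map_mul, Complex.conj_ofReal, Complex.conj_ofReal, Complex.conj_I, hs]
    push_cast; ring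
  have h3 : ‖chi (1 - s)‖ = ‖chi (((1 / 2 + Δ : ℝ) : ℂ) + τ * I)‖ := by
    rw [e1]
    set w : ℂ := ((1 / 2 + Δ : ℝ) : ℂ) + τ * I with hw
    unfold chi
    rw [norm_mul, norm_mul, norm_mul, norm_mul]
    have a1 : ‖(starRingEnd ℂ) w * ((starRingEnd ℂ) w - 1) / 2‖ = ‖w * (w - 1) / 2‖ := by
      rw [norm_div, norm_div, norm_mul, norm_mul, RCLike.norm_conj]
      congr 2
      rw [← RCLike.norm_conj (w - 1), map_sub, map_one]
    have a2 : ‖((Real.pi : ℝ) : ℂ) ^ (-(starRingEnd ℂ) w / 2)‖ = ‖((Real.pi : ℝ) : ℂ) ^ (-w / 2)‖ := by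
      rw [Complex.norm_cpow_eq_rpow_re_of_pos Real.pi_pos, Complex.norm_cpow_eq_rpow_re_of_pos Real.pi_pos]
      congr 1
      simp
    have a3 : ‖Gamma ((starRingEnd ℂ) w / 2)‖ = ‖Gamma (w / 2)‖ := by
      have : (starRingEnd ℂ) w / 2 = (starRingEnd ℂ) (w / 2) := by
        rw [map_div₀, map_ofNat]
      rw [this, Complex.Gamma_conj, RCLike.norm_conj]
    rw [a1, a2, a3]
  have h4 : ‖riemannZeta (1 - s)‖ = ‖riemannZeta (((1 / 2 + Δ : ℝ) : ℂ) + τ * I)‖ := by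
    rw [e1, riemannZeta_conj, RCLike.norm_conj]
  have h5 := congrArg norm h2
  rw [norm_mul, norm_mul, h3, h4] at h5
  obtain ⟨c1, -⟩ := chi_norm (σ := 1 / 2 - Δ) (by linarith) (by linarith) ht
  obtain ⟨-, c2⟩ := chi_norm (σ := 1 / 2 + Δ) (by linarith) (by linarith) ht
  set X := ‖riemannZeta (((1 / 2 + Δ : ℝ) : ℂ) + τ * I)‖ with hX
  set Y := ‖riemannZeta s‖ with hY
  set lo := Real.log (τ / (2 * Real.pi)) with hlo
  set Q := τ ^ 2 / √2 * Real.exp (-(Real.pi * τ / 4) - (1 - (1 / 2 - Δ)) / 2 * lo) with hQ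
  have hQ0 : 0 < Q := by positivity
  have e2 : τ ^ 2 / √2 * Real.exp (-(Real.pi * τ / 4) - (1 - (1 / 2 + Δ)) / 2 * lo) =
      Q * Real.exp (Δ * lo) := by
    rw [hQ, mul_assoc, ← Real.exp_add]
    congr 2; ring
  rw [e2] at c2
  have hYn : 0 ≤ Y := norm_nonneg _
  have hXn : 0 ≤ X := norm_nonneg _
  have h6 : Q * (1 - 4 / τ) * Y ≤ Q * Real.exp (Δ * lo) * (1 + 4 / τ) * X := by
    calc Q * (1 - 4 / τ) * Y ≤ ‖chi s‖ * Y := mul_le_mul_of_nonneg_right c1 hYn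
      _ = _ := h5
      _ ≤ _ := mul_le_mul_of_nonneg_right c2 hXn
  have h7 : (1 - 4 / τ) * Y ≤ Real.exp (Δ * lo) * (1 + 4 / τ) * X := by
    have : Q * ((1 - 4 / τ) * Y) ≤ Q * (Real.exp (Δ * lo) * (1 + 4 / τ) * X) := by
      calc _ = Q * (1 - 4 / τ) * Y := by ring
        _ ≤ _ := h6
        _ = _ := by ring
    exact le_of_mul_le_mul_left this hQ0
  have h8 : Real.exp (Δ * lo) ≤ τ ^ Δ := by
    rw [Real.rpow_def_of_pos ht0]
    refine Real.exp_le_exp.mpr ?_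
    rw [mul_comm]
    refine mul_le_mul_of_nonneg_right ?_ h0
    refine Real.log_le_log (by positivity) ?_
    rw [div_le_iff₀ (by positivity)]
    nlinarith [Real.pi_gt_three]
  have h9 : 4 / τ ≤ 1 / 25 := by
    rw [div_le_iff₀ ht0]; linarith
  have h10 : 0 < 4 / τ := by positivity
  have h11 : (1 + 4 / τ) ≤ (1 + 16 / τ) * (1 - 4 / τ) := by
    have : 16 / τ = 4 * (4 / τ) := by ring
    rw [this]
    nlinarith
  have h12 : (1 - 4 / τ) * Y ≤ (1 - 4 / τ) * (τ ^ Δ * (1 + 16 / τ) * X) := by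
    refine h7.trans ?_
    have h13 : 0 < τ ^ Δ := Real.rpow_pos_of_pos ht0 _
    calc Real.exp (Δ * lo) * (1 + 4 / τ) * X ≤ τ ^ Δ * ((1 + 16 / τ) * (1 - 4 / τ)) * X := by
          gcongr
      _ = _ := by ring
  exact le_of_mul_le_mul_left h12 (by linarith)

end Pool.Agent.W184
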